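import Pool.Agent.H84.LA.Defs

/-! # Module BasicA: conjugation, normalisers, centralisers, elementary facts -/

namespace H84.LA

open Subgroup

section
variable {G : Type*} [Group G]

theorem mem_cj {g x : G} {P : Subgroup G} : x ∈ cj g P ↔ g⁻¹ * x * g ∈ P := by
  unfold cj
  rw [Subgroup.mem_map]
  constructor
  · rintro ⟨y, hy, rfl⟩
    have : g⁻¹ * (MulAut.conj g).toMonoidHom y * g = y := by
      simp [mul_assoc]
    rw [this]; exact hy
  · intro h
    exact ⟨_, h, by simp [mul_assoc]⟩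

theorem conj_mem_cj {g x : G} {P : Subgroup G} (h : x ∈ P) : g * x * g⁻¹ ∈ cj g P := by
  rw [mem_cj]
  simpa [mul_assoc] using h

theorem cj_one (P : Subgroup G) : cj 1 P = P := by
  ext x; rw [mem_cj]; simp

theorem cj_mul (g h : G) (P : Subgroup G) : cj (g * h) P = cj g (cj h P) := by
  ext x; rw [mem_cj, mem_cj, mem_cj]; simp [mul_assoc]

theorem cj_inv_cj (g : G) (P : Subgroup G) : cj g⁻¹ (cj g P) = P := by
  rw [← cj_mul]; simp [cj_one]

theorem cj_cj_inv (g : G) (P : Subgroup G) : cj g (cj g⁻¹ P) = P := by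
  rw [← cj_mul]; simp [cj_one]

theorem cj_le_cj {g : G} {P Q : Subgroup G} : cj g P ≤ cj g Q ↔ P ≤ Q := by
  constructor
  · intro h x hx
    have := h (conj_mem_cj (g := g) hx)
    rw [mem_cj] at this
    simpa [mul_assoc] using this
  · intro h x hx
    rw [mem_cj] at hx ⊢
    exact h hx

theorem cj_le_iff {g : G} {P Q : Subgroup G} : cj g P ≤ Q ↔ P ≤ cj g⁻¹ Q := by
  rw [← cj_le_cj (g := g) (P := P), cj_cj_inv]

theorem le_cj_iff {g : G} {P Q : Subgroup G} : P ≤ cj g Q ↔ cj g⁻¹ P ≤ Q := by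
  rw [← cj_le_cj (g := g) (P := cj g⁻¹ P), cj_cj_inv]

theorem cj_inj {g : G} {P Q : Subgroup G} : cj g P = cj g Q ↔ P = Q := by
  constructor
  · intro h
    exact le_antisymm (cj_le_cj.1 h.le) (cj_le_cj.1 h.ge)
  · rintro rfl; rfl

theorem cj_inf (g : G) (P Q : Subgroup G) : cj g (P ⊓ Q) = cj g P ⊓ cj g Q := by
  ext x; simp only [mem_cj, Subgroup.mem_inf]

theorem cj_sup (g : G) (P Q : Subgroup G) : cj g (P ⊔ Q) = cj g P ⊔ cj g Q := by
  unfold cj; rw [Subgroup.map_sup]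

theorem cj_top (g : G) : cj g (⊤ : Subgroup G) = ⊤ := by
  ext x; simp [mem_cj]

theorem cj_bot (g : G) : cj g (⊥ : Subgroup G) = ⊥ := by
  unfold cj; rw [Subgroup.map_bot]

theorem cj_eq_bot {g : G} {P : Subgroup G} : cj g P = ⊥ ↔ P = ⊥ :=
  ⟨fun h => cj_inj.1 (h.trans (cj_bot g).symm), fun h => by rw [h, cj_bot]⟩

theorem cj_sSup (g : G) (s : Set (Subgroup G)) : cj g (sSup s) = sSup (cj g '' s) := by
  unfold cj
  rw [sSup_image, sSup_eq_iSup]
  simp only [Subgroup.map_iSup]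

theorem card_cj (g : G) (P : Subgroup G) : Nat.card (cj g P) = Nat.card P := by
  unfold cj
  exact Nat.card_congr (P.equivMapOfInjective _ (MulAut.conj g).injective).symm.toEquiv

theorem isPGroup_cj {p : ℕ} {g : G} {P : Subgroup G} : IsPGroup p (cj g P) ↔ IsPGroup p P := by
  have key : ∀ (g : G) (P : Subgroup G), IsPGroup p P → IsPGroup p (cj g P) := fun g P h => h.map _
  refine ⟨fun h => ?_, key g P⟩
  have := key g⁻¹ _ h
  rwa [cj_inv_cj] at this

theorem cj_zpowers (g x : G) : cj g (zpowers x) = zpowers (g * x * g⁻¹) := by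
  unfold cj
  rw [MonoidHom.map_zpowers]
  rfl

theorem cj_comm (g : G) (A B : Subgroup G) : cj g ⁅A, B⁆ = ⁅cj g A, cj g B⁆ := by
  unfold cj
  exact Subgroup.map_commutator A B _

theorem mem_NG {g : G} {P : Subgroup G} : g ∈ NG P ↔ ∀ x, x ∈ P ↔ g * x * g⁻¹ ∈ P :=
  Subgroup.mem_normalizer_iff

/-- In a finite group one inclusion is enough. -/
theorem mem_NG_of [Finite G] {g : G} {P : Subgroup G} (h : ∀ x ∈ P, g * x * g⁻¹ ∈ P) :
    g ∈ NG P := by
  rw [mem_NG]
  have h1 : cj g P ≤ P := by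
    intro x hx
    rw [mem_cj] at hx
    have := h _ hx
    simpa [mul_assoc] using this
  have h2 : cj g P = P := by
    apply Subgroup.eq_of_le_of_card_ge h1
    rw [card_cj]
  intro x
  refine ⟨h x, fun hx => ?_⟩
  rw [← h2, mem_cj] at hx
  simpa [mul_assoc] using hx

theorem mem_NG_iff_cj {g : G} {P : Subgroup G} : g ∈ NG P ↔ cj g P = P := by
  rw [mem_NG]
  constructor
  · intro h
    ext x
    rw [mem_cj, h]
    simp [mul_assoc]
  · intro h x
    constructor
    · intro hx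
      have := conj_mem_cj (g := g) hx
      rwa [h] at this
    · intro hx
      rw [← h, mem_cj] at hx
      simpa [mul_assoc] using hx

theorem cj_of_mem_NG {g : G} {P : Subgroup G} (h : g ∈ NG P) : cj g P = P :=
  mem_NG_iff_cj.1 h

theorem le_NG (P : Subgroup G) : P ≤ NG P := Subgroup.le_normalizer

theorem cj_of_mem {g : G} {P : Subgroup G} (h : g ∈ P) : cj g P = P :=
  cj_of_mem_NG (le_NG P h)

theorem mem_CG {g : G} {P : Subgroup G} : g ∈ CG P ↔ ∀ x ∈ P, g * x = x * g := by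
  rw [Subgroup.mem_centralizer_iff]
  exact ⟨fun h x hx => (h x hx).symm, fun h x hx => (h x hx).symm⟩

theorem CG_le_NG (P : Subgroup G) : CG P ≤ NG P := by
  intro g hg
  rw [mem_CG] at hg
  rw [mem_NG]
  intro x
  constructor
  · intro hx
    rw [hg x hx]
    simpa [mul_assoc] using hx
  · intro hx
    have h1 := hg _ hx
    have h2 : g * x * g⁻¹ = x := by
      have h3 : g * (g * x * g⁻¹) = g * x := by rw [h1]; simp [mul_assoc]
      exact mul_left_cancel h3
    rw [← h2]; exact hx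

theorem cj_of_mem_CG {g : G} {P : Subgroup G} (h : g ∈ CG P) : cj g P = P :=
  cj_of_mem_NG (CG_le_NG P h)

theorem mem_Cx {g x : G} : g ∈ Cx x ↔ g * x = x * g := by
  rw [Subgroup.mem_centralizer_iff]
  simp only [Set.mem_singleton_iff, forall_eq]
  exact eq_comm

theorem mem_Cx_comm {g x : G} : g ∈ Cx x ↔ x ∈ Cx g := by
  rw [mem_Cx, mem_Cx]
  exact eq_comm

theorem self_mem_Cx (x : G) : x ∈ Cx x := mem_Cx.2 rfl

theorem mem_CG_zpowers {g x : G} : g ∈ CG (zpowers x) ↔ g ∈ Cx x := by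
  rw [mem_CG, mem_Cx]
  constructor
  · intro h
    exact h x (mem_zpowers x)
  · rintro h y ⟨k, rfl⟩
    exact (Commute.zpow_right (show Commute g x from h) k)

/-- `A ≤ C(B)` is symmetric -/
theorem le_CG_comm {A B : Subgroup G} : A ≤ CG B ↔ B ≤ CG A := by
  constructor
  · intro h b hb
    rw [mem_CG]
    intro a ha
    exact (mem_CG.1 (h ha) b hb).symm
  · intro h a ha
    rw [mem_CG]
    intro b hb
    exact (mem_CG.1 (h hb) a ha).symm

theorem CG_anti {A B : Subgroup G} (h : A ≤ B) : CG B ≤ CG A := by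
  intro g hg
  rw [mem_CG] at hg ⊢
  exact fun x hx => hg x (h hx)

theorem CG_le_Cx {x : G} {B : Subgroup G} (h : x ∈ B) : CG B ≤ Cx x := by
  intro g hg
  rw [mem_CG] at hg
  exact mem_Cx.2 (hg x h)

theorem NG_cj (g : G) (P : Subgroup G) : NG (cj g P) = cj g (NG P) := by
  ext x
  rw [mem_cj, mem_NG_iff_cj, mem_NG_iff_cj, ← cj_mul, ← cj_inj (g := g⁻¹), ← cj_mul, cj_inv_cj,
    mul_assoc]

theorem CG_cj (g : G) (P : Subgroup G) : CG (cj g P) = cj g (CG P) := by
  ext x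
  rw [mem_cj, mem_CG, mem_CG]
  constructor
  · intro h y hy
    have h1 := h _ (conj_mem_cj (g := g) hy)
    have h2 := congrArg (fun z => g⁻¹ * z * g) h1
    simpa [mul_assoc] using h2
  · intro h y hy
    rw [mem_cj] at hy
    have h1 := h _ hy
    have h2 := congrArg (fun z => g * z * g⁻¹) h1
    simpa [mul_assoc] using h2

theorem Cx_cj (g x : G) : Cx (g * x * g⁻¹) = cj g (Cx x) := by
  ext y
  rw [mem_cj, mem_Cx, mem_Cx]
  constructor
  · intro h1
    have h2 := congrArg (fun z => g⁻¹ * z * g) h1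
    simpa [mul_assoc] using h2
  · intro h1
    have h2 := congrArg (fun z => g * z * g⁻¹) h1
    simpa [mul_assoc] using h2

/-- `N(P)` normalises `C(P)` -/
theorem NG_le_NG_CG (P : Subgroup G) : NG P ≤ NG (CG P) := by
  intro g hg
  rw [mem_NG_iff_cj, ← CG_cj, cj_of_mem_NG hg]

/-- `[A, B] ≤ A` iff `B` normalises `A` -/
theorem comm_le_left_iff {A B : Subgroup G} : ⁅A, B⁆ ≤ A ↔ B ≤ NG A := by
  rw [Subgroup.commutator_le]
  constructor
  · intro h b hb
    rw [mem_NG]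
    have key : ∀ b ∈ B, ∀ a ∈ A, b * a * b⁻¹ ∈ A := by
      intro b hb a ha
      have h1 := h a⁻¹ (inv_mem ha) b hb
      rw [commutatorElement_def] at h1
      have h2 := mul_mem ha h1
      simpa [mul_assoc] using h2
    intro a
    refine ⟨key b hb a, fun ha => ?_⟩
    have h3 := key b⁻¹ (inv_mem hb) _ ha
    simpa [mul_assoc] using h3
  · intro h a ha b hb
    rw [commutatorElement_def]
    have h1 := (mem_NG.1 (h hb) a⁻¹).1 (inv_mem ha)
    have h2 := mul_mem ha h1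
    simpa [mul_assoc] using h2

theorem comm_le_right_iff {A B : Subgroup G} : ⁅A, B⁆ ≤ B ↔ A ≤ NG B := by
  rw [Subgroup.commutator_comm, comm_le_left_iff]

/-- `[A, B] = 1` iff `A ≤ C(B)` -/
theorem comm_eq_bot_iff {A B : Subgroup G} : ⁅A, B⁆ = ⊥ ↔ A ≤ CG B :=
  Subgroup.commutator_eq_bot_iff_le_centralizer

theorem comm_le_inf {A B : Subgroup G} (h1 : B ≤ NG A) (h2 : A ≤ NG B) : ⁅A, B⁆ ≤ A ⊓ B :=
  le_inf (comm_le_left_iff.2 h1) (comm_le_right_iff.2 h2)

theorem comm_mem {A B : Subgroup G} {a b : G} (ha : a ∈ A) (hb : b ∈ B) :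
    a * b * a⁻¹ * b⁻¹ ∈ ⁅A, B⁆ := Subgroup.commutator_mem_commutator ha hb

/-- `A` and `B` both normalise `[A, B]` -/
theorem le_NG_comm_left (A B : Subgroup G) : A ≤ NG ⁅A, B⁆ := by
  have key : ∀ x ∈ A, ⁅A, B⁆ ≤ cj x⁻¹ ⁅A, B⁆ := by
    intro x hx
    rw [Subgroup.commutator_le]
    intro a ha b hb
    rw [mem_cj]
    -- x [a,b] x⁻¹ = [xa, b] [x, b]⁻¹
    have h1 := Subgroup.commutator_mem_commutator (mul_mem hx ha) hb
    have h2 := Subgroup.commutator_mem_commutator hx hb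
    have h3 := mul_mem h1 (inv_mem h2)
    rw [commutatorElement_def, commutatorElement_def] at h3
    rw [commutatorElement_def]
    simpa [mul_assoc] using h3
  intro x hx
  rw [mem_NG_iff_cj]
  apply le_antisymm
  · rw [cj_le_iff]; exact key x hx
  · have := key x⁻¹ (inv_mem hx)
    rwa [inv_inv] at this

theorem le_NG_comm_right (A B : Subgroup G) : B ≤ NG ⁅A, B⁆ := by
  rw [Subgroup.commutator_comm]; exact le_NG_comm_left B A

/-- a subgroup normalising `A` and `B` normalises `[A, B]`, `A ⊓ B`, `A ⊔ B`, `C(A)`, `N(A)` -/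
theorem le_NG_comm {H A B : Subgroup G} (h1 : H ≤ NG A) (h2 : H ≤ NG B) : H ≤ NG ⁅A, B⁆ := by
  intro g hg
  rw [mem_NG_iff_cj, cj_comm, cj_of_mem_NG (h1 hg), cj_of_mem_NG (h2 hg)]

theorem le_NG_inf {H A B : Subgroup G} (h1 : H ≤ NG A) (h2 : H ≤ NG B) : H ≤ NG (A ⊓ B) := by
  intro g hg
  rw [mem_NG_iff_cj, cj_inf, cj_of_mem_NG (h1 hg), cj_of_mem_NG (h2 hg)]

theorem le_NG_sup {H A B : Subgroup G} (h1 : H ≤ NG A) (h2 : H ≤ NG B) : H ≤ NG (A ⊔ B) := by
  intro g hg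
  rw [mem_NG_iff_cj, cj_sup, cj_of_mem_NG (h1 hg), cj_of_mem_NG (h2 hg)]

theorem le_NG_CG {H A : Subgroup G} (h1 : H ≤ NG A) : H ≤ NG (CG A) := by
  intro g hg
  rw [mem_NG_iff_cj, ← CG_cj, cj_of_mem_NG (h1 hg)]

theorem le_NG_NG {H A : Subgroup G} (h1 : H ≤ NG A) : H ≤ NG (NG A) := by
  intro g hg
  rw [mem_NG_iff_cj, ← NG_cj, cj_of_mem_NG (h1 hg)]

theorem le_NG_sSup {H : Subgroup G} {s : Set (Subgroup G)} (h : ∀ X ∈ s, H ≤ NG X) :
    H ≤ NG (sSup s) := by
  intro g hg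
  rw [mem_NG_iff_cj, cj_sSup]
  congr 1
  ext X
  simp only [Set.mem_image]
  constructor
  · rintro ⟨Y, hY, rfl⟩
    rw [cj_of_mem_NG (h Y hY hg)]; exact hY
  · intro hX
    exact ⟨X, hX, cj_of_mem_NG (h X hX hg)⟩

/-- elements of `A ⊔ B` when `B` normalises `A` -/
theorem mem_sup_of_NG {A B : Subgroup G} (h : B ≤ NG A) {x : G} :
    x ∈ A ⊔ B ↔ ∃ a ∈ A, ∃ b ∈ B, x = a * b := by
  constructor
  · intro hx
    let C : Subgroup G :=
      { carrier := {x | ∃ a ∈ A, ∃ b ∈ B, x = a * b}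
        mul_mem' := by
          rintro _ _ ⟨a, ha, b, hb, rfl⟩ ⟨a', ha', b', hb', rfl⟩
          refine ⟨a * (b * a' * b⁻¹), mul_mem ha ((mem_NG.1 (h hb) a').1 ha'), b * b',
            mul_mem hb hb', by simp [mul_assoc]⟩
        one_mem' := ⟨1, one_mem _, 1, one_mem _, by simp⟩
        inv_mem' := by
          rintro _ ⟨a, ha, b, hb, rfl⟩
          refine ⟨b⁻¹ * a⁻¹ * b⁻¹⁻¹, (mem_NG.1 (h (inv_mem hb)) a⁻¹).1 (inv_mem ha), b⁻¹,
            inv_mem hb, by simp [mul_assoc]⟩ }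
    have hA : A ≤ C := fun a ha => ⟨a, ha, 1, one_mem _, by simp⟩
    have hB : B ≤ C := fun b hb => ⟨1, one_mem _, b, hb, by simp⟩
    exact (sup_le hA hB) hx
  · rintro ⟨a, ha, b, hb, rfl⟩
    exact mul_mem ((le_sup_left : A ≤ A ⊔ B) ha) ((le_sup_right : B ≤ A ⊔ B) hb)

/-- `|A B| = |A| |B|` when `A ⊓ B = 1` and `B` normalises `A` -/
theorem card_sup [Finite G] {A B : Subgroup G} (h : B ≤ NG A) (h0 : A ⊓ B = ⊥) :
    Nat.card (A ⊔ B : Subgroup G) = Nat.card A * Nat.card B := by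
  rw [← Nat.card_prod]
  symm
  refine Nat.card_congr (Equiv.ofBijective
    (fun p : A × B => (⟨p.1 * p.2, (mem_sup_of_NG h).2 ⟨p.1, p.1.2, p.2, p.2.2, rfl⟩⟩ :
      (A ⊔ B : Subgroup G))) ⟨?_, ?_⟩)
  · rintro ⟨a, b⟩ ⟨a', b'⟩ hab
    have h1 : (a : G) * b = a' * b' := congrArg Subtype.val hab
    have h2 : (a' : G)⁻¹ * a = b' * (b : G)⁻¹ := by
      rw [inv_mul_eq_iff_eq_mul, ← mul_assoc, ← h1]; simp [mul_assoc]
    have h3 : (a' : G)⁻¹ * a ∈ A ⊓ B := Subgroup.mem_inf.2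
      ⟨mul_mem (inv_mem a'.2) a.2, by rw [h2]; exact mul_mem b'.2 (inv_mem b.2)⟩
    rw [h0, Subgroup.mem_bot] at h3
    have h4 : (a : G) = a' := by
      rw [inv_mul_eq_one] at h3; exact h3.symm
    have h5 : (b : G) = b' := by
      rw [h4] at h1; exact mul_left_cancel h1
    exact Prod.ext (Subtype.ext h4) (Subtype.ext h5)
  · rintro ⟨x, hx⟩
    obtain ⟨a, ha, b, hb, rfl⟩ := (mem_sup_of_NG h).1 hx
    exact ⟨(⟨a, ha⟩, ⟨b, hb⟩), rfl⟩

/-- subgroups of coprime order meet trivially -/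
theorem inf_eq_bot_of_coprime [Finite G] {A B : Subgroup G}
    (h : Nat.Coprime (Nat.card A) (Nat.card B)) : A ⊓ B = ⊥ :=
  (Subgroup.disjoint_of_coprime_natCard h).eq_bot

/-- mutually normalising subgroups with trivial intersection commute -/
theorem comm_of_inf_bot {A B : Subgroup G} (h1 : B ≤ NG A) (h2 : A ≤ NG B) (h0 : A ⊓ B = ⊥) :
    A ≤ CG B := by
  rw [← comm_eq_bot_iff, eq_bot_iff, ← h0]
  exact comm_le_inf h1 h2

/-- subgroups of coprime order normalising each other commute -/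
theorem comm_of_coprime [Finite G] {A B : Subgroup G} (h1 : B ≤ NG A) (h2 : A ≤ NG B)
    (h : Nat.Coprime (Nat.card A) (Nat.card B)) : A ≤ CG B :=
  comm_of_inf_bot h1 h2 (inf_eq_bot_of_coprime h)

theorem El.pow {p : ℕ} {x : G} (h : El p x) (n : ℕ) : El p (x ^ n) := by
  obtain ⟨k, hk⟩ := h
  exact ⟨k, by rw [← pow_mul, mul_comm, pow_mul, hk, one_pow]⟩

theorem El.conj {p : ℕ} {x : G} (h : El p x) (g : G) : El p (g * x * g⁻¹) := by
  obtain ⟨k, hk⟩ := h
  exact ⟨k, by rw [conj_pow, hk]; simp⟩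

theorem El.of_orderOf {p : ℕ} {x : G} (h : orderOf x = p) : El p x :=
  ⟨1, by rw [pow_one, ← h]; exact pow_orderOf_eq_one x⟩

theorem El.of_mem {p : ℕ} {P : Subgroup G} (hP : IsPGroup p P) {x : G} (hx : x ∈ P) : El p x := by
  obtain ⟨k, hk⟩ := hP ⟨x, hx⟩
  exact ⟨k, congrArg Subtype.val hk⟩

theorem El.isPGroup {p : ℕ} {x : G} (h : El p x) : IsPGroup p (zpowers x) := by
  obtain ⟨k, hk⟩ := h
  rintro ⟨y, n, rfl⟩
  refine ⟨k, Subtype.ext ?_⟩
  change (x ^ n) ^ p ^ k = 1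
  rw [← zpow_natCast, ← zpow_mul, mul_comm, zpow_mul, zpow_natCast, hk, one_zpow]

theorem El.orderOf_dvd {p : ℕ} {x : G} (h : El p x) : ∃ k : ℕ, orderOf x ∣ p ^ k := by
  obtain ⟨k, hk⟩ := h
  exact ⟨k, orderOf_dvd_of_pow_eq_one hk⟩

/-- an element which is a `p`-element and a `q`-element is trivial -/
theorem El.eq_one {p q : ℕ} (hp : p.Prime) (hq : q.Prime) (hpq : p ≠ q) {x : G} (h1 : El p x)
    (h2 : El q x) : x = 1 := by
  obtain ⟨k, hk⟩ := h1.orderOf_dvd
  obtain ⟨l, hl⟩ := h2.orderOf_dvd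
  have hc : Nat.Coprime (p ^ k) (q ^ l) :=
    Nat.Coprime.pow k l ((Nat.coprime_primes hp hq).2 hpq)
  have h3 : orderOf x ∣ 1 := by
    have := Nat.dvd_gcd hk hl
    rwa [hc] at this
  exact orderOf_eq_one_iff.1 (Nat.dvd_one.1 h3)

/-- an element `≠ 1` of a `p`-group has a power of order `p` -/
theorem El.exists_pow {p : ℕ} (hp : p.Prime) {x : G} (h : El p x) (h1 : x ≠ 1) :
    ∃ n : ℕ, orderOf (x ^ n) = p := by
  obtain ⟨k, hk⟩ := h.orderOf_dvd
  obtain ⟨m, -, hm⟩ := (Nat.dvd_prime_pow hp).1 hk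
  rcases Nat.eq_zero_or_pos m with h0 | h0
  · subst h0
    rw [pow_zero] at hm
    exact absurd (orderOf_eq_one_iff.1 hm) h1
  · obtain ⟨m, rfl⟩ := Nat.exists_eq_succ_of_ne_zero h0.ne'
    refine ⟨p ^ m, ?_⟩
    rw [orderOf_pow_of_dvd (pow_ne_zero _ hp.pos.ne') (by rw [hm]; exact pow_dvd_pow p (Nat.le_succ m)),
      hm, Nat.succ_eq_add_one, pow_succ, Nat.mul_div_cancel_left _ (pow_pos hp.pos m)]

/-- the prime power parts of an element: every `g` is a product of a `p`-element and an element of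
order prime to `p`, both powers of `g` -/
theorem exists_parts [Finite G] {p : ℕ} (hp : p.Prime) (g : G) :
    ∃ a b : G, (∃ n : ℕ, a = g ^ n) ∧ (∃ n : ℕ, b = g ^ n) ∧ g = a * b ∧ El p a ∧
      ¬ p ∣ orderOf b := by
  have hg : 0 < orderOf g := orderOf_pos g
  obtain ⟨k, m, hm, hkm⟩ := Nat.exists_eq_pow_mul_and_not_dvd hg.ne' p hp.ne_one
  have hc : Nat.Coprime (p ^ k) m := Nat.Coprime.pow_left k ((Nat.Prime.coprime_iff_not_dvd hp).2 hm)
  -- u ≡ 1 mod p^k, u ≡ 0 mod m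
  obtain ⟨u, hu1, hu2⟩ := Nat.chineseRemainder hc 1 0
  have hpk : 0 < p ^ k := pow_pos hp.pos k
  obtain ⟨c, hc'⟩ := (Nat.modEq_zero_iff_dvd).1 hu2
  -- v = 1 - u mod order
  set v := (orderOf g - 1) * u + 1 with hv
  refine ⟨g ^ u, g ^ v, ⟨u, rfl⟩, ⟨v, rfl⟩, ?_, ⟨k, ?_⟩, ?_⟩
  · rw [← pow_add]
    have e : u + v = orderOf g * u + 1 := by
      rw [hv, ← add_assoc]
      congr 1
      rw [Nat.sub_mul, one_mul]
      have : u ≤ orderOf g * u := Nat.le_mul_of_pos_left u hg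
      omega
    rw [e, pow_add, pow_mul, pow_orderOf_eq_one, one_pow, one_mul, pow_one]
  · rw [← pow_mul, hc']
    have e : m * c * p ^ k = orderOf g * c := by rw [hkm]; ring
    rw [e, pow_mul, pow_orderOf_eq_one, one_pow]
  · -- order of g^v divides m
    intro hd
    have h1 : (g ^ v) ^ m = 1 := by
      rw [← pow_mul]
      apply orderOf_dvd_iff_pow_eq_one.1
      rw [hkm]
      apply Nat.mul_dvd_mul _ (dvd_refl m)
      -- p^k ∣ v
      have h2 : (v : ℤ) ≡ 0 [ZMOD (p ^ k : ℕ)] := by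
        have h3 : (u : ℤ) ≡ 1 [ZMOD (p ^ k : ℕ)] := by
          have := (Int.natCast_modEq_iff).2 hu1
          simpa using this
        have h4 : ((orderOf g : ℕ) : ℤ) ≡ 0 [ZMOD (p ^ k : ℕ)] := by
          rw [Int.modEq_zero_iff_dvd]
          exact Int.natCast_dvd_natCast.2 ⟨m, hkm⟩
        have h5 : (v : ℤ) = ((orderOf g : ℕ) : ℤ) * u - u + 1 := by
          rw [hv]
          push_cast [Nat.cast_sub (Nat.succ_le_of_lt hg)]
          ring
        rw [h5]
        calc ((orderOf g : ℕ) : ℤ) * u - u + 1 ≡ 0 * u - 1 + 1 [ZMOD (p ^ k : ℕ)] :=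
              Int.ModEq.add (Int.ModEq.sub (Int.ModEq.mul h4 (Int.ModEq.refl _)) h3)
                (Int.ModEq.refl _)
          _ = 0 := by ring
      rw [Int.modEq_zero_iff_dvd] at h2
      exact Int.natCast_dvd_natCast.1 h2
    exact hm (hd.trans (orderOf_dvd_of_pow_eq_one h1))

/-- in a finite group every subgroup is generated by its elements of prime power order:
to prove `X ≤ C` it suffices to look at those -/
theorem le_of_El [Finite G] {X C : Subgroup G}
    (h : ∀ s : ℕ, s.Prime → ∀ m ∈ X, El s m → m ∈ C) : X ≤ C := by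
  have key : ∀ n : ℕ, ∀ x ∈ X, orderOf x = n → x ∈ C := by
    intro n
    induction n using Nat.strong_induction_on with
    | _ n ih =>
      intro x hx hn
      by_cases h1 : n = 1
      · rw [h1] at hn
        rw [orderOf_eq_one_iff.1 hn]; exact one_mem _
      · obtain ⟨p, hp, hpn⟩ := Nat.exists_prime_and_dvd h1
        obtain ⟨a, b, ⟨i, hi⟩, ⟨j, hj⟩, hab, hElA, hb⟩ := exists_parts hp x
        have hbd : orderOf b ∣ n := by
          rw [← hn, hj]; exact orderOf_pow_dvd j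
        have hbne : orderOf b ≠ n := by
          intro e; rw [e] at hb; exact hb hpn
        have hnpos : 0 < n := by rw [← hn]; exact orderOf_pos x
        have hblt : orderOf b < n := lt_of_le_of_ne (Nat.le_of_dvd hnpos hbd) hbne
        have hbC : b ∈ C := ih _ hblt b (by rw [hj]; exact pow_mem hx j) rfl
        have haC : a ∈ C := h p hp a (by rw [hi]; exact pow_mem hx i) hElA
        rw [hab]; exact mul_mem haC hbC
  exact fun x hx => key _ x hx rfl

/-- `p`-groups of order divisible by / of prime order elements -/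
theorem isPGroup_card_coprime [Finite G] {p q : ℕ} (hp : p.Prime) (hq : q.Prime) (hpq : p ≠ q)
    {A B : Subgroup G} (hA : IsPGroup p A) (hB : IsPGroup q B) :
    Nat.Coprime (Nat.card A) (Nat.card B) := by
  have : Fact p.Prime := ⟨hp⟩
  have : Fact q.Prime := ⟨hq⟩
  obtain ⟨k, hk⟩ := IsPGroup.iff_card.1 hA
  obtain ⟨l, hl⟩ := IsPGroup.iff_card.1 hB
  rw [hk, hl]
  exact Nat.Coprime.pow k l ((Nat.coprime_primes hp hq).2 hpq)

theorem isPGroup_inf_bot [Finite G] {p q : ℕ} (hp : p.Prime) (hq : q.Prime) (hpq : p ≠ q)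
    {A B : Subgroup G} (hA : IsPGroup p A) (hB : IsPGroup q B) : A ⊓ B = ⊥ :=
  inf_eq_bot_of_coprime (isPGroup_card_coprime hp hq hpq hA hB)

/-- Cauchy -/
theorem exists_order_of_dvd [Finite G] {p : ℕ} (hp : p.Prime) {A : Subgroup G}
    (h : p ∣ Nat.card A) : ∃ x ∈ A, orderOf x = p := by
  have : Fact p.Prime := ⟨hp⟩
  obtain ⟨x, hx⟩ := exists_prime_orderOf_dvd_card' p h
  exact ⟨x, x.2, by rw [← hx]; exact Subgroup.orderOf_coe x⟩

/-- a nontrivial subgroup contains an element of prime order -/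
theorem exists_prime_order [Finite G] {A : Subgroup G} (h : A ≠ ⊥) :
    ∃ p : ℕ, p.Prime ∧ ∃ x ∈ A, orderOf x = p := by
  have h1 : Nat.card A ≠ 1 := fun e => h (Subgroup.card_eq_one.1 e)
  obtain ⟨p, hp, hd⟩ := Nat.exists_prime_and_dvd h1
  exact ⟨p, hp, exists_order_of_dvd hp hd⟩

/-- a nontrivial `p`-subgroup contains an element of order `p` -/
theorem exists_order_p [Finite G] {p : ℕ} (hp : p.Prime) {A : Subgroup G} (hA : IsPGroup p A)
    (h : A ≠ ⊥) : ∃ x ∈ A, orderOf x = p := by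
  have : Fact p.Prime := ⟨hp⟩
  apply exists_order_of_dvd hp
  obtain ⟨k, hk⟩ := IsPGroup.iff_card.1 hA
  rcases Nat.eq_zero_or_pos k with h0 | h0
  · rw [h0, pow_zero] at hk
    exact absurd (Subgroup.card_eq_one.1 hk) h
  · rw [hk]; exact dvd_pow_self p h0.ne'

/-- a nontrivial `p`-group has a central element of order `p` -/
theorem exists_central [Finite G] {p : ℕ} (hp : p.Prime) {P : Subgroup G} (hP : IsPGroup p P)
    (h : P ≠ ⊥) : ∃ z ∈ P, z ∈ CG P ∧ orderOf z = p := by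
  have : Fact p.Prime := ⟨hp⟩
  have hnt : Nontrivial P := (Subgroup.nontrivial_iff_ne_bot P).2 h
  have hc : Nontrivial (Subgroup.center P) := hP.center_nontrivial
  set Z : Subgroup G := (Subgroup.center P).map P.subtype with hZ
  have hZP : Z ≤ P := by
    rw [hZ]; exact Subgroup.map_subtype_le _
  have hZne : Z ≠ ⊥ := by
    intro e
    rw [hZ, Subgroup.map_eq_bot_iff_of_injective _ P.subtype_injective] at e
    exact (Subgroup.nontrivial_iff_ne_bot _).1 hc e
  have hZp : IsPGroup p Z := hP.to_le hZP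
  obtain ⟨z, hz, hzo⟩ := exists_order_p hp hZp hZne
  refine ⟨z, hZP hz, ?_, hzo⟩
  rw [mem_CG]
  intro x hx
  obtain ⟨w, hw, rfl⟩ := hz
  have := Subgroup.mem_center_iff.1 hw ⟨x, hx⟩
  exact (congrArg Subtype.val this).symm

/-- normalisers grow in `p`-groups -/
theorem exists_normalizer_gt [Finite G] {p : ℕ} (hp : p.Prime) {P Q : Subgroup G}
    (hP : IsPGroup p P) (hQP : Q ≤ P) (hne : Q ≠ P) : ∃ x ∈ P, x ∉ Q ∧ x ∈ NG Q := by
  have : Fact p.Prime := ⟨hp⟩
  have hnil : Group.IsNilpotent P := hP.isNilpotent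
  have hlt : Q.subgroupOf P < ⊤ := by
    rw [lt_top_iff_ne_top]
    intro e
    rw [Subgroup.subgroupOf_eq_top] at e
    exact hne (le_antisymm hQP e)
  have h1 := Group.normalizerCondition_of_isNilpotent (G := P) _ hlt
  obtain ⟨y, hy, hyn⟩ := SetLike.exists_of_lt h1
  refine ⟨y, y.2, fun h => hyn (Subgroup.mem_subgroupOf.2 h), ?_⟩
  rw [mem_NG]
  rw [Subgroup.mem_normalizer_iff] at hy
  intro x
  constructor
  · intro hx
    have := (hy ⟨x, hQP hx⟩).1 (Subgroup.mem_subgroupOf.2 hx)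
    exact Subgroup.mem_subgroupOf.1 this
  · intro hx
    have hxP : x ∈ P := by
      have h2 := mul_mem (mul_mem (inv_mem y.2) (hQP hx)) y.2
      simpa [mul_assoc] using h2
    have := (hy ⟨x, hxP⟩).2 (Subgroup.mem_subgroupOf.2 hx)
    exact Subgroup.mem_subgroupOf.1 this

end

end H84.LA
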