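import Pool.Agent.H84.LA.BasicA

/-! # Module BasicB: Sylow subgroups -/

namespace H84.LA

open Subgroup

section
variable {G : Type*} [Group G]

/-- `SylIn p H S` says that `S` is the image of a Mathlib Sylow subgroup of `H` -/
theorem SylIn_iff_sylow {p : ℕ} {H S : Subgroup G} :
    SylIn p H S ↔ ∃ S' : Sylow p H, (S' : Subgroup H).map H.subtype = S := by
  constructor
  · rintro ⟨h1, h2, h3⟩
    refine ⟨⟨S.subgroupOf H, h2.comap_subtype, ?_⟩, ?_⟩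
    · intro Q hQ hle
      have h4 : Q.map H.subtype = S := by
        apply h3
        · exact Subgroup.map_subtype_le _
        · exact hQ.map _
        · intro s hs
          exact ⟨⟨s, h1 hs⟩, hle (Subgroup.mem_subgroupOf.2 hs), rfl⟩
      rw [← h4]
      ext x
      rw [Subgroup.mem_subgroupOf]
      constructor
      · intro hx; exact ⟨x, hx, rfl⟩
      · rintro ⟨y, hy, hyx⟩
        have : y = x := Subtype.ext hyx
        rwa [this] at hy
    · change (S.subgroupOf H).map H.subtype = S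
      rw [Subgroup.subgroupOf_map_subtype, inf_of_le_left h1]
  · rintro ⟨S', rfl⟩
    refine ⟨Subgroup.map_subtype_le _, S'.2.map _, ?_⟩
    intro T hT hTp hle
    have h4 : T.subgroupOf H = S' := by
      apply S'.3 hTp.comap_subtype
      intro x hx
      exact Subgroup.mem_subgroupOf.2 (hle ⟨x, hx, rfl⟩)
    rw [← h4, Subgroup.subgroupOf_map_subtype, inf_of_le_left hT]

theorem SylIn.exists_ge [Finite G] {p : ℕ} {H T : Subgroup G} (hT : IsPGroup p T) (h : T ≤ H) :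
    ∃ S, SylIn p H S ∧ T ≤ S := by
  have h1 : IsPGroup p (T.subgroupOf H) := hT.comap_subtype
  obtain ⟨Q, hQ⟩ := h1.exists_le_sylow
  refine ⟨(Q : Subgroup H).map H.subtype, SylIn_iff_sylow.2 ⟨Q, rfl⟩, ?_⟩
  intro t ht
  exact ⟨⟨t, h ht⟩, hQ (Subgroup.mem_subgroupOf.2 ht), rfl⟩

theorem SylIn.exists_syl [Finite G] (p : ℕ) (H : Subgroup G) : ∃ S, SylIn p H S := by
  obtain ⟨S, hS, -⟩ := SylIn.exists_ge (p := p) (T := (⊥ : Subgroup G)) IsPGroup.of_bot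
    (bot_le : ⊥ ≤ H)
  exact ⟨S, hS⟩

private theorem sylIn_cj_aux {p : ℕ} {H S : Subgroup G} (hS : SylIn p H S) (g : G) :
    SylIn p (cj g H) (cj g S) := by
  obtain ⟨h1, h2, h3⟩ := hS
  refine ⟨cj_le_cj.2 h1, isPGroup_cj.2 h2, ?_⟩
  intro T hT hTp hle
  have h4 : H84.LA.cj g⁻¹ T = S :=
    h3 _ (le_cj_iff.1 hT) (isPGroup_cj.2 hTp) (cj_le_iff.1 hle)
  rw [← h4, cj_cj_inv]

open scoped Pointwise in
theorem SylIn.conj [Finite G] {p : ℕ} (hp : p.Prime) {H S T : Subgroup G} (hS : SylIn p H S)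
    (hT : SylIn p H T) : ∃ h ∈ H, cj h S = T := by
  have : Fact p.Prime := ⟨hp⟩
  obtain ⟨S', hS'⟩ := SylIn_iff_sylow.1 hS
  obtain ⟨T', hT'⟩ := SylIn_iff_sylow.1 hT
  obtain ⟨h, hh⟩ := MulAction.exists_smul_eq H S' T'
  refine ⟨h, h.2, ?_⟩
  have h1 : H84.LA.cj (h : G) S ≤ T := by
    intro x hx
    rw [mem_cj, ← hS'] at hx
    obtain ⟨y, hy, hyx⟩ := hx
    rw [← hT', ← hh]
    refine ⟨h * y * h⁻¹, ?_, ?_⟩
    · have h2 : h * y * h⁻¹ ∈ (MulAut.conj h • (S' : Subgroup H) : Subgroup H) :=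
        Subgroup.smul_mem_pointwise_smul y (MulAut.conj h) (S' : Subgroup H) hy
      exact h2
    · have h3 : (y : G) = (h : G)⁻¹ * x * h := hyx
      simp [h3, mul_assoc]
  have h2 := sylIn_cj_aux hS (h : G)
  rw [cj_of_mem h.2] at h2
  exact (h2.2.2 T hT.1 hT.2.1 h1).symm

theorem SylIn.conj_le [Finite G] {p : ℕ} (hp : p.Prime) {H S T : Subgroup G} (hS : SylIn p H S)
    (hT : IsPGroup p T) (h : T ≤ H) : ∃ h ∈ H, cj h T ≤ S := by
  obtain ⟨T1, hT1, hle⟩ := SylIn.exists_ge hT h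
  obtain ⟨x, hx, hxe⟩ := hT1.conj hp hS
  exact ⟨x, hx, by rw [← hxe]; exact cj_le_cj.2 hle⟩

theorem SylIn.cj {p : ℕ} {H S : Subgroup G} (hS : SylIn p H S) (g : G) :
    SylIn p (cj g H) (cj g S) := sylIn_cj_aux hS g

theorem SylIn.mono {p : ℕ} {H K S : Subgroup G} (hS : SylIn p H S) (h1 : S ≤ K) (h2 : K ≤ H) :
    SylIn p K S :=
  ⟨h1, hS.2.1, fun T hT hTp hle => hS.2.2 T (hT.trans h2) hTp hle⟩

/-- it is enough to be normalised by `T` -/
theorem SylIn.le_of_normalises [Finite G] {p : ℕ} (hp : p.Prime) {H S T : Subgroup G}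
    (hS : SylIn p H S) (hT : IsPGroup p T) (h : T ≤ H) (hn : T ≤ NG S) : T ≤ S := by
  have _ := hp
  have h1 : IsPGroup p (S ⊔ T : Subgroup G) := hS.2.1.to_sup_of_normal_left' hT hn
  have h2 := hS.2.2 _ (sup_le hS.1 h) h1 le_sup_left
  rw [← h2]; exact le_sup_right

/-- a normal Sylow subgroup contains all `p`-subgroups -/
theorem SylIn.le_of_normal [Finite G] {p : ℕ} (hp : p.Prime) {H S T : Subgroup G}
    (hS : SylIn p H S) (hn : H ≤ NG S) (hT : IsPGroup p T) (h : T ≤ H) : T ≤ S :=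
  hS.le_of_normalises hp hT h (h.trans hn)

theorem SylIn.card_mul [Finite G] {p : ℕ} (hp : p.Prime) {H S : Subgroup G} (hS : SylIn p H S) :
    ∃ m : ℕ, Nat.card H = Nat.card S * m ∧ ¬ p ∣ m := by
  have : Fact p.Prime := ⟨hp⟩
  obtain ⟨S', hS'⟩ := SylIn_iff_sylow.1 hS
  refine ⟨(S' : Subgroup H).index, ?_, S'.not_dvd_index⟩
  rw [← Subgroup.card_mul_index (S' : Subgroup H), ← hS']
  congr 1
  exact (Subgroup.card_subtype H (S' : Subgroup H)).symm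

theorem SylIn.of_card [Finite G] {p : ℕ} (hp : p.Prime) {H S : Subgroup G} (hSH : S ≤ H)
    (hS : IsPGroup p S) {m : ℕ} (h : Nat.card H = Nat.card S * m) (hm : ¬ p ∣ m) :
    SylIn p H S := by
  have : Fact p.Prime := ⟨hp⟩
  refine ⟨hSH, hS, ?_⟩
  intro T hT hTp hle
  obtain ⟨k, hk⟩ := IsPGroup.iff_card.1 hTp
  obtain ⟨l, hl⟩ := IsPGroup.iff_card.1 hS
  have h1 : p ^ k ∣ p ^ l * m := by
    rw [← hk, ← hl, ← h]
    exact Subgroup.card_dvd_of_le hT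
  have h2 : Nat.Coprime (p ^ k) m :=
    Nat.Coprime.pow_left k ((Nat.Prime.coprime_iff_not_dvd hp).2 hm)
  have h3 : p ^ k ∣ p ^ l := h2.dvd_of_dvd_mul_right h1
  symm
  apply Subgroup.eq_of_le_of_card_ge hle
  rw [hk, hl]
  exact Nat.le_of_dvd (pow_pos hp.pos l) h3

theorem SylIn.ne_bot [Finite G] {p : ℕ} (hp : p.Prime) {H S : Subgroup G} (hS : SylIn p H S)
    (h : p ∣ Nat.card H) : S ≠ ⊥ := by
  rintro rfl
  obtain ⟨m, hm, hpm⟩ := hS.card_mul hp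
  rw [Subgroup.card_bot, one_mul] at hm
  rw [hm] at h
  exact hpm h

/-- if `N` is normal in `H` then `S ⊓ N` is Sylow in `N` -/
theorem SylIn.inf_normal [Finite G] {p : ℕ} (hp : p.Prime) {H S N : Subgroup G}
    (hS : SylIn p H S) (hN : N ≤ H) (hn : H ≤ NG N) : SylIn p N (S ⊓ N) := by
  have h0 : IsPGroup p (S ⊓ N : Subgroup G) := hS.2.1.to_le inf_le_left
  obtain ⟨T0, hT0, hle⟩ := SylIn.exists_ge h0 (inf_le_right : S ⊓ N ≤ N)
  obtain ⟨h, hh, hle2⟩ := hS.conj_le hp hT0.2.1 (hT0.1.trans hN)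
  have h1 : H84.LA.cj h T0 ≤ N := by
    have := cj_le_cj (g := h).2 hT0.1
    rwa [cj_of_mem_NG (hn hh)] at this
  have h2 : H84.LA.cj h T0 ≤ S ⊓ N := le_inf hle2 h1
  have h3 : S ⊓ N = T0 := by
    apply Subgroup.eq_of_le_of_card_ge hle
    rw [← card_cj h T0]
    exact Nat.le_of_dvd Nat.card_pos (Subgroup.card_dvd_of_le h2)
  rw [h3]; exact hT0

/-- Frattini argument: `N` normal in `H`, `S` Sylow in `N` -/
theorem frattini_arg [Finite G] {p : ℕ} (hp : p.Prime) {H N S : Subgroup G} (hN : N ≤ H)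
    (hn : H ≤ NG N) (hS : SylIn p N S) {h : G} (hh : h ∈ H) :
    ∃ a ∈ N, ∃ b ∈ H ⊓ NG S, h = a * b := by
  have h1 := hS.cj h
  rw [cj_of_mem_NG (hn hh)] at h1
  obtain ⟨a, ha, hae⟩ := hS.conj hp h1
  refine ⟨a, ha, a⁻¹ * h, Subgroup.mem_inf.2 ⟨mul_mem (inv_mem (hN ha)) hh, ?_⟩, by simp⟩
  rw [mem_NG_iff_cj, cj_mul, ← hae, cj_inv_cj]

theorem IsS.isPGroup {p : ℕ} {P : Subgroup G} (h : IsS p P) : IsPGroup p P := h.syl.2.1

theorem IsS.ne_bot [Finite G] {p : ℕ} {P : Subgroup G} (h : IsS p P) : P ≠ ⊥ :=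
  h.syl.ne_bot h.prime (by rw [Subgroup.card_top]; exact h.dvd)

theorem IsS.cj {p : ℕ} {P : Subgroup G} (h : IsS p P) (g : G) : IsS p (cj g P) := by
  refine ⟨h.prime, h.dvd, ?_⟩
  have := h.syl.cj g
  rwa [cj_top] at this

theorem IsS.conj [Finite G] {p : ℕ} {P Q : Subgroup G} (h : IsS p P) (h' : IsS p Q) :
    ∃ g : G, H84.LA.cj g P = Q := by
  obtain ⟨g, -, hg⟩ := h.syl.conj h.prime h'.syl
  exact ⟨g, hg⟩

theorem IsS.exists_ge [Finite G] {p : ℕ} (hp : p.Prime) {T : Subgroup G} (hT : IsPGroup p T)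
    (h : T ≠ ⊥) : ∃ P, IsS p P ∧ T ≤ P := by
  obtain ⟨S, hS, hle⟩ := SylIn.exists_ge hT (le_top : T ≤ ⊤)
  obtain ⟨x, hx, hxo⟩ := exists_order_p hp hT h
  refine ⟨S, ⟨hp, ?_, hS⟩, hle⟩
  rw [← hxo]
  exact orderOf_dvd_natCard x

theorem IsS.exists_mem [Finite G] {p : ℕ} (hp : p.Prime) {x : G} (hx : orderOf x = p) :
    ∃ P, IsS p P ∧ x ∈ P := by
  have h1 : IsPGroup p (zpowers x) := (El.of_orderOf hx).isPGroup
  have h2 : zpowers x ≠ ⊥ := by
    rw [Ne, Subgroup.zpowers_eq_bot]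
    rintro rfl
    rw [orderOf_one] at hx
    exact hp.one_lt.ne hx
  obtain ⟨P, hP, hle⟩ := IsS.exists_ge hp h1 h2
  exact ⟨P, hP, hle (mem_zpowers x)⟩

/-- a `p`-subgroup containing a Sylow subgroup is equal to it -/
theorem IsS.eq_of_le {p : ℕ} {P T : Subgroup G} (h : IsS p P) (hT : IsPGroup p T) (hPT : P ≤ T) :
    T = P := h.syl.2.2 T le_top hT hPT

/-- `P` is Sylow in every subgroup containing it -/
theorem IsS.sylIn {p : ℕ} {P H : Subgroup G} (h : IsS p P) (hPH : P ≤ H) : SylIn p H P :=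
  h.syl.mono hPH le_top

/-- `p`-subgroups of `N(P)` lie in `P` -/
theorem IsS.le_of_le_NG [Finite G] {p : ℕ} {P T : Subgroup G} (h : IsS p P) (hT : IsPGroup p T)
    (hn : T ≤ NG P) : T ≤ P := h.syl.le_of_normalises h.prime hT le_top hn

theorem IsS.mem_of_El [Finite G] {p : ℕ} {P : Subgroup G} (h : IsS p P) {x : G} (hx : El p x)
    (hn : x ∈ NG P) : x ∈ P :=
  h.le_of_le_NG hx.isPGroup (by rw [Subgroup.zpowers_le]; exact hn) (mem_zpowers x)

theorem IsS.eq_of_NG_le [Finite G] {p : ℕ} {P Q : Subgroup G} (h : IsS p P) (h' : IsS p Q)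
    (hn : P ≤ NG Q) : P = Q :=
  (h.eq_of_le h'.isPGroup (h'.le_of_le_NG h.isPGroup hn)).symm

/-- two Sylow subgroups with the same normaliser are equal -/
theorem IsS.eq_of_NG_eq [Finite G] {p : ℕ} {P Q : Subgroup G} (h : IsS p P) (h' : IsS p Q)
    (hn : NG P = NG Q) : P = Q :=
  h.eq_of_NG_le h' (by rw [← hn]; exact le_NG P)

end

end H84.LA
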