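import Pool.Agent.H84.LA.BasicB

/-! # Module BasicC: the groups `Op p H`, `Opp p H`; consequences of `Hyp` -/

namespace H84.LA

open Subgroup

section
variable {G : Type*} [Group G] [Finite G]

theorem Op_le (p : ℕ) (H : Subgroup G) : Op p H ≤ H := by
  exact sSup_le fun X hX => hX.1

theorem Op_norm (p : ℕ) (H : Subgroup G) : H ≤ NG (Op p H) := by
  exact le_NG_sSup fun X hX => hX.2.2

omit [Finite G] in
private theorem op_cj_aux (p : ℕ) (g : G) (H : Subgroup G) : Op p (cj g H) = cj g (Op p H) := by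
  unfold Op
  rw [cj_sSup]
  congr 1
  ext X
  constructor
  · rintro ⟨h1, h2, h3⟩
    refine ⟨cj g⁻¹ X, ⟨?_, ?_, ?_⟩, cj_cj_inv g X⟩
    · exact le_cj_iff.1 h1
    · exact isPGroup_cj.2 h2
    · rw [NG_cj, ← cj_le_iff]
      exact h3
  · rintro ⟨Y, ⟨h1, h2, h3⟩, rfl⟩
    refine ⟨cj_le_cj.2 h1, isPGroup_cj.2 h2, ?_⟩
    rw [NG_cj]
    exact cj_le_cj.2 h3

/-- everything normalising `H` normalises `Op p H` -/
theorem NG_le_NG_Op (p : ℕ) (H : Subgroup G) : NG H ≤ NG (Op p H) := by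
  intro g hg
  rw [mem_NG_iff_cj, ← op_cj_aux, cj_of_mem_NG hg]

private theorem op_le_syl_aux {p : ℕ} (hp : p.Prime) {H S : Subgroup G} (hS : SylIn p H S) :
    Op p H ≤ S := by
  refine sSup_le ?_
  rintro X ⟨h1, h2, h3⟩
  obtain ⟨h, hh, hle⟩ := SylIn.conj_le hp hS h2 h1
  rwa [cj_of_mem_NG (h3 hh)] at hle

theorem Op_isPGroup {p : ℕ} (hp : p.Prime) (H : Subgroup G) : IsPGroup p (Op p H) := by
  obtain ⟨S, hS⟩ := SylIn.exists_syl p H
  exact hS.2.1.to_le (op_le_syl_aux hp hS)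

theorem le_Op {p : ℕ} {H X : Subgroup G} (h1 : X ≤ H) (h2 : IsPGroup p X) (h3 : H ≤ NG X) :
    X ≤ Op p H := by
  exact le_sSup ⟨h1, h2, h3⟩

theorem Op_cj (p : ℕ) (g : G) (H : Subgroup G) : Op p (cj g H) = cj g (Op p H) := by
  exact op_cj_aux p g H

theorem Opp_cj (p : ℕ) (g : G) (H : Subgroup G) : Opp p (cj g H) = cj g (Opp p H) := by
  unfold Opp
  rw [cj_sSup]
  congr 1
  ext X
  constructor
  · rintro ⟨q, hq, hqp, rfl⟩
    exact ⟨Op q H, ⟨q, hq, hqp, rfl⟩, (op_cj_aux q g H).symm⟩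
  · rintro ⟨Y, ⟨q, hq, hqp, rfl⟩, rfl⟩
    exact ⟨q, hq, hqp, (op_cj_aux q g H).symm⟩

/-- a Sylow subgroup of `H` contains `Op p H` -/
theorem Op_le_syl {p : ℕ} (hp : p.Prime) {H S : Subgroup G} (hS : SylIn p H S) : Op p H ≤ S := by
  exact op_le_syl_aux hp hS

theorem Op_comm {p q : ℕ} (hp : p.Prime) (hq : q.Prime) (hpq : p ≠ q) (H : Subgroup G) :
    Op p H ≤ CG (Op q H) := by
  exact comm_of_inf_bot ((Op_le q H).trans (Op_norm p H)) ((Op_le p H).trans (Op_norm q H))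
    (isPGroup_inf_bot hp hq hpq (Op_isPGroup hp H) (Op_isPGroup hq H))

theorem Opp_le (p : ℕ) (H : Subgroup G) : Opp p H ≤ H := by
  refine sSup_le ?_
  rintro X ⟨q, hq, hqp, rfl⟩
  exact Op_le q H

theorem Opp_norm (p : ℕ) (H : Subgroup G) : H ≤ NG (Opp p H) := by
  refine le_NG_sSup ?_
  rintro X ⟨q, hq, hqp, rfl⟩
  exact Op_norm q H

theorem Op_le_Opp {p q : ℕ} (hq : q.Prime) (hpq : q ≠ p) (H : Subgroup G) :
    Op q H ≤ Opp p H := by
  exact le_sSup ⟨q, hq, hpq, rfl⟩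

theorem Opp_le_iff {p : ℕ} {H X : Subgroup G} :
    Opp p H ≤ X ↔ ∀ q : ℕ, q.Prime → q ≠ p → Op q H ≤ X := by
  constructor
  · intro h q hq hqp
    exact (Op_le_Opp hq hqp H).trans h
  · intro h
    refine sSup_le ?_
    rintro Y ⟨q, hq, hqp, rfl⟩
    exact h q hq hqp

theorem Opp_comm {p : ℕ} (hp : p.Prime) (H : Subgroup G) : Opp p H ≤ CG (Op p H) := by
  rw [Opp_le_iff]
  intro q hq hqp
  exact Op_comm hq hp hqp H

omit [Finite G] in
private theorem opp_norm_aux (H : Subgroup G) (s : Finset ℕ) :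
    H ≤ NG (s.sup (fun q => Op q H)) := by
  classical
  induction s using Finset.induction_on with
  | empty =>
    rw [Finset.sup_empty]
    intro g _
    rw [mem_NG_iff_cj, cj_bot]
  | insert q s hq ih =>
    rw [Finset.sup_insert]
    exact le_NG_sup (le_NG_sSup fun X hX => hX.2.2) ih

private theorem opp_card_aux (H : Subgroup G) (s : Finset ℕ) (hs : ∀ q ∈ s, q.Prime) :
    ∀ p : ℕ, p.Prime → p ∉ s → ¬ p ∣ Nat.card (s.sup (fun q => Op q H) : Subgroup G) := by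
  classical
  induction s using Finset.induction_on with
  | empty =>
    intro p hp _ hd
    rw [Finset.sup_empty, Subgroup.card_bot] at hd
    exact hp.one_lt.ne' (Nat.dvd_one.1 hd)
  | insert q s hq ih =>
    intro p hp hps hd
    have hqp : q.Prime := hs q (Finset.mem_insert_self q s)
    have hs' : ∀ r ∈ s, r.Prime := fun r hr => hs r (Finset.mem_insert_of_mem hr)
    have h1 := ih hs' q hqp hq
    have h2 := ih hs' p hp (fun h => hps (Finset.mem_insert_of_mem h))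
    have hpq : p ≠ q := fun h => hps (h ▸ Finset.mem_insert_self q s)
    have : Fact q.Prime := ⟨hqp⟩
    obtain ⟨k, hk⟩ := (Op_isPGroup hqp H).exists_card_eq
    rw [Finset.sup_insert, sup_comm] at hd
    have h3 : (s.sup (fun q => Op q H) : Subgroup G) ⊓ Op q H = ⊥ := by
      apply inf_eq_bot_of_coprime
      rw [hk]
      exact ((Nat.Prime.coprime_iff_not_dvd hqp).2 h1).symm.pow_right k
    rw [card_sup ((Op_le q H).trans (opp_norm_aux H s)) h3, hk] at hd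
    rcases (Nat.Prime.dvd_mul hp).1 hd with h | h
    · exact h2 h
    · exact hpq ((Nat.prime_dvd_prime_iff_eq hp hqp).1 (hp.dvd_of_dvd_pow h))

/-- `Opp p H` is a `p'`-group -/
theorem Opp_card {p : ℕ} (hp : p.Prime) (H : Subgroup G) : ¬ p ∣ Nat.card (Opp p H) := by
  classical
  let F : Finset ℕ := (Nat.card G).primeFactors.erase p
  have hF : ∀ q ∈ F, q.Prime := fun q hq =>
    Nat.prime_of_mem_primeFactors (Finset.mem_of_mem_erase hq)
  have hle : Opp p H ≤ F.sup (fun q => Op q H) := by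
    rw [Opp_le_iff]
    intro q hq hqp
    by_cases hd : q ∣ Nat.card G
    · have hm : q ∈ F := by
        rw [Finset.mem_erase]
        exact ⟨hqp, Nat.mem_primeFactors.2 ⟨hq, hd, Nat.card_pos.ne'⟩⟩
      exact Finset.le_sup (f := fun q => Op q H) hm
    · have : Fact q.Prime := ⟨hq⟩
      obtain ⟨k, hk⟩ := (Op_isPGroup hq H).exists_card_eq
      have h1 : Nat.card (Op q H) ∣ Nat.card G := Subgroup.card_subgroup_dvd_card _
      have h2 : k = 0 := by
        by_contra hk0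
        exact hd ((dvd_pow_self q hk0).trans (hk ▸ h1))
      rw [h2, pow_zero] at hk
      rw [Subgroup.card_eq_one.1 hk]
      exact bot_le
  intro hdvd
  exact opp_card_aux H F hF p hp (Finset.notMem_erase p _)
    (hdvd.trans (Subgroup.card_dvd_of_le hle))

theorem Opp_inf_syl {p : ℕ} (hp : p.Prime) {H S : Subgroup G} (hS : IsPGroup p S) :
    Opp p H ⊓ S = ⊥ := by
  have : Fact p.Prime := ⟨hp⟩
  obtain ⟨k, hk⟩ := hS.exists_card_eq
  apply inf_eq_bot_of_coprime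
  rw [hk]
  exact ((Nat.Prime.coprime_iff_not_dvd hp).2 (Opp_card hp H)).symm.pow_right k

/-- a normal `p`-subgroup `E` of `H` is centralised by `Opp p H` -/
theorem Opp_le_CG {p : ℕ} (hp : p.Prime) {H E : Subgroup G} (hE : IsPGroup p E) (hEH : E ≤ H)
    (hn : H ≤ NG E) : Opp p H ≤ CG E := by
  exact (Opp_comm hp H).trans (CG_anti (le_Op hEH hE hn))

omit [Finite G] in
private theorem center_false (hG : Hyp G) {z : G} (hz : z ≠ 1) (hc : ∀ g : G, z * g = g * z) :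
    False := by
  have := hG.simple
  rcases IsSimpleGroup.eq_bot_or_eq_top_of_normal (Subgroup.center G) inferInstance with h | h
  · apply hz
    have h1 : z ∈ Subgroup.center G := Subgroup.mem_center_iff.2 fun g => (hc g).symm
    rw [h] at h1
    exact Subgroup.mem_bot.1 h1
  · apply hG.nonab
    intro a b
    have h1 : b ∈ Subgroup.center G := by rw [h]; trivial
    exact Subgroup.mem_center_iff.1 h1 a

theorem Hyp.not_isPGroup_top (hG : Hyp G) {p : ℕ} (hp : p.Prime) {P : Subgroup G}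
    (hP : IsPGroup p P) : P ≠ ⊤ := by
  rintro rfl
  have hne : (⊤ : Subgroup G) ≠ ⊥ := by
    have := hG.simple
    exact top_ne_bot
  obtain ⟨z, _, hz, ho⟩ := exists_central hp hP hne
  refine center_false hG (z := z) (fun h => ?_) (fun g => (mem_CG.1 hz g trivial))
  rw [h, orderOf_one] at ho
  exact hp.one_lt.ne ho

/-- proper nontrivial subgroups are not normal -/
theorem Hyp.NG_ne_top (hG : Hyp G) {X : Subgroup G} (h1 : X ≠ ⊥) (h2 : X ≠ ⊤) : NG X ≠ ⊤ := by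
  intro h
  have hn : X.Normal := by
    refine ⟨fun x hx g => ?_⟩
    have hg : g ∈ NG X := by rw [h]; trivial
    exact (mem_NG.1 hg x).1 hx
  have := hG.simple
  rcases IsSimpleGroup.eq_bot_or_eq_top_of_normal X hn with h3 | h3
  · exact h1 h3
  · exact h2 h3

theorem Hyp.NG_ne_top_of_p (hG : Hyp G) {p : ℕ} (hp : p.Prime) {X : Subgroup G} (h1 : X ≠ ⊥)
    (h2 : IsPGroup p X) : NG X ≠ ⊤ := by
  exact hG.NG_ne_top h1 (hG.not_isPGroup_top hp h2)

theorem Hyp.CG_ne_top (hG : Hyp G) {X : Subgroup G} (h1 : X ≠ ⊥) : CG X ≠ ⊤ := by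
  intro h
  obtain ⟨z, hz1⟩ := X.ne_bot_iff_exists_ne_one.1 h1
  refine center_false hG (z := (z : G)) (fun h2 => hz1 (by exact_mod_cast h2)) fun g => ?_
  have hg : g ∈ CG X := by rw [h]; trivial
  exact (mem_CG.1 hg z z.2).symm

theorem Hyp.Cx_ne_top (hG : Hyp G) {x : G} (h1 : x ≠ 1) : Cx x ≠ ⊤ := by
  intro h
  refine center_false hG h1 fun g => ?_
  have hg : g ∈ Cx x := by rw [h]; trivial
  exact (mem_Cx.1 hg).symm

theorem Hyp.odd_prime (hG : Hyp G) {p : ℕ} {P : Subgroup G} (hP : IsS p P) : p ≠ 2 := by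
  rintro rfl
  have h1 := hP.dvd
  have h2 := hG.odd
  rw [← Nat.not_even_iff_odd] at h2
  exact h2 (even_iff_two_dvd.2 h1)

theorem Hyp.three_le (hG : Hyp G) {p : ℕ} {P : Subgroup G} (hP : IsS p P) : 3 ≤ p := by
  have h1 := hP.prime.two_le
  have h2 := hG.odd_prime hP
  omega

/-- the main consequence of nilpotency: `p`-subgroups of `[H, H]` lie in `Op p H`.
[`[H, H]` is nilpotent, so its Sylow `p`-subgroup is characteristic, hence normal in `H`.] -/
theorem Hyp.le_Op_of_le_comm (hG : Hyp G) {p : ℕ} (hp : p.Prime) {H X : Subgroup G} (hH : H ≠ ⊤)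
    (h1 : X ≤ ⁅H, H⁆) (h2 : IsPGroup p X) : X ≤ Op p H := by
  have hfp : Fact p.Prime := ⟨hp⟩
  obtain ⟨S, hS⟩ := SylIn.exists_syl p (⁅H, H⁆ : Subgroup G)
  have hDH : (⁅H, H⁆ : Subgroup G) ≤ H := comm_le_left_iff.2 (le_NG H)
  -- S is normal in the commutator subgroup
  have hn : (⁅H, H⁆ : Subgroup G) ≤ NG S := by
    obtain ⟨S', hS'⟩ := SylIn_iff_sylow.1 hS
    have hnil := hG.nil H hH
    have hN : (S' : Subgroup (⁅H, H⁆ : Subgroup G)).Normal :=
      ((Group.isNilpotent_of_finite_tfae (G := (⁅H, H⁆ : Subgroup G))).out 0 3 rfl rfl).1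
        hnil p hfp S'
    intro d hd
    apply mem_NG_of
    intro x hx
    rw [← hS'] at hx ⊢
    obtain ⟨y, hy, rfl⟩ := Subgroup.mem_map.1 hx
    refine Subgroup.mem_map.2 ⟨⟨d, hd⟩ * y * ⟨d, hd⟩⁻¹, hN.conj_mem y hy ⟨d, hd⟩, ?_⟩
    rfl
  have hHS : H ≤ NG S := by
    intro h hh
    have h1 : SylIn p (⁅H, H⁆ : Subgroup G) (cj h S) := by
      have h2 := hS.cj h
      rwa [cj_of_mem_NG (le_NG_comm_left H H hh)] at h2
    obtain ⟨d, hd, hd'⟩ := SylIn.conj hp hS h1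
    rw [cj_of_mem_NG (hn hd)] at hd'
    rw [mem_NG_iff_cj]
    exact hd'.symm
  exact (SylIn.le_of_normal hp hS hn h2 h1).trans (le_Op (hS.1.trans hDH) hS.2.1 hHS)

theorem Hyp.mem_Op_of_mem_comm (hG : Hyp G) {p : ℕ} (hp : p.Prime) {H : Subgroup G} (hH : H ≠ ⊤)
    {x : G} (h1 : x ∈ ⁅H, H⁆) (h2 : El p x) : x ∈ Op p H := by
  have h3 : zpowers x ≤ Op p H :=
    hG.le_Op_of_le_comm hp hH ((Subgroup.zpowers_le).2 h1) h2.isPGroup
  exact h3 (mem_zpowers x)

/-- `[A, B] ≤ Op p H` if `A` is a `p`-subgroup normalised by `B`, `A, B ≤ H` proper -/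
theorem Hyp.comm_le_Op (hG : Hyp G) {p : ℕ} (hp : p.Prime) {H A B : Subgroup G} (hH : H ≠ ⊤)
    (hA : IsPGroup p A) (hAH : A ≤ H) (hBH : B ≤ H) (hn : B ≤ NG A) : ⁅A, B⁆ ≤ Op p H := by
  have h1 : ⁅A, B⁆ ≤ A := comm_le_left_iff.2 hn
  exact hG.le_Op_of_le_comm hp hH (Subgroup.commutator_mono hAH hBH) (hA.to_le h1)

/-- `[H, H]` is generated by the `p`-parts: `[H,H] ≤ Op p H ⊔ Opp p H` -/
theorem Hyp.comm_le (hG : Hyp G) {p : ℕ} (hp : p.Prime) {H : Subgroup G} (hH : H ≠ ⊤) :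
    ⁅H, H⁆ ≤ Op p H ⊔ Opp p H := by
  apply le_of_El
  intro s hs m hm hE
  have h1 := hG.mem_Op_of_mem_comm hs hH hm hE
  by_cases hsp : s = p
  · subst hsp
    exact (le_sup_left : Op s H ≤ _) h1
  · exact (le_sup_right : Opp p H ≤ _) (Op_le_Opp hs hsp H h1)

end

end H84.LA
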