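import Pool.Agent.H84.LA.BasicC

/-! # Module BasicD: more general facts (orders of joins, actions on a group of prime order,
the classes `Sg`, `Fs`, `NCj`) -/

namespace H84.LA

open Subgroup

section
variable {G : Type*} [Group G] [Finite G]

/-- a join of subgroups normal in `H` and of order prime to `r` has order prime to `r` -/
theorem card_sSup_not_dvd {r : ℕ} (hr : r.Prime) {H : Subgroup G} {s : Set (Subgroup G)}
    (h1 : ∀ X ∈ s, X ≤ H) (h2 : ∀ X ∈ s, H ≤ NG X) (h3 : ∀ X ∈ s, ¬ r ∣ Nat.card X) :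
    ¬ r ∣ Nat.card (sSup s : Subgroup G) := by
  sorry

/-- a `p`-group normalising a group `⟨y⟩` of order `p` centralises it -/
theorem centralises_order_p {p : ℕ} (hp : p.Prime) {A : Subgroup G} {y : G} (hA : IsPGroup p A)
    (hy : orderOf y = p) (hn : A ≤ NG (zpowers y)) : A ≤ Cx y := by
  sorry

/-- a `p`-group acting nontrivially on a group `⟨y⟩` of order `q`: `p ∣ q - 1` -/
theorem dvd_sub_one_of_act {p q : ℕ} (hp : p.Prime) (hq : q.Prime) {A : Subgroup G} {y : G}
    (hA : IsPGroup p A) (hy : orderOf y = q) (hn : A ≤ NG (zpowers y)) (hc : ¬ A ≤ Cx y) :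
    p ∣ q - 1 := by
  sorry

/-- if `a z a⁻¹ ∈ ⟨z⟩`, `z` of prime order, `a`, `z ∈ H` and `a`, `z` do not commute, then
`z ∈ [H, H]` -/
theorem mem_comm_of_act {p : ℕ} (hp : p.Prime) {H : Subgroup G} {a z : G} (hz : orderOf z = p)
    (ha : a ∈ H) (hzH : z ∈ H) (hn : a * z * a⁻¹ ∈ zpowers z) (hc : a * z ≠ z * a) :
    z ∈ ⁅H, H⁆ := by
  sorry

/-- a `p`-group acting on a nontrivial `p`-group (normalising it) has a nontrivial fixed point -/
theorem exists_fixed {p : ℕ} (hp : p.Prime) {A K : Subgroup G} (hA : IsPGroup p A)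
    (hK : IsPGroup p K) (hn : A ≤ NG K) (h : K ≠ ⊥) : ∃ v ∈ K, v ≠ 1 ∧ v ∈ CG A := by
  sorry

/-- `⟨x⟩ = ⟨y⟩` for elements of the same prime order, `y ∈ ⟨x⟩` -/
theorem zpowers_eq_of_mem {p : ℕ} (hp : p.Prime) {x y : G} (hx : orderOf x = p)
    (hy : orderOf y = p) (h : y ∈ zpowers x) : zpowers x = zpowers y := by
  sorry

theorem Cx_eq_of_zpowers_eq {x y : G} (h : zpowers x = zpowers y) : Cx x = Cx y := by
  sorry

/-- in the product of two commuting elements each prime order power of `x` is a power of `x r`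
when the orders are coprime -/
theorem mem_zpowers_mul_left {x r : G} (hc : x * r = r * x)
    (h : Nat.Coprime (orderOf x) (orderOf r)) : x ∈ zpowers (x * r) ∧ r ∈ zpowers (x * r) := by
  sorry

theorem NCj.symm {M N : Subgroup G} (h : NCj M N) : NCj N M := by
  sorry

theorem NCj.cj_left {M N : Subgroup G} (h : NCj M N) (g : G) : NCj (cj g M) N := by
  sorry

theorem NCj.cj_right {M N : Subgroup G} (h : NCj M N) (g : G) : NCj M (cj g N) := by
  sorry

theorem Sg_cj {M : Subgroup G} {q : ℕ} (g : G) : Sg (cj g M) q ↔ Sg M q := by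
  sorry

theorem Fs_cj {M : Subgroup G} (g : G) : Fs (cj g M) = cj g (Fs M) := by
  sorry

theorem MaxS_cj {M : Subgroup G} (g : G) : MaxS (cj g M) ↔ MaxS M := by
  sorry

/-- `σ(M)` and `σ(N)` are disjoint when `M, N` are not conjugate -/
theorem Sg_disj {M N : Subgroup G} {q : ℕ} (h : NCj M N) (h1 : Sg M q) : ¬ Sg N q := by
  sorry

/-- if a Sylow `p`-subgroup has its normaliser not conjugate to `M` then `p ∉ σ(M)` -/
theorem not_Sg_of_NCj {M P : Subgroup G} {p : ℕ} (hP : IsS p P) (h : NCj (NG P) M) : ¬ Sg M p := by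
  sorry

theorem NCj_of_not_Sg {M P : Subgroup G} {p : ℕ} (hP : IsS p P) (h : ¬ Sg M p) :
    NCj (NG P) M := by
  sorry

theorem Fs_le (M : Subgroup G) : Fs M ≤ M := by
  sorry

theorem Fs_norm (M : Subgroup G) : M ≤ NG (Fs M) := by
  sorry

theorem le_Fs {M X : Subgroup G} {q : ℕ} (h : IsS q X) (hn : NG X = M) : X ≤ Fs M := by
  sorry

theorem MaxS.Fs_ne_bot {M : Subgroup G} (h : MaxS M) : Fs M ≠ ⊥ := by
  sorry

/-- the primes dividing `|Fs M|` are those in `σ(M)` -/
theorem Sg_iff_dvd {M : Subgroup G} {q : ℕ} (hq : q.Prime) : Sg M q ↔ q ∣ Nat.card (Fs M) := by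
  sorry

/-- `q`-elements of `M`, `q ∈ σ(M)`, lie in the normal Sylow `q`-subgroup of `M` -/
theorem mem_of_Sg {M Q : Subgroup G} {q : ℕ} (hQ : IsS q Q) (hn : NG Q = M) {y : G} (hy : y ∈ M)
    (hq : El q y) : y ∈ Q := by
  sorry

/-- a `q`-element of `Fs M` is in the Sylow `q`-subgroup of `G` normal in `M` -/
theorem Fs_El {M : Subgroup G} {q : ℕ} (hq : q.Prime) {y : G} (hy : y ∈ Fs M) (h : El q y)
    (h1 : y ≠ 1) : ∃ Q, IsS q Q ∧ NG Q = M ∧ y ∈ Q := by
  sorry

/-- an element of `M` all of whose prime divisors are in `σ(M)` is in `Fs M` -/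
theorem mem_Fs_of {M : Subgroup G} {g : G} (hg : g ∈ M)
    (h : ∀ q : ℕ, q.Prime → q ∣ orderOf g → Sg M q) : g ∈ Fs M := by
  sorry

/-- `Fs M` is a Hall subgroup of `G`: `q ∈ σ(M)` does not divide the index -/
theorem Fs_hall {M : Subgroup G} {q : ℕ} (h : Sg M q) : ¬ q ∣ (Fs M).index := by
  sorry

/-- different Sylow subgroups inside `Fs M` commute -/
theorem Fs_comm {M P Q : Subgroup G} {p q : ℕ} (hP : IsS p P) (hQ : IsS q Q) (hn : NG P = M)
    (hn' : NG Q = M) (hpq : p ≠ q) : Q ≤ CG P := by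
  sorry

/-- `Fs M ⊓ Fs N = 1` when not conjugate; orders coprime -/
theorem Fs_coprime {M N : Subgroup G} (h : NCj M N) :
    Nat.Coprime (Nat.card (Fs M)) (Nat.card (Fs N)) := by
  sorry

/-- conjugate Sylow normalisers with a common... : `IsS p P`, `Sg M p` gives a conjugate of `P`
with normaliser `M` -/
theorem Sg.exists_cj {M P : Subgroup G} {p : ℕ} (h : Sg M p) (hP : IsS p P) :
    ∃ g : G, IsS p (cj g P) ∧ NG (cj g P) = M := by
  sorry

end

end H84.LA
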