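import Pool.Agent.H84.LA.El
import Pool.Agent.H3.FT.Cop3
import Pool.Agent.H23.FT.Ptwo
import Pool.Agent.H51.FT.Kp

/-! # Module Cop: coprime action (owner helper3; C6, C7: helper23)

All statements are about subgroups of one finite group.
-/

namespace H84.LA

open Subgroup
open scoped commutatorElement

section
variable {G : Type*} [Group G] [Finite G]

/-- (C2) coprime fixed points: an `A`-invariant coset `r N` contains a fixed point.
[`A` is a `p`-group acting on the coset `r N`, whose size is prime to `p`.] -/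
theorem cop_fix {p : ℕ} (hp : p.Prime) {A R N : Subgroup G} (hA : IsPGroup p A)
    (hR : ¬ p ∣ Nat.card R) (hAR : A ≤ NG R) (hN : N ≤ R) (hRN : R ≤ NG N) (hAN : A ≤ NG N)
    {r : G} (hr : r ∈ R) (h : ∀ a ∈ A, a * r * a⁻¹ * r⁻¹ ∈ N) :
    ∃ c ∈ R ⊓ CG A, ∃ n ∈ N, r = c * n := by
  obtain ⟨c, hc, hca, d, hd, e⟩ := Pool.Agent.H3.FT.cop_fix_mem hp hA hAN
    (Pool.Agent.H3.FT.not_dvd_of_le hN hR) hN hr (fun a ha => by
      have h1 := (mem_normalizer_iff''.1 (hRN hr) _).1 (h a ha)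
      have h2 : (⁅r⁻¹, a⁆ : G) = r⁻¹ * (a * r * a⁻¹ * r⁻¹) * r := by
        rw [commutatorElement_def]; group
      rw [h2]; exact h1)
  exact ⟨c, ⟨hc, mem_centralizer_iff.2 hca⟩, d, hd, e⟩

/-- (C1a) `R = C_R(A) [R, A]` -/
theorem cop_gen {p : ℕ} (hp : p.Prime) {A R : Subgroup G} (hA : IsPGroup p A)
    (hR : ¬ p ∣ Nat.card R) (hAR : A ≤ NG R) {r : G} (hr : r ∈ R) :
    ∃ c ∈ R ⊓ CG A, ∃ k ∈ ⁅R, A⁆, r = c * k := by
  obtain ⟨c, hc, hca, d, hd, e⟩ := Pool.Agent.H3.FT.cop_mul hp hA hAR hR hr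
  exact ⟨c, ⟨hc, mem_centralizer_iff.2 hca⟩, d, hd, e⟩

/-- (C1b) `[R, A, A] = [R, A]` -/
theorem cop_comm2 {p : ℕ} (hp : p.Prime) {A R : Subgroup G} (hA : IsPGroup p A)
    (hR : ¬ p ∣ Nat.card R) (hAR : A ≤ NG R) : ⁅⁅R, A⁆, A⁆ = ⁅R, A⁆ := by
  exact Pool.Agent.H3.FT.cop_comm hp hA hAR hR

/-- (C1b') if `[R, A]` is centralised by `A` then `A` centralises `R` -/
theorem cop_comm_triv {p : ℕ} (hp : p.Prime) {A R : Subgroup G} (hA : IsPGroup p A)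
    (hR : ¬ p ∣ Nat.card R) (hAR : A ≤ NG R) (h : ⁅R, A⁆ ≤ CG A) : R ≤ CG A := by
  have h1 : ⁅⁅R, A⁆, A⁆ = ⊥ := commutator_eq_bot_iff_le_centralizer.2 h
  rw [Pool.Agent.H3.FT.cop_comm hp hA hAR hR] at h1
  exact commutator_eq_bot_iff_le_centralizer.1 h1

/-- (C1c) abelian `R`: `C_R(A)` and `[R, A]` meet trivially -/
theorem cop_abel {p : ℕ} (hp : p.Prime) {A R : Subgroup G} (hA : IsPGroup p A)
    (hR : ¬ p ∣ Nat.card R) (hAR : A ≤ NG R) (hab : Ab R) : (R ⊓ CG A) ⊓ ⁅R, A⁆ = ⊥ := by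
  have : Fact p.Prime := ⟨hp⟩
  have hcop : (Nat.card A).Coprime (Nat.card R) := by
    obtain ⟨k, hk⟩ := IsPGroup.iff_card.1 hA
    rw [hk]
    exact Nat.Coprime.pow_left k ((Nat.Prime.coprime_iff_not_dvd hp).2 hR)
  rw [eq_bot_iff]
  rintro c ⟨⟨hcR, hcA⟩, hc⟩
  rw [mem_bot]
  exact (Pool.Agent.H3.FT.ab_split hab hAR hcop).2 c hc (mem_centralizer_iff.1 hcA)

/-- (C3) an elementary abelian group `E` of order `p ^ 2` acting on a `q`-group `O`: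
`O` is generated by the `C_O(e)`, `e ∈ E#` -/
theorem cop_noncyc {p q : ℕ} (hp : p.Prime) (hq : q.Prime) (hpq : p ≠ q) {E O X : Subgroup G}
    (hE : ElAb p E) (hc : Nat.card E = p ^ 2) (hO : IsPGroup q O) (hEO : E ≤ NG O)
    (h : ∀ e ∈ E, e ≠ 1 → O ⊓ Cx e ≤ X) : O ≤ X := by
  have : Fact q.Prime := ⟨hq⟩
  have : Fact p.Prime := ⟨hp⟩
  have h1 : ∃ x ∈ E, x ≠ 1 := by
    by_contra hcon
    push Not at hcon
    have h2 : E = ⊥ := (Subgroup.eq_bot_iff_forall E).2 hcon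
    rw [h2, Subgroup.card_bot] at hc
    have := hp.one_lt
    nlinarith
  obtain ⟨x, hxE, hx1⟩ := h1
  have hxo : orderOf x = p := orderOf_eq_prime (hE.1 x hxE) hx1
  have h2 : ∃ y ∈ E, y ∉ zpowers x := by
    by_contra hcon
    push Not at hcon
    have h3 : Nat.card E ≤ Nat.card (zpowers x) := Subgroup.card_le_of_le hcon
    rw [Nat.card_zpowers, hxo, hc] at h3
    have := hp.one_lt
    nlinarith
  obtain ⟨y, hyE, hyx⟩ := h2
  refine Pool.Agent.H3.FT.gen_cent hp (hE.1 x hxE) (hE.1 y hyE) (hE.2 x hxE y hyE)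
    hO.isNilpotent (Pool.Agent.H3.FT.not_dvd_pgroup hq hp hpq.symm hO) (hEO hxE) (hEO hyE) ?_ ?_
  · intro c hc hcx
    exact h x hxE hx1 ⟨hc, mem_centralizer_singleton_iff.2 hcx⟩
  · intro i c hc hcx
    refine h (x ^ i * y) (mul_mem (pow_mem hxE i) hyE) ?_ ⟨hc, mem_centralizer_singleton_iff.2 hcx⟩
    intro h3
    apply hyx
    have h4 : y = (x ^ i)⁻¹ := by
      rw [eq_inv_iff_mul_eq_one, hE.2 y hyE _ (pow_mem hxE i)]; exact h3
    rw [h4]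
    exact inv_mem (pow_mem (mem_zpowers x) i)

/-- (C4) the A x B lemma, inner form: `x ∈ P`, `v` an `s`-element normalising the `p`-group `P`
and centralising `C_P(x)`; then `v` centralises `P` -/
theorem cop_axb {p s : ℕ} (hp : p.Prime) (hs : s.Prime) (hsp : s ≠ p) {P : Subgroup G} {x v : G}
    (hP : IsPGroup p P) (hx : x ∈ P) (hv : v ∈ NG P) (hvs : El s v)
    (hc : v ∈ CG (P ⊓ Cx x)) : v ∈ CG P := by
  obtain ⟨k, hk⟩ := hP ⟨x, hx⟩
  obtain ⟨j, hj⟩ := hvs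
  rw [mem_centralizer_iff] at hc
  have hxv : x * v = v * x := hc x ⟨hx, mem_centralizer_singleton_iff.2 rfl⟩
  rw [mem_centralizer_iff]
  refine Pool.Agent.H3.FT.axb hp hP (x := x) ⟨k, by simpa using congrArg Subtype.val hk⟩ ?_ hxv
    (Subgroup.le_normalizer hx) hv ?_
  · intro h
    exact hsp ((Nat.prime_dvd_prime_iff_eq hp hs).1
      (hp.dvd_of_dvd_pow (h.trans (orderOf_dvd_of_pow_eq_one hj)))).symm
  · intro c hcP hcx
    exact hc c ⟨hcP, mem_centralizer_singleton_iff.2 hcx⟩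

/-- (C5) `Y` a `p`-group, `p` odd, without elementary abelian subgroup of order `p ^ 2` (so
cyclic); an `s`-element normalising `Y` and centralising some element of order `p` of `Y`
centralises `Y` -/
theorem cop_cyc {p s : ℕ} (hp : p.Prime) (hp2 : p ≠ 2) (hs : s.Prime) (hsp : s ≠ p)
    {Y : Subgroup G} {y v : G} (hY : IsPGroup p Y) (h2 : ¬ Rk2 p Y) (hy : y ∈ Y)
    (hoy : orderOf y = p) (hv : v ∈ NG Y) (hvs : El s v) (hc : v * y = y * v) : v ∈ CG Y := by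
  have : Fact p.Prime := ⟨hp⟩
  have huniq : ∀ a ∈ Y, ∀ b ∈ Y, a ^ p = 1 → b ^ p = 1 → a ≠ 1 → b ∈ zpowers a := by
    intro a ha b hb hap hbp ha1
    by_cases hb1 : b = 1
    · rw [hb1]; exact one_mem _
    rw [zpowers_eq_of_not_Rk2 hp hY h2 ha hb (orderOf_eq_prime hap ha1) (orderOf_eq_prime hbp hb1)]
    exact mem_zpowers b
  have hYc : IsCyclic Y := H23.FT.isCyclic_of_unique_sub hp2 hY huniq
  obtain ⟨j, hj⟩ := hvs
  rw [mem_centralizer_iff]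
  refine Pool.Agent.H3.FT.cyc_cent hp hY hYc ?_ hv ?_
  · intro h
    exact hsp ((Nat.prime_dvd_prime_iff_eq hp hs).1
      (hp.dvd_of_dvd_pow (h.trans (orderOf_dvd_of_pow_eq_one hj)))).symm
  · intro c hcY hcp
    have hy1 : y ≠ 1 := by
      rintro rfl
      rw [orderOf_one] at hoy
      exact hp.one_lt.ne hoy
    obtain ⟨i, rfl⟩ := mem_zpowers_iff.1
      (huniq y hy c hcY (orderOf_dvd_iff_pow_eq_one.1 (dvd_of_eq hoy)) hcp hy1)
    exact ((show Commute v y from hc).zpow_right i).eq.symm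

/-- (C5') same for a whole `s`-group `A` -/
theorem cop_cyc' {p s : ℕ} (hp : p.Prime) (hp2 : p ≠ 2) (hs : s.Prime) (hsp : s ≠ p)
    {Y A : Subgroup G} {y : G} (hY : IsPGroup p Y) (h2 : ¬ Rk2 p Y) (hy : y ∈ Y)
    (hoy : orderOf y = p) (hA : IsPGroup s A) (hv : A ≤ NG Y) (hc : A ≤ Cx y) : A ≤ CG Y := by
  intro v hvA
  obtain ⟨j, hj⟩ := hA ⟨v, hvA⟩
  exact cop_cyc hp hp2 hs hsp hY h2 hy hoy (hv hvA) ⟨j, by simpa using congrArg Subtype.val hj⟩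
    (mem_centralizer_singleton_iff.1 (hc hvA))

/-- (C6) `p` odd, no elementary abelian subgroup of order `p ^ 2`: cyclic -/
theorem isCyclic_of_not_Rk2 {p : ℕ} (hp : p.Prime) (hp2 : p ≠ 2) {Y : Subgroup G}
    (hY : IsPGroup p Y) (h2 : ¬ Rk2 p Y) : ∃ y ∈ Y, Y = zpowers y := by
  have : Fact p.Prime := ⟨hp⟩
  have huniq : ∀ a ∈ Y, ∀ b ∈ Y, a ^ p = 1 → b ^ p = 1 → a ≠ 1 → b ∈ zpowers a := by
    intro a ha b hb hap hbp ha1
    by_cases hb1 : b = 1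
    · rw [hb1]; exact one_mem _
    rw [zpowers_eq_of_not_Rk2 hp hY h2 ha hb (orderOf_eq_prime hap ha1) (orderOf_eq_prime hbp hb1)]
    exact mem_zpowers b
  have hYc : IsCyclic Y := H23.FT.isCyclic_of_unique_sub hp2 hY huniq
  obtain ⟨g, hg⟩ := hYc.exists_generator
  refine ⟨g, g.2, le_antisymm ?_ (zpowers_le.2 g.2)⟩
  intro a ha
  obtain ⟨k, hk⟩ := mem_zpowers_iff.1 (hg ⟨a, ha⟩)
  exact mem_zpowers_iff.2 ⟨k, by simpa using congrArg Subtype.val hk⟩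

/-- (C7) `p` odd, `P` not cyclic: a normal elementary abelian subgroup of order `p ^ 2` -/
theorem exists_normal_elAb2 {p : ℕ} (hp : p.Prime) (hp2 : p ≠ 2) {P : Subgroup G}
    (hP : IsPGroup p P) (h2 : Rk2 p P) :
    ∃ A2 : Subgroup G, A2 ≤ P ∧ P ≤ NG A2 ∧ ElAb p A2 ∧ Nat.card A2 = p ^ 2 := by
  have : Fact p.Prime := ⟨hp⟩
  have hnc : ¬ IsCyclic P := by
    intro hcyc
    obtain ⟨B, hBP, hB, hBc⟩ := h2
    have hBcyc : IsCyclic (B.subgroupOf P) := inferInstance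
    have e : B.subgroupOf P ≃* B := subgroupOfEquivOfLe hBP
    have hBcyc' : IsCyclic B := isCyclic_of_surjective e e.surjective
    obtain ⟨g, hg⟩ := hBcyc'.exists_generator
    have h3 : orderOf g = Nat.card B := orderOf_eq_card_of_forall_mem_zpowers hg
    have h4 : g ^ p = 1 := Subtype.ext (by simpa using hB.1 g g.2)
    have h5 : orderOf g ∣ p := orderOf_dvd_of_pow_eq_one h4
    rw [h3, hBc] at h5
    have h6 := Nat.le_of_dvd hp.pos h5
    have := hp.one_lt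
    nlinarith
  obtain ⟨A, hAP, hPA, hAc, hAe, hAcm⟩ := H23.FT.exists_normal_el2_sub hp2 hP hnc
  exact ⟨A, hAP, hPA, ⟨hAe, hAcm⟩, hAc⟩

/-- centraliser of an element of the complement: `C = H E`, `H ⊓ E = 1`, `x ∈ E`, then
`C_{HE}(x) = C_H(x) C_E(x)`.
[`h e` centralises `x`: `h (e x e⁻¹) h⁻¹ = x`, so `x (e x e⁻¹)⁻¹ ∈ H ⊓ E = 1`] -/
theorem cent_of_compl {H E : Subgroup G} (hn : E ≤ NG H) (h0 : H ⊓ E = ⊥) {x h e : G} (hx : x ∈ E)
    (hh : h ∈ H) (he : e ∈ E) (hc : h * e ∈ Cx x) : h ∈ Cx x ∧ e ∈ Cx x := by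
  have hx' : e * x * e⁻¹ ∈ E := E.mul_mem (E.mul_mem he hx) (E.inv_mem he)
  rw [mem_centralizer_singleton_iff] at hc
  have h1 : h * (e * x * e⁻¹) * h⁻¹ = x := by
    rw [mul_inv_eq_iff_eq_mul]
    calc h * (e * x * e⁻¹) = (h * e * x) * e⁻¹ := by group
      _ = x * (h * e) * e⁻¹ := by rw [hc]
      _ = x * h := by group
  have h2 : h * ((e * x * e⁻¹) * h⁻¹ * (e * x * e⁻¹)⁻¹) ∈ H :=
    H.mul_mem hh ((mem_normalizer_iff.1 (hn hx') _).1 (H.inv_mem hh))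
  have h3 : h * ((e * x * e⁻¹) * h⁻¹ * (e * x * e⁻¹)⁻¹) = x * (e * x * e⁻¹)⁻¹ := by
    calc h * ((e * x * e⁻¹) * h⁻¹ * (e * x * e⁻¹)⁻¹)
        = (h * (e * x * e⁻¹) * h⁻¹) * (e * x * e⁻¹)⁻¹ := by group
      _ = x * (e * x * e⁻¹)⁻¹ := by rw [h1]
  have h4 : x * (e * x * e⁻¹)⁻¹ ∈ H ⊓ E := ⟨h3 ▸ h2, E.mul_mem hx (E.inv_mem hx')⟩
  rw [h0, mem_bot, mul_inv_eq_one] at h4
  rw [← h4] at h1
  constructor
  · rw [mem_centralizer_singleton_iff]
    rw [mul_inv_eq_iff_eq_mul] at h1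
    exact h1
  · rw [mem_centralizer_singleton_iff]
    conv_rhs => rw [h4]
    group

/-- more generally: if `h ∈ H`, `x ∈ E` and `h x h⁻¹ ∈ E` then `h` commutes with `x` -/
theorem conj_mem_compl {H E : Subgroup G} (hn : E ≤ NG H) (h0 : H ⊓ E = ⊥) {x h : G} (hx : x ∈ E)
    (hh : h ∈ H) (hc : h * x * h⁻¹ ∈ E) : h ∈ Cx x := by
  have h2 : h * (x * h⁻¹ * x⁻¹) ∈ H :=
    H.mul_mem hh ((mem_normalizer_iff.1 (hn hx) _).1 (H.inv_mem hh))
  have h3 : h * (x * h⁻¹ * x⁻¹) = h * x * h⁻¹ * x⁻¹ := by group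
  have h4 : h * x * h⁻¹ * x⁻¹ ∈ H ⊓ E := ⟨h3 ▸ h2, E.mul_mem hc (E.inv_mem hx)⟩
  rw [h0, mem_bot, mul_inv_eq_one, mul_inv_eq_iff_eq_mul] at h4
  rw [mem_centralizer_singleton_iff]
  exact h4

/-- a `q`-element of `H E` is conjugate into `E` by an element of `H`, if `q` is prime to `|H|` -/
private theorem sz_q {H E : Subgroup G} (hn : E ≤ NG H) (h0 : H ⊓ E = ⊥) {q : ℕ} (hq : q.Prime)
    (hqH : ¬ q ∣ Nat.card H) {y : G} (hy : y ∈ H ⊔ E) (hyq : El q y) :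
    ∃ h ∈ H, h * y * h⁻¹ ∈ E := by
  have : Fact q.Prime := ⟨hq⟩
  set L : Subgroup G := H ⊔ E with hL
  have hEL : E ≤ L := le_sup_right
  set Q : Subgroup L := zpowers (⟨y, hy⟩ : L) with hQ
  have hQq : IsPGroup q Q := by
    obtain ⟨k, hk⟩ := hyq
    have h1 : ((⟨y, hy⟩ : L)) ^ q ^ k = 1 := Subtype.ext (by simpa using hk)
    exact Pool.Agent.H3.FT.zpowers_pgroup h1
  have hcard : Nat.card (L ⧸ E.subgroupOf L) = Nat.card H := by
    have h1 := Subgroup.card_eq_card_quotient_mul_card_subgroup (E.subgroupOf L)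
    rw [card_sup hn h0, Nat.card_congr (subgroupOfEquivOfLe hEL).toEquiv] at h1
    exact (Nat.eq_of_mul_eq_mul_right Nat.card_pos h1).symm
  have hne : (MulAction.fixedPoints Q (L ⧸ E.subgroupOf L)).Nonempty :=
    hQq.nonempty_fixed_point_of_prime_not_dvd_card _ (by rw [hcard]; exact hqH)
  obtain ⟨c, hc⟩ := hne
  induction c using QuotientGroup.induction_on with
  | H c =>
    have h2 := hc ⟨⟨y, hy⟩, mem_zpowers _⟩
    have h3 : (QuotientGroup.mk ((⟨y, hy⟩ : L) * c) : L ⧸ E.subgroupOf L) = QuotientGroup.mk c := h2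
    have h4 := QuotientGroup.eq.1 h3.symm
    rw [mem_subgroupOf] at h4
    obtain ⟨c, hcL⟩ := c
    have h5 : c⁻¹ * (y * c) ∈ E := h4
    obtain ⟨a, ha, e, he, rfl⟩ := (mem_sup_of_NG hn).1 hcL
    refine ⟨a⁻¹, H.inv_mem ha, ?_⟩
    have h6 : e * ((a * e)⁻¹ * (y * (a * e))) * e⁻¹ ∈ E := E.mul_mem (E.mul_mem he h5) (E.inv_mem he)
    have h7 : e * ((a * e)⁻¹ * (y * (a * e))) * e⁻¹ = a⁻¹ * y * a⁻¹⁻¹ := by group
    rwa [h7] at h6

/-- (C8) Schur-Zassenhaus for one element: `H` normal in `H E`, `H ⊓ E = 1`, `g ∈ H E` of order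
prime to `|H|`: some `H`-conjugate of `g` lies in `E`.
[Induction on the number of primes dividing the order of `g`.  If `g = g_q g'`, conjugate `g_q`
into `E` (Sylow in `H ⟨g_q⟩`), then `C_{HE}(g_q) = C_H(g_q) C_E(g_q)` and use induction there.] -/
theorem sz_conj {H E : Subgroup G} (hn : E ≤ NG H) (h0 : H ⊓ E = ⊥) {g : G} (hg : g ∈ H ⊔ E)
    (hc : Nat.Coprime (orderOf g) (Nat.card H)) : ∃ h ∈ H, h * g * h⁻¹ ∈ E := by
  obtain ⟨n, hgn⟩ : ∃ n, orderOf g = n := ⟨_, rfl⟩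
  induction n using Nat.strong_induction_on generalizing H E g with
  | _ n ih =>
  by_cases hn1 : n = 1
  · refine ⟨1, H.one_mem, ?_⟩
    rw [hn1, orderOf_eq_one_iff] at hgn
    rw [hgn]
    simpa using E.one_mem
  set q := n.minFac with hqdef
  have hq : q.Prime := Nat.minFac_prime hn1
  have hqn : q ∣ n := Nat.minFac_dvd n
  have : Fact q.Prime := ⟨hq⟩
  have hqH : ¬ q ∣ Nat.card H := by
    intro h
    exact hq.one_lt.ne' (Nat.dvd_one.1 (by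
      have := Nat.dvd_gcd (hgn ▸ hqn : q ∣ orderOf g) h
      rwa [hc.gcd_eq_one] at this))
  obtain ⟨y, z, hyz, hy, hz, ⟨k, hk⟩, hzq⟩ := H51.FT.exists_decomp q g
  have hsub : zpowers g ≤ H ⊔ E := zpowers_le.2 hg
  have hcomm : y * z = z * y := by
    obtain ⟨i, rfl⟩ := mem_zpowers_iff.1 hy
    obtain ⟨j, rfl⟩ := mem_zpowers_iff.1 hz
    exact (Commute.refl g).zpow_zpow i j
  obtain ⟨h1, hh1, hy1⟩ := sz_q hn h0 hq hqH (hsub hy) ⟨k, hk⟩
  set y' := h1 * y * h1⁻¹ with hy'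
  set z' := h1 * z * h1⁻¹ with hz'
  have hyz' : y' * z' = z' * y' := by
    rw [hy', hz']
    calc h1 * y * h1⁻¹ * (h1 * z * h1⁻¹) = h1 * (y * z) * h1⁻¹ := by group
      _ = h1 * (z * y) * h1⁻¹ := by rw [hcomm]
      _ = h1 * z * h1⁻¹ * (h1 * y * h1⁻¹) := by group
  have hh1' : h1 ∈ H ⊔ E := (le_sup_left : H ≤ H ⊔ E) hh1
  have hz'L : z' ∈ H ⊔ E :=
    (H ⊔ E).mul_mem ((H ⊔ E).mul_mem hh1' (hsub hz)) ((H ⊔ E).inv_mem hh1')
  have hz'C : z' ∈ Cx y' := mem_centralizer_singleton_iff.2 hyz'.symm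
  have hn' : E ⊓ Cx y' ≤ NG (H ⊓ Cx y') := by
    intro e he
    refine mem_NG_of ?_
    intro x hx
    exact ⟨(mem_normalizer_iff.1 (hn he.1) x).1 hx.1,
      (Cx y').mul_mem ((Cx y').mul_mem he.2 hx.2) ((Cx y').inv_mem he.2)⟩
  have h0' : (H ⊓ Cx y') ⊓ (E ⊓ Cx y') = ⊥ := by
    rw [eq_bot_iff, ← h0]
    exact inf_le_inf inf_le_left inf_le_left
  have hz'S : z' ∈ (H ⊓ Cx y') ⊔ (E ⊓ Cx y') := by
    obtain ⟨a, ha, e, he, hae⟩ := (mem_sup_of_NG hn).1 hz'L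
    rw [hae] at hz'C
    obtain ⟨h5, h6⟩ := cent_of_compl hn h0 hy1 ha he hz'C
    rw [hae]
    exact Subgroup.mul_mem _ ((le_sup_left : _ ≤ (H ⊓ Cx y') ⊔ (E ⊓ Cx y')) ⟨ha, h5⟩)
      ((le_sup_right : _ ≤ (H ⊓ Cx y') ⊔ (E ⊓ Cx y')) ⟨he, h6⟩)
  have hoz : orderOf z' = orderOf z := by
    have h5 : z' = MulAut.conj h1 z := rfl
    rw [h5]
    exact orderOf_injective (MulAut.conj h1).toMonoidHom (MulAut.conj h1).injective z
  have hzdvd : orderOf z ∣ n := hgn ▸ orderOf_dvd_of_mem_zpowers hz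
  have hnpos : 0 < n := hgn ▸ orderOf_pos g
  have hlt : orderOf z < n := by
    refine lt_of_le_of_ne (Nat.le_of_dvd hnpos hzdvd) ?_
    intro h5
    rw [h5] at hzq
    exact (Nat.Prime.coprime_iff_not_dvd hq).1 hzq.symm hqn
  have hcz : Nat.Coprime (orderOf z') (Nat.card (H ⊓ Cx y' : Subgroup G)) := by
    rw [hoz]
    exact Nat.Coprime.coprime_dvd_left (hgn ▸ hzdvd)
      (Nat.Coprime.coprime_dvd_right (Subgroup.card_dvd_of_le inf_le_left) hc)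
  obtain ⟨h2, hh2, hz2⟩ := ih (orderOf z') (hoz ▸ hlt) hn' h0' hz'S hcz rfl
  refine ⟨h2 * h1, H.mul_mem hh2.1 hh1, ?_⟩
  have h8 : h2 * y' = y' * h2 := mem_centralizer_singleton_iff.1 hh2.2
  have h7 : h2 * h1 * g * (h2 * h1)⁻¹ = y' * (h2 * z' * h2⁻¹) := by
    calc h2 * h1 * g * (h2 * h1)⁻¹ = (h2 * y') * z' * h2⁻¹ := by rw [hyz, hy', hz']; group
      _ = (y' * h2) * z' * h2⁻¹ := by rw [h8]
      _ = y' * (h2 * z' * h2⁻¹) := by group
  rw [h7]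
  exact E.mul_mem hy1 hz2.1

/-- uniqueness of the `π`-part: `a b = a' b'`, both pairs commute, the orders of `a, a'` are prime
to the orders of `b, b'` -/
theorem part_unique {a b a' b' : G} (h : a * b = a' * b') (hc : a * b = b * a)
    (hc' : a' * b' = b' * a') (h1 : Nat.Coprime (orderOf a) (orderOf b))
    (h2 : Nat.Coprime (orderOf a) (orderOf b')) (h3 : Nat.Coprime (orderOf a') (orderOf b))
    (h4 : Nat.Coprime (orderOf a') (orderOf b')) : a = a' ∧ b = b' := by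
  have hpos := fun c : G => orderOf_pos c
  set M := orderOf a * orderOf a' with hM
  set N := orderOf b * orderOf b' with hN
  have hcop : Nat.Coprime M N :=
    Nat.Coprime.mul_left (Nat.Coprime.mul_right h1 h2) (Nat.Coprime.mul_right h3 h4)
  obtain ⟨k, hk1, hk2⟩ := Nat.chineseRemainder hcop 1 0
  have ha : ∀ c : G, orderOf c ∣ M → c ^ k = c := by
    intro c hcM
    have h5 : k ≡ 1 [MOD orderOf c] := hk1.of_dvd hcM
    have h6 := pow_eq_pow_iff_modEq.2 h5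
    rw [h6, pow_one]
  have hb : ∀ c : G, orderOf c ∣ N → c ^ k = 1 := by
    intro c hcN
    have h5 : k ≡ 0 [MOD orderOf c] := hk2.of_dvd hcN
    have h6 := pow_eq_pow_iff_modEq.2 h5
    rw [h6, pow_zero]
  have h5 : (a * b) ^ k = a := by
    rw [(show Commute a b from hc).mul_pow, ha a (Dvd.intro _ rfl), hb b (Dvd.intro _ rfl), mul_one]
  have h6 : (a' * b') ^ k = a' := by
    rw [(show Commute a' b' from hc').mul_pow, ha a' (Dvd.intro_left _ rfl),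
      hb b' (Dvd.intro_left _ rfl), mul_one]
  have h7 : a = a' := by rw [← h5, ← h6, h]
  refine ⟨h7, ?_⟩
  rw [h7] at h
  exact mul_left_cancel h

end

end H84.LA
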