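import Mathlib

/-!
# Local analysis of a minimal simple group of odd order all of whose proper subgroups
  have a nilpotent commutator subgroup: definitions and conventions.

Paper: h12_ft_local.md (helper12).  Everything is about subgroups of one finite group `G`.

* `NG P` normaliser, `CG P` centraliser of a subgroup, `Cx x` centraliser of an element.
* `cj g P` is the conjugate `g P g⁻¹`.
* `SylIn p H S`: `S` is a Sylow `p`-subgroup of `H` (maximality definition).
* `IsS p P`: `p` is prime, `p ∣ |G|` and `P` is a Sylow `p`-subgroup of `G`.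
* `Op p H` is the largest normal `p`-subgroup of `H`; `Opp p H` is the join of all `Op q H`,
  `q ≠ p` prime.
* `Inv A q K`: `K` is an `A`-invariant `q`-subgroup; `MInv A q K`: maximal such.
* `El p x`: `x` is a `p`-element.
-/

namespace H84.LA

open Subgroup

section
variable {G : Type*} [Group G]

/-- normaliser of a subgroup -/
abbrev NG (P : Subgroup G) : Subgroup G := Subgroup.normalizer (P : Set G)

/-- centraliser of a subgroup -/
abbrev CG (P : Subgroup G) : Subgroup G := Subgroup.centralizer (P : Set G)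

/-- centraliser of an element -/
abbrev Cx (x : G) : Subgroup G := Subgroup.centralizer ({x} : Set G)

/-- the conjugate `g P g⁻¹` -/
def cj (g : G) (P : Subgroup G) : Subgroup G := P.map (MulAut.conj g).toMonoidHom

/-- `S` is a Sylow `p`-subgroup of `H` -/
def SylIn (p : ℕ) (H S : Subgroup G) : Prop :=
  S ≤ H ∧ IsPGroup p S ∧ ∀ T : Subgroup G, T ≤ H → IsPGroup p T → S ≤ T → T = S

/-- `p` is a prime divisor of `|G|` and `P` is a Sylow `p`-subgroup of `G` -/
structure IsS (p : ℕ) (P : Subgroup G) : Prop where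
  prime : p.Prime
  dvd : p ∣ Nat.card G
  syl : SylIn p ⊤ P

/-- largest normal `p`-subgroup of `H` -/
def Op (p : ℕ) (H : Subgroup G) : Subgroup G :=
  sSup {X | X ≤ H ∧ IsPGroup p X ∧ H ≤ NG X}

/-- join of the `Op q H`, `q ≠ p` -/
def Opp (p : ℕ) (H : Subgroup G) : Subgroup G :=
  sSup {X | ∃ q : ℕ, q.Prime ∧ q ≠ p ∧ X = Op q H}

/-- `K` is an `A`-invariant `q`-subgroup -/
def Inv (A : Subgroup G) (q : ℕ) (K : Subgroup G) : Prop := IsPGroup q K ∧ A ≤ NG K

/-- `K` is a maximal `A`-invariant `q`-subgroup -/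
def MInv (A : Subgroup G) (q : ℕ) (K : Subgroup G) : Prop :=
  Inv A q K ∧ ∀ K' : Subgroup G, Inv A q K' → K ≤ K' → K' = K

/-- abelian -/
def Ab (A : Subgroup G) : Prop := ∀ a ∈ A, ∀ b ∈ A, a * b = b * a

/-- elementary abelian `p`-group -/
def ElAb (p : ℕ) (B : Subgroup G) : Prop := (∀ b ∈ B, b ^ p = 1) ∧ Ab B

/-- contains an elementary abelian subgroup of order `p ^ 2` -/
def Rk2 (p : ℕ) (A : Subgroup G) : Prop :=
  ∃ B : Subgroup G, B ≤ A ∧ ElAb p B ∧ Nat.card B = p ^ 2

/-- contains an elementary abelian subgroup of order `p ^ 3` -/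
def Rk3 (p : ℕ) (A : Subgroup G) : Prop :=
  ∃ B : Subgroup G, B ≤ A ∧ ElAb p B ∧ Nat.card B = p ^ 3

/-- abelian of rank at most 2 -/
def Small (p : ℕ) (A : Subgroup G) : Prop := Ab A ∧ ¬ Rk3 p A

/-- `A / A1` is cyclic -/
def CycQ (A A1 : Subgroup G) : Prop := ∃ a ∈ A, ∀ b ∈ A, ∃ k : ℕ, b * (a ^ k)⁻¹ ∈ A1

/-- any two normal subgroups with cyclic quotient meet nontrivially -/
def Thick (A : Subgroup G) : Prop :=
  ∀ A1 A2 : Subgroup G, A1 ≤ A → A2 ≤ A → A ≤ NG A1 → A ≤ NG A2 → CycQ A A1 → CycQ A A2 →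
    A1 ⊓ A2 ≠ ⊥

/-- `x` is a `p`-element -/
def El (p : ℕ) (x : G) : Prop := ∃ k : ℕ, x ^ p ^ k = 1

/-- `x` is good for `P` -/
def Good (P : Subgroup G) (x : G) : Prop := Cx x ≤ NG P

/-- `x` is a bad element of order `p` of the Sylow `p`-subgroup `P` -/
structure Bad (p : ℕ) (P : Subgroup G) (x : G) : Prop where
  isS : IsS p P
  mem : x ∈ P
  ord : orderOf x = p
  bad : ¬ Good P x

/-- `P` acts nontrivially on the Sylow subgroup `Q` -/
structure Arr (p q : ℕ) (P Q : Subgroup G) : Prop where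
  isP : IsS p P
  isQ : IsS q Q
  ne : p ≠ q
  le : P ≤ NG Q
  nc : ¬ Q ≤ CG P

/-- the set of primes `π_x` -/
def PiX (P : Subgroup G) (x : G) (q : ℕ) : Prop := q.Prime ∧ ¬ Op q (Cx x) ≤ NG P

/-- the group `H(x)` -/
def Hx (P : Subgroup G) (x : G) : Subgroup G :=
  sSup {X | ∃ q : ℕ, PiX P x q ∧ X = Op q (Cx x)}

/-- `q ∈ σ(M)` -/
def Sg (M : Subgroup G) (q : ℕ) : Prop := ∃ Q : Subgroup G, IsS q Q ∧ NG Q = M

/-- `M` is the normaliser of a Sylow subgroup -/
def MaxS (M : Subgroup G) : Prop := ∃ q, Sg M q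

/-- the group `F_M`, product of the Sylow subgroups of `G` normal in `M` -/
def Fs (M : Subgroup G) : Subgroup G :=
  sSup {X | ∃ q : ℕ, IsS q X ∧ NG X = M}

/-- not conjugate -/
def NCj (M N : Subgroup G) : Prop := ∀ g : G, cj g M ≠ N

end

/-- The hypothesis: nonabelian simple, odd order, every proper subgroup has a nilpotent
commutator subgroup. -/
structure Hyp (G : Type*) [Group G] : Prop where
  simple : IsSimpleGroup G
  nonab : ¬ ∀ a b : G, a * b = b * a
  odd : Odd (Nat.card G)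
  nil : ∀ H : Subgroup G, H ≠ ⊤ → Group.IsNilpotent (⁅H, H⁆ : Subgroup G)

end H84.LA
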