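import Pool.Agent.H84.LA.BasicC

/-! # Module El: elementary abelian subgroups of order `p ^ 2`, `p ^ 3` -/

namespace H84.LA

open Subgroup

section
variable {G : Type*} [Group G] [Finite G]

theorem ElAb.isPGroup {p : ℕ} {B : Subgroup G} (h : ElAb p B) : IsPGroup p B := by
  rw [isPGroup_iff_pow_pow_eq_one]
  intro g
  refine ⟨1, ?_⟩
  apply Subtype.ext
  rw [pow_one]
  exact h.1 g g.2

theorem ElAb.orderOf {p : ℕ} (hp : p.Prime) {B : Subgroup G} (h : ElAb p B) {b : G} (hb : b ∈ B)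
    (h1 : b ≠ 1) : _root_.orderOf b = p := by
  have : Fact p.Prime := ⟨hp⟩
  exact orderOf_eq_prime (h.1 b hb) h1

theorem ElAb.mono {p : ℕ} {B C : Subgroup G} (h : ElAb p B) (hC : C ≤ B) : ElAb p C := by
  exact ⟨fun b hb => h.1 b (hC hb), fun a ha b hb => h.2 a (hC ha) b (hC hb)⟩

theorem ElAb.cj {p : ℕ} {B : Subgroup G} (h : ElAb p B) (g : G) : ElAb p (cj g B) := by
  have key : ∀ x ∈ H84.LA.cj g B, ∃ c ∈ B, x = g * c * g⁻¹ := by
    intro x hx
    exact ⟨g⁻¹ * x * g, mem_cj.1 hx, by group⟩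
  constructor
  · intro x hx
    obtain ⟨c, hc, rfl⟩ := key x hx
    rw [conj_pow, h.1 c hc]
    group
  · intro x hx y hy
    obtain ⟨c, hc, rfl⟩ := key x hx
    obtain ⟨d, hd, rfl⟩ := key y hy
    have := h.2 c hc d hd
    calc g * c * g⁻¹ * (g * d * g⁻¹) = g * (c * d) * g⁻¹ := by group
      _ = g * (d * c) * g⁻¹ := by rw [this]
      _ = _ := by group

/-- the join of two commuting elementary abelian groups -/
theorem ElAb.sup {p : ℕ} {B C : Subgroup G} (h : ElAb p B) (h' : ElAb p C) (hc : B ≤ CG C) :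
    ElAb p (B ⊔ C) := by
  have hcc : C ≤ NG B := (le_CG_comm.1 hc).trans (CG_le_NG B)
  constructor
  · intro x hx
    obtain ⟨b, hb, c, hc', rfl⟩ := (mem_sup_of_NG hcc).1 hx
    have hco : Commute b c := mem_CG.1 (hc hb) c hc'
    rw [hco.mul_pow, h.1 b hb, h'.1 c hc', one_mul]
  · intro x hx y hy
    obtain ⟨b, hb, c, hc', rfl⟩ := (mem_sup_of_NG hcc).1 hx
    obtain ⟨b', hb', c', hc'', rfl⟩ := (mem_sup_of_NG hcc).1 hy
    have e1 := h.2 b hb b' hb'
    have e2 := h'.2 c hc' c' hc''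
    have e3 := mem_CG.1 (hc hb) c' hc''
    have e4 := mem_CG.1 (hc hb') c hc'
    calc b * c * (b' * c') = b * (c * b') * c' := by group
      _ = b * (b' * c) * c' := by rw [e4]
      _ = (b * b') * (c * c') := by group
      _ = (b' * b) * (c' * c) := by rw [e1, e2]
      _ = b' * (b * c') * c := by group
      _ = b' * (c' * b) * c := by rw [e3]
      _ = _ := by group

theorem elAb_zpowers {p : ℕ} {x : G} (hx : _root_.orderOf x = p) : ElAb p (zpowers x) := by
  constructor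
  · intro b hb
    obtain ⟨k, rfl⟩ := mem_zpowers_iff.1 hb
    rw [← zpow_natCast, zpow_comm, zpow_natCast, ← hx, pow_orderOf_eq_one, one_zpow]
  · intro a ha b hb
    obtain ⟨k, rfl⟩ := mem_zpowers_iff.1 ha
    obtain ⟨l, rfl⟩ := mem_zpowers_iff.1 hb
    rw [← zpow_add, ← zpow_add, add_comm]

/-- a group of prime order meets `B` trivially if its generator is not in `B` -/
private theorem inf_zpowers_bot {p : ℕ} (hp : p.Prime) {B : Subgroup G} {y : G}
    (hy : _root_.orderOf y = p) (hn : y ∉ B) : B ⊓ zpowers y = ⊥ := by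
  have h1 : Nat.card (B ⊓ zpowers y : Subgroup G) ∣ p := by
    rw [← hy, ← Nat.card_zpowers]
    exact Subgroup.card_dvd_of_le inf_le_right
  rcases (Nat.dvd_prime hp).1 h1 with h | h
  · exact Subgroup.card_eq_one.1 h
  · exfalso
    apply hn
    have h2 : B ⊓ zpowers y = zpowers y := by
      apply Subgroup.eq_of_le_of_card_ge inf_le_right
      rw [h, Nat.card_zpowers, hy]
    have h3 : y ∈ B ⊓ zpowers y := by rw [h2]; exact mem_zpowers y
    exact (Subgroup.mem_inf.1 h3).1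

/-- two elements of order `p`, one a power of the other -/
private theorem zpowers_eq_aux {p : ℕ} {x z : G} (hx : _root_.orderOf x = p)
    (hz : _root_.orderOf z = p) (h : x ∈ zpowers z) : zpowers x = zpowers z := by
  apply Subgroup.eq_of_le_of_card_ge ((Subgroup.zpowers_le).2 h)
  rw [Nat.card_zpowers, Nat.card_zpowers, hx, hz]

private theorem card_add_aux {p : ℕ} (hp : p.Prime) {B : Subgroup G} (hB : ElAb p B) {y : G}
    (hy : _root_.orderOf y = p) (hc : y ∈ CG B) (hn : y ∉ B) :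
    ElAb p (B ⊔ zpowers y) ∧ Nat.card (B ⊔ zpowers y : Subgroup G) = Nat.card B * p := by
  have h1 : zpowers y ≤ CG B := (Subgroup.zpowers_le).2 hc
  refine ⟨hB.sup (elAb_zpowers hy) (le_CG_comm.1 h1), ?_⟩
  rw [card_sup (h1.trans (CG_le_NG B)) (inf_zpowers_bot hp hy hn), Nat.card_zpowers, hy]

/-- two commuting elements of order `p`, independent -/
theorem card_two {p : ℕ} (hp : p.Prime) {x y : G} (hx : _root_.orderOf x = p)
    (hy : _root_.orderOf y = p) (hc : x * y = y * x) (hn : y ∉ zpowers x) :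
    ElAb p (zpowers x ⊔ zpowers y) ∧ Nat.card (zpowers x ⊔ zpowers y : Subgroup G) = p ^ 2 := by
  have h1 := card_add_aux hp (elAb_zpowers hx) hy (mem_CG_zpowers.2 (mem_Cx.2 hc.symm)) hn
  refine ⟨h1.1, ?_⟩
  rw [h1.2, Nat.card_zpowers, hx]
  ring

/-- adding an element of order `p` commuting with `B` and outside `B` -/
theorem card_add {p : ℕ} (hp : p.Prime) {B : Subgroup G} (hB : ElAb p B) {y : G}
    (hy : _root_.orderOf y = p) (hc : y ∈ CG B) (hn : y ∉ B) :
    ElAb p (B ⊔ zpowers y) ∧ Nat.card (B ⊔ zpowers y : Subgroup G) = Nat.card B * p := by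
  exact card_add_aux hp hB hy hc hn

/-- an elementary abelian group of order at least `p ^ k` has a subgroup of order `p ^ k`
containing a given subgroup of smaller order -/
theorem ElAb.exists_between {p : ℕ} (hp : p.Prime) {B C : Subgroup G} (h : ElAb p B) {k : ℕ}
    (hC : C ≤ B) (hk : Nat.card C ≤ p ^ k) (hk' : p ^ k ≤ Nat.card B) :
    ∃ D : Subgroup G, C ≤ D ∧ D ≤ B ∧ Nat.card D = p ^ k := by
  have : Fact p.Prime := ⟨hp⟩
  obtain ⟨b, hb⟩ := h.isPGroup.exists_card_eq
  have hCp : IsPGroup p C := (h.mono hC).isPGroup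
  obtain ⟨c, hc⟩ := hCp.exists_card_eq
  rw [hc] at hk
  rw [hb] at hk'
  have hck : c ≤ k := (Nat.pow_le_pow_iff_right hp.one_lt).1 hk
  have hkb : k ≤ b := (Nat.pow_le_pow_iff_right hp.one_lt).1 hk'
  have h1 : p ^ k ∣ Nat.card B := by rw [hb]; exact pow_dvd_pow p hkb
  have h2 : Nat.card (C.subgroupOf B) = p ^ c := by
    rw [← hc]
    exact Nat.card_congr (Subgroup.subgroupOfEquivOfLe hC).toEquiv
  obtain ⟨K, hK1, hK2⟩ := Sylow.exists_subgroup_card_pow_prime_le p h1 (C.subgroupOf B) h2 hck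
  refine ⟨K.map B.subtype, ?_, Subgroup.map_subtype_le K, ?_⟩
  · intro x hx
    exact Subgroup.mem_map.2 ⟨⟨x, hC hx⟩, hK2 (Subgroup.mem_subgroupOf.2 hx), rfl⟩
  · rw [← hK1]
    exact Subgroup.card_map_of_injective B.subtype_injective

/-- order of an elementary abelian group -/
theorem ElAb.card {p : ℕ} (hp : p.Prime) {B : Subgroup G} (h : ElAb p B) :
    ∃ k : ℕ, Nat.card B = p ^ k := by
  have : Fact p.Prime := ⟨hp⟩
  exact h.isPGroup.exists_card_eq

theorem Rk3.rk2 {p : ℕ} (hp : p.Prime) {A : Subgroup G} (h : Rk3 p A) : Rk2 p A := by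
  obtain ⟨B, hB1, hB2, hB3⟩ := h
  obtain ⟨D, _, hD1, hD2⟩ := hB2.exists_between hp (k := 2) bot_le
    (by rw [Subgroup.card_bot]; exact Nat.one_le_pow _ _ hp.pos)
    (by rw [hB3]; exact Nat.pow_le_pow_right hp.pos (by norm_num))
  exact ⟨D, hD1.trans hB1, hB2.mono hD1, hD2⟩

theorem Rk2.mono {p : ℕ} {A B : Subgroup G} (h : Rk2 p A) (hAB : A ≤ B) : Rk2 p B := by
  obtain ⟨C, h1, h2, h3⟩ := h
  exact ⟨C, h1.trans hAB, h2, h3⟩

theorem Rk3.mono {p : ℕ} {A B : Subgroup G} (h : Rk3 p A) (hAB : A ≤ B) : Rk3 p B := by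
  obtain ⟨C, h1, h2, h3⟩ := h
  exact ⟨C, h1.trans hAB, h2, h3⟩

theorem Rk2_cj {p : ℕ} {A : Subgroup G} (g : G) : Rk2 p (H84.LA.cj g A) ↔ Rk2 p A := by
  have key : ∀ (g : G) (A : Subgroup G), Rk2 p A → Rk2 p (H84.LA.cj g A) := by
    rintro g A ⟨B, h1, h2, h3⟩
    exact ⟨H84.LA.cj g B, cj_le_cj.2 h1, h2.cj g, by rw [card_cj, h3]⟩
  constructor
  · intro h
    have := key g⁻¹ _ h
    rwa [cj_inv_cj] at this
  · exact key g A

theorem Rk3_cj {p : ℕ} {A : Subgroup G} (g : G) : Rk3 p (H84.LA.cj g A) ↔ Rk3 p A := by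
  have key : ∀ (g : G) (A : Subgroup G), Rk3 p A → Rk3 p (H84.LA.cj g A) := by
    rintro g A ⟨B, h1, h2, h3⟩
    exact ⟨H84.LA.cj g B, cj_le_cj.2 h1, h2.cj g, by rw [card_cj, h3]⟩
  constructor
  · intro h
    have := key g⁻¹ _ h
    rwa [cj_inv_cj] at this
  · exact key g A

theorem Small_cj {p : ℕ} {A : Subgroup G} (g : G) : Small p (H84.LA.cj g A) ↔ Small p A := by
  have key : ∀ (g : G) (A : Subgroup G), Ab A → Ab (H84.LA.cj g A) := by
    intro g A h x hx y hy
    have := h _ (mem_cj.1 hx) _ (mem_cj.1 hy)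
    calc x * y = g * ((g⁻¹ * x * g) * (g⁻¹ * y * g)) * g⁻¹ := by group
      _ = g * ((g⁻¹ * y * g) * (g⁻¹ * x * g)) * g⁻¹ := by rw [this]
      _ = _ := by group
  have hAb : Ab (H84.LA.cj g A) ↔ Ab A := by
    constructor
    · intro h
      have := key g⁻¹ _ h
      rwa [cj_inv_cj] at this
    · exact key g A
  unfold Small
  rw [hAb, Rk3_cj]

/-- an elementary abelian `C ≤ A` of order `≥ p ^ 3` gives `Rk3` -/
theorem Rk3.of_card {p : ℕ} (hp : p.Prime) {A C : Subgroup G} (hCA : C ≤ A) (hC : ElAb p C)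
    (h : p ^ 2 < Nat.card C) : Rk3 p A := by
  obtain ⟨k, hk⟩ := hC.card hp
  rw [hk] at h
  have h1 : 2 < k := (Nat.pow_lt_pow_iff_right hp.one_lt).1 h
  obtain ⟨D, _, hD1, hD2⟩ := hC.exists_between hp (k := 3) bot_le
    (by rw [Subgroup.card_bot]; exact Nat.one_le_pow _ _ hp.pos)
    (by rw [hk]; exact Nat.pow_le_pow_right hp.pos h1)
  exact ⟨D, hD1.trans hCA, hC.mono hD1, hD2⟩

theorem Rk2.of_card {p : ℕ} (hp : p.Prime) {A C : Subgroup G} (hCA : C ≤ A) (hC : ElAb p C)
    (h : p < Nat.card C) : Rk2 p A := by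
  obtain ⟨k, hk⟩ := hC.card hp
  rw [hk] at h
  have h1 : 1 < k := (Nat.pow_lt_pow_iff_right hp.one_lt).1 (by rwa [pow_one])
  obtain ⟨D, _, hD1, hD2⟩ := hC.exists_between hp (k := 2) bot_le
    (by rw [Subgroup.card_bot]; exact Nat.one_le_pow _ _ hp.pos)
    (by rw [hk]; exact Nat.pow_le_pow_right hp.pos h1)
  exact ⟨D, hD1.trans hCA, hC.mono hD1, hD2⟩

/-- `¬ Rk2`: any two elements of order `p` generate the same subgroup
[both are in the subgroup generated by a central element of order `p`] -/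
theorem zpowers_eq_of_not_Rk2 {p : ℕ} (hp : p.Prime) {A : Subgroup G} (hA : IsPGroup p A)
    (h : ¬ Rk2 p A) {x y : G} (hx : x ∈ A) (hy : y ∈ A) (hox : _root_.orderOf x = p)
    (hoy : _root_.orderOf y = p) : zpowers x = zpowers y := by
  have hne : A ≠ ⊥ := by
    rintro rfl
    rw [Subgroup.mem_bot.1 hx, orderOf_one] at hox
    exact hp.one_lt.ne hox
  obtain ⟨z, hz, hzc, hoz⟩ := exists_central hp hA hne
  have key : ∀ w ∈ A, _root_.orderOf w = p → zpowers w = zpowers z := by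
    intro w hw how
    apply zpowers_eq_aux how hoz
    by_contra hn
    have h1 := card_two hp hoz how (mem_CG.1 hzc w hw) hn
    exact h ⟨zpowers z ⊔ zpowers w, sup_le ((Subgroup.zpowers_le).2 hz)
      ((Subgroup.zpowers_le).2 hw), h1.1, h1.2⟩
  rw [key x hx hox, key y hy hoy]

/-- if `x, z ∈ R` are central in `R`, independent, of order `p`, and `R` has no elementary abelian
subgroup of order `p ^ 3`, then every element `u ∈ R` of order `p` lies in `⟨x⟩⟨z⟩` -/
theorem mem_sup_of_not_Rk3 {p : ℕ} (hp : p.Prime) {R : Subgroup G} (h : ¬ Rk3 p R) {x z u : G}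
    (hx : x ∈ R) (hz : z ∈ R) (hu : u ∈ R) (hcx : x ∈ CG R) (hcz : z ∈ CG R)
    (hox : _root_.orderOf x = p) (hoz : _root_.orderOf z = p) (hou : _root_.orderOf u = p)
    (hn : z ∉ zpowers x) : u ∈ zpowers x ⊔ zpowers z := by
  by_contra hcon
  have h1 := card_two hp hox hoz (mem_CG.1 hcx z hz) hn
  have h2 : zpowers x ⊔ zpowers z ≤ CG R :=
    sup_le ((Subgroup.zpowers_le).2 hcx) ((Subgroup.zpowers_le).2 hcz)
  have h3 : u ∈ CG (zpowers x ⊔ zpowers z) := (le_CG_comm.1 h2) hu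
  have h4 := card_add hp h1.1 hou h3 hcon
  refine h ⟨_, sup_le (sup_le ((Subgroup.zpowers_le).2 hx) ((Subgroup.zpowers_le).2 hz))
      ((Subgroup.zpowers_le).2 hu), h4.1, ?_⟩
  rw [h4.2, h1.2]
  ring

/-- in `⟨x⟩⟨z⟩` of order `p ^ 2`: if `a ∉ ⟨x⟩` then `z ∈ ⟨a⟩⟨x⟩` -/
theorem mem_sup_exchange {p : ℕ} (hp : p.Prime) {x z a : G} (hc : x * z = z * x)
    (hox : _root_.orderOf x = p) (hoz : _root_.orderOf z = p)
    (ha : a ∈ zpowers x ⊔ zpowers z) (hn : a ∉ zpowers x) : z ∈ zpowers a ⊔ zpowers x := by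
  have hzx : zpowers z ≤ NG (zpowers x) := by
    refine le_trans ?_ (CG_le_NG _)
    rw [Subgroup.zpowers_le, mem_CG_zpowers, mem_Cx]
    exact hc.symm
  obtain ⟨u, hu, v, hv, rfl⟩ := (mem_sup_of_NG hzx).1 ha
  have hv1 : v ≠ 1 := by
    rintro rfl
    rw [mul_one] at hn
    exact hn hu
  have hov : _root_.orderOf v = p := (elAb_zpowers hoz).orderOf hp hv hv1
  have h1 : u⁻¹ * (u * v) ∈ zpowers (u * v) ⊔ zpowers x :=
    mul_mem (inv_mem ((le_sup_right : zpowers x ≤ zpowers (u * v) ⊔ zpowers x) hu))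
      ((le_sup_left : zpowers (u * v) ≤ zpowers (u * v) ⊔ zpowers x) (mem_zpowers _))
  rw [inv_mul_cancel_left] at h1
  have h3 := zpowers_eq_aux hov hoz hv
  have h4 : z ∈ zpowers v := by rw [h3]; exact mem_zpowers z
  exact (Subgroup.zpowers_le).2 h1 h4

/-- the conjugation action of a subgroup of the normaliser -/
@[reducible] private def actNG {A2 B : Subgroup G} (hn : B ≤ NG A2) : MulAction B A2 where
  smul b a := ⟨(b : G) * a * (b : G)⁻¹, (mem_NG.1 (hn b.2) a).1 a.2⟩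
  one_smul a := Subtype.ext (by
    change (1 : G) * a * (1 : G)⁻¹ = a
    rw [one_mul, inv_one, mul_one])
  mul_smul b c a := Subtype.ext (by
    change ((b : G) * c) * a * ((b : G) * c)⁻¹ = b * (c * a * (c : G)⁻¹) * (b : G)⁻¹
    rw [mul_inv_rev]
    simp only [mul_assoc])

private theorem actNG_coe {A2 B : Subgroup G} (hn : B ≤ NG A2) (b : B) (a : A2) :
    (((actNG hn).toSMul.smul b a : A2) : G) = b * a * (b : G)⁻¹ := rfl

/-- if `A2` is elementary abelian of order `p ^ 2` and `B` is an elementary abelian group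
normalising `A2` then `|B : C_B(A2)| ≤ p` -/
theorem card_inf_CG {p : ℕ} (hp : p.Prime) {A2 B : Subgroup G} (hA : ElAb p A2)
    (hcA : Nat.card A2 = p ^ 2) (hB : ElAb p B) (hn : B ≤ NG A2) :
    Nat.card B ≤ p * Nat.card (B ⊓ CG A2 : Subgroup G) := by
  classical
  have hfp : Fact p.Prime := ⟨hp⟩
  letI : MulAction B A2 := actNG hn
  have hsm : ∀ (b : B) (a : A2), ((b • a : A2) : G) = b * a * (b : G)⁻¹ := actNG_coe hn
  -- a fixed point
  have h1 : (1 : A2) ∈ MulAction.fixedPoints B A2 := by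
    intro b
    apply Subtype.ext
    rw [hsm, OneMemClass.coe_one, mul_one, mul_inv_cancel]
  obtain ⟨z, hz, hz1⟩ := hB.isPGroup.exists_fixed_point_of_prime_dvd_card_of_fixed_point A2
    (by rw [hcA]; exact dvd_pow_self p two_ne_zero) h1
  have hzne : (z : G) ≠ 1 := fun h => hz1 (Subtype.ext h.symm)
  have hoz : _root_.orderOf (z : G) = p := hA.orderOf hp z.2 hzne
  have hzB : ∀ b ∈ B, b * (z : G) = z * b := by
    intro b hb
    have := congrArg Subtype.val (hz ⟨b, hb⟩)
    rw [hsm] at this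
    change b * (z : G) * b⁻¹ = z at this
    exact mul_inv_eq_iff_eq_mul.1 this
  -- an element outside
  obtain ⟨w, hw, hwz⟩ : ∃ w ∈ A2, w ∉ zpowers (z : G) := by
    by_contra hcon
    push Not at hcon
    have h2 : A2 ≤ zpowers (z : G) := hcon
    have h3 := Subgroup.card_dvd_of_le h2
    rw [hcA, Nat.card_zpowers, hoz] at h3
    have h4 := Nat.le_of_dvd hp.pos h3
    have h5 := hp.one_lt
    nlinarith
  have hw1 : w ≠ 1 := fun h => hwz (h ▸ one_mem _)
  have how : _root_.orderOf w = p := hA.orderOf hp hw hw1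
  have hzw := card_two hp hoz how (hA.2 _ z.2 _ hw) hwz
  have hA2 : zpowers (z : G) ⊔ zpowers w = A2 := by
    apply Subgroup.eq_of_le_of_card_ge
      (sup_le ((Subgroup.zpowers_le).2 z.2) ((Subgroup.zpowers_le).2 hw))
    rw [hcA, hzw.2]
  -- the orbit of w
  let w' : A2 := ⟨w, hw⟩
  have horb : Nat.card (MulAction.orbit B w') ≤ p := by
    obtain ⟨n, hn'⟩ := hB.isPGroup.card_orbit w'
    have h2 : Nat.card (MulAction.orbit B w') < p ^ 2 := by
      rw [← hcA]
      have h3 : (1 : A2) ∉ MulAction.orbit B w' := by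
        rintro ⟨b, hb⟩
        have h4 := congrArg Subtype.val hb
        change ((b • w' : A2) : G) = 1 at h4
        rw [hsm] at h4
        change (b : G) * w * (b : G)⁻¹ = 1 at h4
        exact hw1 (conj_eq_one_iff.1 h4)
      have h4 : (MulAction.orbit B w').ncard < (Set.univ : Set A2).ncard := by
        apply Set.ncard_lt_ncard _ (Set.toFinite _)
        rw [Set.ssubset_univ_iff]
        intro h5
        exact h3 (h5 ▸ Set.mem_univ _)
      rwa [Set.ncard_univ, ← Nat.card_coe_set_eq] at h4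
    rw [hn'] at h2 ⊢
    have h3 : n < 2 := (Nat.pow_lt_pow_iff_right hp.one_lt).1 h2
    calc p ^ n ≤ p ^ 1 := Nat.pow_le_pow_right hp.pos (by omega)
      _ = p := pow_one p
  have hstab : Nat.card (MulAction.stabilizer B w') ≤ Nat.card (B ⊓ CG A2 : Subgroup G) := by
    refine Nat.card_le_card_of_injective
      (fun b : MulAction.stabilizer B w' => (⟨((b : B) : G), ?_⟩ : (B ⊓ CG A2 : Subgroup G))) ?_
    · refine Subgroup.mem_inf.2 ⟨(b : B).2, ?_⟩
      have h2 := congrArg Subtype.val (MulAction.mem_stabilizer_iff.1 b.2)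
      rw [hsm] at h2
      change ((b : B) : G) * w * ((b : B) : G)⁻¹ = w at h2
      have h3 : ((b : B) : G) * w = w * (b : B) := mul_inv_eq_iff_eq_mul.1 h2
      have h4 : A2 ≤ CG (zpowers ((b : B) : G)) := by
        refine le_trans hA2.ge ?_
        refine sup_le ((Subgroup.zpowers_le).2 ?_) ((Subgroup.zpowers_le).2 ?_)
        · rw [mem_CG_zpowers, mem_Cx]
          exact (hzB _ (b : B).2).symm
        · rw [mem_CG_zpowers, mem_Cx]
          exact h3.symm
      exact (le_CG_comm.1 h4) (mem_zpowers _)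
    · intro b c hbc
      apply Subtype.ext
      apply Subtype.ext
      exact congrArg (fun t : (B ⊓ CG A2 : Subgroup G) => (t : G)) hbc
  have hcard : Nat.card B = Nat.card (MulAction.orbit B w') *
      Nat.card (MulAction.stabilizer B w') := by
    rw [Nat.card_congr (MulAction.orbitEquivQuotientStabilizer B w')]
    exact Subgroup.card_eq_card_quotient_mul_card_subgroup _
  rw [hcard]
  exact Nat.mul_le_mul horb hstab

/-- an abelian `p`-group without elementary abelian subgroup of order `p ^ 3` but with one of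
order `p ^ 2`, namely `B`, has `B` as its set of elements of order dividing `p`;
in particular everything normalising `A` normalises `B` -/
theorem Omega_eq {p : ℕ} (hp : p.Prime) {A B : Subgroup G} (hA : Ab A) (h3 : ¬ Rk3 p A)
    (hBA : B ≤ A) (hB : ElAb p B) (hc : Nat.card B = p ^ 2) :
    (∀ a ∈ A, a ^ p = 1 → a ∈ B) ∧ NG A ≤ NG B := by
  have key : ∀ a ∈ A, a ^ p = 1 → a ∈ B := by
    intro a ha hap
    by_contra hn
    have ha1 : a ≠ 1 := fun h => hn (h ▸ one_mem B)
    have : Fact p.Prime := ⟨hp⟩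
    have hoa : _root_.orderOf a = p := orderOf_eq_prime hap ha1
    have h1 := card_add hp hB hoa (mem_CG.2 fun x hx => hA a ha x (hBA hx)) hn
    refine h3 ⟨_, sup_le hBA ((Subgroup.zpowers_le).2 ha), h1.1, ?_⟩
    rw [h1.2, hc]
    ring
  refine ⟨key, fun g hg => mem_NG_of fun b hb => ?_⟩
  apply key
  · exact (mem_NG.1 hg b).1 (hBA hb)
  · rw [conj_pow, hB.1 b hb]
    group

end

end H84.LA
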