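import Pool.Agent.H84.LA.Cop

/-! # Module S11 (1.1, 1.2): Frattini argument in a proper subgroup

Proof of `s11`. Put `W = S ⊔ Opp p H`.  `[H, H] ≤ Op p H ⊔ Opp p H ≤ W` (`Hyp.comm_le`,
`Op_le_syl`), so `H` normalises `W` (it contains the commutator subgroup).  `S` is Sylow in `W`
(`SylIn.mono`).  For `h ∈ H` both `S` and `cj h S` are Sylow in `W`, so `cj h S = cj w S` with
`w ∈ W` (`SylIn.conj`), `w = f s`, `f ∈ Opp p H`, `s ∈ S` (`mem_sup_of_NG`), `cj w S = cj f S`,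
`n = f⁻¹ h ∈ N(S)`.  `s11c` is the same argument for a Sylow subgroup `T` of `H`
(`SylIn.conj` in `H`, then `s11`).  `s12`: `Opp p (N(E))` centralises `E` (`Opp_le_CG`).
-/

namespace H84.LA

open Subgroup

section
variable {G : Type*} [Group G] [Finite G]

theorem s11 (hG : Hyp G) {p : ℕ} (hp : p.Prime) {H S : Subgroup G} (hH : H ≠ ⊤)
    (hS : SylIn p H S) {h : G} (hh : h ∈ H) :
    ∃ f ∈ Opp p H, ∃ n ∈ H ⊓ NG S, h = f * n := by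
  have hSH : S ≤ H := hS.1
  have hW1 : Opp p H ⊔ S ≤ H := sup_le (Opp_le p H) hSH
  have hcomm : ⁅H, H⁆ ≤ Opp p H ⊔ S :=
    (hG.comm_le hp hH).trans (sup_le ((Op_le_syl hp hS).trans le_sup_right) le_sup_left)
  have hWN : h ∈ NG (Opp p H ⊔ S) := by
    apply mem_NG_of
    intro x hx
    have h1 : h * x * h⁻¹ * x⁻¹ ∈ ⁅H, H⁆ := comm_mem hh (hW1 hx)
    have h2 := (Opp p H ⊔ S).mul_mem (hcomm h1) hx
    have h3 : h * x * h⁻¹ * x⁻¹ * x = h * x * h⁻¹ := by group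
    rwa [h3] at h2
  have hSW : SylIn p (Opp p H ⊔ S) S := hS.mono le_sup_right hW1
  have hSW' : SylIn p (Opp p H ⊔ S) (cj h S) := by
    have h1 := hSW.cj h
    rwa [cj_of_mem_NG hWN] at h1
  obtain ⟨w, hw, hw'⟩ := SylIn.conj hp hSW hSW'
  obtain ⟨f, hf, s, hs, rfl⟩ := (mem_sup_of_NG (hSH.trans (Opp_norm p H))).1 hw
  rw [cj_mul, cj_of_mem hs] at hw'
  have hn : f⁻¹ * h ∈ NG S := by
    rw [mem_NG_iff_cj, cj_mul, ← hw', cj_inv_cj]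
  exact ⟨f, hf, f⁻¹ * h, ⟨H.mul_mem (H.inv_mem (Opp_le p H hf)) hh, hn⟩, by group⟩

theorem s11c (hG : Hyp G) {p : ℕ} (hp : p.Prime) {H S T : Subgroup G} (hH : H ≠ ⊤)
    (hS : SylIn p H S) (hT : SylIn p H T) : ∃ f ∈ Opp p H, cj f S = T := by
  obtain ⟨h, hh, rfl⟩ := SylIn.conj hp hS hT
  obtain ⟨f, hf, n, hn, rfl⟩ := s11 hG hp hH hS hh
  exact ⟨f, hf, by rw [cj_mul, cj_of_mem_NG hn.2]⟩

/-- convenient form: if `Opp p H` and `H ⊓ N(S)` are in `X` then `H ≤ X` -/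
theorem s11le (hG : Hyp G) {p : ℕ} (hp : p.Prime) {H S X : Subgroup G} (hH : H ≠ ⊤)
    (hS : SylIn p H S) (h1 : Opp p H ≤ X) (h2 : H ⊓ NG S ≤ X) : H ≤ X := by
  intro h hh
  obtain ⟨f, hf, n, hn, rfl⟩ := s11 hG hp hH hS hh
  exact X.mul_mem (h1 hf) (h2 hn)

/-- (1.2) the Sylow `p`-subgroups of `N(E)` are conjugate under `C(E)` -/
theorem s12 (hG : Hyp G) {p : ℕ} (hp : p.Prime) {E S T : Subgroup G} (hE : E ≠ ⊥)
    (hEp : IsPGroup p E) (hS : SylIn p (NG E) S) (hT : SylIn p (NG E) T) :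
    ∃ f ∈ CG E, cj f S = T := by
  obtain ⟨f, hf, h⟩ := s11c hG hp (hG.NG_ne_top_of_p hp hE hEp) hS hT
  exact ⟨f, Opp_le_CG hp hEp (le_NG E) le_rfl hf, h⟩

end

end H84.LA
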