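import Pool.Agent.H84.LA.S11

/-! # Module S13 (1.3): fusion

`1 ≠ Q ≤ P` and `g Q g⁻¹ ≤ P` imply `g = n c` with `n ∈ N(P)`, `c ∈ C(Q)`.
Downward induction on `|Q|` (strong induction on `|P| - |Q|`, for all `g`).
If `Q = P` then `cj g P = P` and `g ∈ N(P)`.  Otherwise `T1 = N_P(Q) > Q`
(`exists_normalizer_gt`).
(i) There is a Sylow `p`-subgroup `R` of `N(Q)` with `R ≤ P`: take `R1 ≥ T1` Sylow in `N(Q)`,
`cj y R1 ≤ P` for some `y`; then `cj y T1 ≤ P`, so by induction for `T1`: `y = n c`, `n ∈ N(P)`,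
`c ∈ C(T1) ≤ C(Q)`; `R = cj c R1 ≤ P` and `R` is Sylow in `cj c (N(Q)) = N(Q)`.
(ii) `Q' = cj g Q ≤ P`, `T2 = N_P(Q') > Q'`, `cj g⁻¹ T2 ≤ N(Q)` is a `p`-group, it is contained in
a Sylow subgroup of `N(Q)`, conjugate to `R` under `C(Q)` (`s12`): `cj (c' g⁻¹) T2 ≤ R ≤ P` for
some `c' ∈ C(Q)`.  Induction for `T2` (order `> |Q|`): `c' g⁻¹ = n c''`, `c'' ∈ C(T2) ≤ C(Q')`.
So `g = c''⁻¹ n⁻¹ c'`, i.e. `g c'⁻¹ = c''⁻¹ n⁻¹` ; `c''⁻¹ = g d g⁻¹` with `d ∈ C(Q)`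
(as `C(Q') = g C(Q) g⁻¹`), so `g c'⁻¹ = g d g⁻¹ n⁻¹`, `g = n⁻¹ (c' d)`... (rearrange).
-/

namespace H84.LA

open Subgroup

section
variable {G : Type*} [Group G] [Finite G]

theorem s13 (hG : Hyp G) {p : ℕ} {P Q : Subgroup G} (hP : IsS p P) (hQ : Q ≠ ⊥) (hQP : Q ≤ P)
    {g : G} (hg : cj g Q ≤ P) : ∃ n ∈ NG P, ∃ c ∈ CG Q, g = n * c := by
  obtain ⟨N, hN⟩ : ∃ N, N = Nat.card P - Nat.card Q := ⟨_, rfl⟩
  induction N using Nat.strong_induction_on generalizing Q g with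
  | _ N ih =>
  have hp := hP.prime
  have hPp := hP.isPGroup
  by_cases hQe : Q = P
  · subst hQe
    have h1 : cj g Q = Q := Subgroup.eq_of_le_of_card_ge hg (by rw [card_cj])
    exact ⟨g, mem_NG_iff_cj.2 h1, 1, one_mem _, by simp⟩
  · have key : ∀ T : Subgroup G, T ≤ P → Nat.card Q < Nat.card T → ∀ y, cj y T ≤ P →
        ∃ n ∈ NG P, ∃ c ∈ CG T, y = n * c := by
      intro T hT hlt y hy
      have hQ1 : 0 < Nat.card Q := Nat.card_pos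
      have hTb : T ≠ ⊥ := by
        rintro rfl
        rw [Subgroup.card_bot] at hlt
        omega
      have h2 : Nat.card T ≤ Nat.card P := Subgroup.card_le_of_le hT
      exact ih (Nat.card P - Nat.card T) (by omega) hTb hT hy rfl
    -- normalisers grow
    have grow : ∀ X : Subgroup G, X ≤ P → X ≠ P →
        Nat.card X < Nat.card (P ⊓ NG X : Subgroup G) := by
      intro X hXP hXne
      obtain ⟨x, hxP, hxX, hxN⟩ := exists_normalizer_gt hp hPp hXP hXne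
      have hle : X ≤ P ⊓ NG X := le_inf hXP (le_NG X)
      have hlt : X < P ⊓ NG X := by
        refine lt_of_le_of_ne hle ?_
        intro he
        apply hxX
        rw [he]
        exact ⟨hxP, hxN⟩
      by_contra hc
      exact hlt.ne (Subgroup.eq_of_le_of_card_ge hle (not_lt.1 hc))
    -- part (i): a Sylow subgroup of `N(Q)` inside `P`
    obtain ⟨R, hRs, hRP⟩ : ∃ R, SylIn p (NG Q) R ∧ R ≤ P := by
      have hT1 : IsPGroup p (P ⊓ NG Q : Subgroup G) := hPp.to_le inf_le_left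
      obtain ⟨R1, hR1, hTR⟩ := SylIn.exists_ge hT1 (inf_le_right : P ⊓ NG Q ≤ NG Q)
      obtain ⟨y, -, hy⟩ := SylIn.conj_le hp hP.syl hR1.2.1 le_top
      have hyT : cj y (P ⊓ NG Q) ≤ P := (cj_le_cj.2 hTR).trans hy
      obtain ⟨n, hn, c, hc, rfl⟩ := key _ inf_le_left (grow Q hQP hQe) y hyT
      have hcQ : c ∈ CG Q := CG_anti (le_inf hQP (le_NG Q)) hc
      refine ⟨cj c R1, ?_, ?_⟩
      · have h3 := hR1.cj c
        rwa [cj_of_mem (CG_le_NG Q hcQ)] at h3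
      · rw [cj_mul, cj_le_iff, cj_of_mem_NG (inv_mem hn)] at hy
        exact hy
    -- part (ii)
    have hQ'card : Nat.card (cj g Q) = Nat.card Q := card_cj g Q
    have hQ'ne : cj g Q ≠ P := by
      intro he
      apply hQe
      apply Subgroup.eq_of_le_of_card_ge hQP
      rw [← hQ'card, he]
    have hlt := grow (cj g Q) hg hQ'ne
    rw [hQ'card] at hlt
    have hT2 : IsPGroup p (P ⊓ NG (cj g Q) : Subgroup G) := hPp.to_le inf_le_left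
    have hT2' : IsPGroup p (cj g⁻¹ (P ⊓ NG (cj g Q)) : Subgroup G) := isPGroup_cj.2 hT2
    have hle : cj g⁻¹ (P ⊓ NG (cj g Q)) ≤ NG Q := by
      have h4 : cj g⁻¹ (P ⊓ NG (cj g Q)) ≤ cj g⁻¹ (NG (cj g Q)) := cj_le_cj.2 inf_le_right
      rwa [← NG_cj, cj_inv_cj] at h4
    obtain ⟨S2, hS2, hTS⟩ := SylIn.exists_ge hT2' hle
    have hQp : IsPGroup p Q := hPp.to_le hQP
    obtain ⟨f, hf, hfe⟩ := s12 hG hp hQ hQp hS2 hRs
    have h5 : cj (f * g⁻¹) (P ⊓ NG (cj g Q)) ≤ P := by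
      rw [cj_mul]
      refine (cj_le_cj.2 hTS).trans ?_
      rw [hfe]
      exact hRP
    obtain ⟨n, hn, c, hc, he⟩ := key _ inf_le_left hlt _ h5
    have hcQ : c ∈ CG (cj g Q) := CG_anti (le_inf hg (le_NG _)) hc
    rw [CG_cj] at hcQ
    have hd := mem_cj.1 (inv_mem hcQ)
    refine ⟨n⁻¹, inv_mem hn, f * (g⁻¹ * c⁻¹ * g), mul_mem hf hd, ?_⟩
    have h6 : g = c⁻¹ * n⁻¹ * f := by
      have h7 : f = n * c * g := by rw [← he]; group
      rw [h7]; group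
    have h8 : n⁻¹ * f = c * g := by
      have h7 : f = n * c * g := by rw [← he]; group
      rw [h7]; group
    calc g = c * g * (g⁻¹ * c⁻¹ * g) := by group
      _ = n⁻¹ * f * (g⁻¹ * c⁻¹ * g) := by rw [h8]
      _ = n⁻¹ * (f * (g⁻¹ * c⁻¹ * g)) := by group

/-- element form -/
theorem s13x (hG : Hyp G) {p : ℕ} {P : Subgroup G} (hP : IsS p P) {x g : G} (hx : x ∈ P)
    (h1 : x ≠ 1) (hg : g * x * g⁻¹ ∈ P) : ∃ n ∈ NG P, ∃ c ∈ Cx x, g = n * c := by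
  have hQ : zpowers x ≠ ⊥ := by
    rw [Ne, Subgroup.zpowers_eq_bot]
    exact h1
  have hQP : zpowers x ≤ P := by
    rw [Subgroup.zpowers_le]
    exact hx
  have hgQ : cj g (zpowers x) ≤ P := by
    rw [cj_zpowers, Subgroup.zpowers_le]
    exact hg
  obtain ⟨n, hn, c, hc, he⟩ := s13 hG hP hQ hQP hgQ
  exact ⟨n, hn, c, mem_CG_zpowers.1 hc, he⟩

/-- two Sylow subgroups containing `x ≠ 1` are conjugate under `C(x)` -/
theorem s13s (hG : Hyp G) {p : ℕ} {P P' : Subgroup G} (hP : IsS p P) (hP' : IsS p P') {x : G}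
    (hx : x ∈ P) (h1 : x ≠ 1) (hx' : x ∈ P') : ∃ c ∈ Cx x, cj c P = P' := by
  obtain ⟨g, hg⟩ := hP.conj hP'
  have h2 : g⁻¹ * x * g⁻¹⁻¹ ∈ P := by
    rw [inv_inv]
    apply mem_cj.1
    rw [hg]
    exact hx'
  obtain ⟨n, hn, c, hc, he⟩ := s13x hG hP hx h1 h2
  refine ⟨c⁻¹, inv_mem hc, ?_⟩
  have h3 : g = c⁻¹ * n⁻¹ := by
    rw [← inv_inv g, he, mul_inv_rev]
  rw [← hg, h3, cj_mul, cj_of_mem_NG (inv_mem hn)]

/-- `N(Q) = C(Q) N_{N(P)}(Q)` for `1 ≠ Q ≤ P` -/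
theorem s13n (hG : Hyp G) {p : ℕ} {P Q : Subgroup G} (hP : IsS p P) (hQ : Q ≠ ⊥) (hQP : Q ≤ P)
    {g : G} (hg : g ∈ NG Q) : ∃ n ∈ NG P ⊓ NG Q, ∃ c ∈ CG Q, g = n * c := by
  have h1 : cj g Q ≤ P := by
    rw [cj_of_mem_NG hg]
    exact hQP
  obtain ⟨n, hn, c, hc, he⟩ := s13 hG hP hQ hQP h1
  refine ⟨n, ⟨hn, ?_⟩, c, hc, he⟩
  have h2 : n = g * c⁻¹ := by rw [he]; group
  rw [h2]
  exact (NG Q).mul_mem hg ((NG Q).inv_mem (CG_le_NG Q hc))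

end

end H84.LA
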