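import Pool.Agent.H84.LA.S13

/-! # Module S14 (1.4): focal subgroup, `[P, N(P)] = P`

Transfer `V : G → P / [P, N(P)]` (abelian, since `[P, P] ≤ [P, N(P)]`; `[P, N(P)]` is normal in
`P`).  For `x ∈ P`, `V x` is a product over the orbits of `⟨x⟩` on cosets of factors
`g_i⁻¹ x ^ n_i g_i ∈ P`, `∑ n_i = |G : P|`.  By `s13` (`x ^ n_i`, if not `1`, and its conjugate lie
in `P`) `g_i⁻¹ x ^ n_i g_i` is an `N(P)`-conjugate of `x ^ n_i`, so `≡ x ^ n_i mod [P, N(P)]`.
So `V x = x ^ |G : P|`.  `G` is simple nonabelian, so `V = 1` and `x ^ |G : P| ∈ [P, N(P)]`; the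
index is prime to `p`, so `x ∈ [P, N(P)]`.
(Mathlib: `MonoidHom.transfer_eq_prod_quotient_orbitRel_zpowers_quot`.)
-/

namespace H84.LA

open Subgroup

open scoped commutatorElement

section
variable {G : Type*} [Group G] [Finite G]

theorem s14 (hG : Hyp G) {p : ℕ} {P : Subgroup G} (hP : IsS p P) : ⁅P, NG P⁆ = P := by
  haveI := Fact.mk hP.prime
  haveI := hG.simple
  refine le_antisymm (comm_le_left_iff.2 le_rfl) ?_
  let S : Sylow p G := ⟨P, hP.syl.2.1, fun {Q} hQ hle => hP.syl.2.2 Q le_top hQ hle⟩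
  have hS : (S : Subgroup G) = P := rfl
  have h1 : commutator G ⊓ (S : Subgroup G) = (S : Subgroup G).focalSubgroup :=
    commutator_inf_eq_focalSubgroup S
  have h2 : commutator G = ⊤ := by
    rcases IsSimpleGroup.eq_bot_or_eq_top_of_normal (commutator G) inferInstance with h | h
    · exfalso
      apply hG.nonab
      intro a b
      have h3 : ⁅a, b⁆ ∈ commutator G := commutator_mem_commutator (mem_top a) (mem_top b)
      rw [h, mem_bot, commutatorElement_eq_one_iff_mul_comm] at h3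
      exact h3
    · exact h
  rw [h2, top_inf_eq, hS] at h1
  conv_lhs => rw [h1]
  rw [focalSubgroup_def, closure_le]
  rintro g ⟨hg, x, hx, u, rfl⟩
  by_cases h0 : x = 1
  · subst h0
    simp
  have hx' : x⁻¹ ∈ P := inv_mem hx
  have h0' : x⁻¹ ≠ 1 := by simpa using h0
  have hu : u * x⁻¹ * u⁻¹ ∈ P := by
    have := mul_mem hx' hg
    have e : x⁻¹ * ⁅x, u⁆ = u * x⁻¹ * u⁻¹ := by
      rw [commutatorElement_def]
      group
    rwa [e] at this
  obtain ⟨n, hn, c, hc, rfl⟩ := s13x hG hP hx' h0' hu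
  have hc' : c * x⁻¹ = x⁻¹ * c := mem_Cx.1 hc
  have e : ⁅x, n * c⁆ = x * n * x⁻¹ * n⁻¹ := by
    rw [commutatorElement_def]
    have : x * (n * c) * x⁻¹ * (n * c)⁻¹ = x * n * (c * x⁻¹) * c⁻¹ * n⁻¹ := by group
    rw [this, hc']
    group
  rw [SetLike.mem_coe, e]
  exact comm_mem hx hn

end

end H84.LA
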