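import Pool.Agent.H84.LA.S14

/-! # Module S15 (1.5, 1.6): `N(P)` is maximal; good elements

`s15a`: `P = [P, N(P)] ≤ [M, M]`, so `P ≤ Op p M` (`Hyp.le_Op_of_le_comm`), hence `P = Op p M`
(`IsS.eq_of_le`) and `M ≤ N(P)` (`Op_norm`).
`s15d`: `X ≤ N(P) ≠ ⊤`, so `N(X) ≠ ⊤` contains `N(P)`; `s15a`.
`s16a`: `s13x`: `g = n c`, `c ∈ C(x) ≤ N(P)`.
`s16b`: `s13s`: `P' = cj c P`, `c ∈ C(x) ≤ N(P)`.
`s16c`: `J` is in a Sylow subgroup `P'`, which contains `x`; `s16b`.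
`s16d`: `g ∈ N(J)`: `x ∈ J = cj g J ≤ cj g P`, so `cj g P = P` by `s16b`.
-/

namespace H84.LA

open Subgroup

section
variable {G : Type*} [Group G] [Finite G]

theorem s15ne (hG : Hyp G) {p : ℕ} {P : Subgroup G} (hP : IsS p P) : NG P ≠ ⊤ := by
  exact hG.NG_ne_top_of_p hP.prime hP.ne_bot hP.isPGroup

/-- `N(P)` is a maximal subgroup -/
theorem s15a (hG : Hyp G) {p : ℕ} {P : Subgroup G} (hP : IsS p P) {M : Subgroup G} (hM : M ≠ ⊤)
    (h : NG P ≤ M) : M = NG P := by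
  have h1 : P ≤ ⁅M, M⁆ := by
    calc P = ⁅P, NG P⁆ := (s14 hG hP).symm
      _ ≤ ⁅M, M⁆ := Subgroup.commutator_mono ((le_NG P).trans h) h
  have h2 : P ≤ Op p M := hG.le_Op_of_le_comm hP.prime hM h1 hP.isPGroup
  have h3 : Op p M = P := hP.eq_of_le (Op_isPGroup hP.prime M) h2
  have h4 : M ≤ NG (Op p M) := Op_norm p M
  rw [h3] at h4
  exact le_antisymm h4 h

theorem s15c (hG : Hyp G) {p : ℕ} {P : Subgroup G} (hP : IsS p P) : Op p (NG P) = P := by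
  exact hP.eq_of_le (Op_isPGroup hP.prime _) (le_Op (le_NG P) hP.isPGroup le_rfl)

theorem s15d (hG : Hyp G) {p : ℕ} {P X : Subgroup G} (hP : IsS p P) (h1 : X ≠ ⊥)
    (h2 : X ≤ NG P) (h3 : NG P ≤ NG X) : NG X = NG P := by
  have hX : X ≠ ⊤ := by
    intro h
    rw [h, top_le_iff] at h2
    exact s15ne hG hP h2
  exact s15a hG hP (hG.NG_ne_top h1 hX) h3

/-- `N(P)` is self normalising -/
theorem s15n (hG : Hyp G) {p : ℕ} {P : Subgroup G} (hP : IsS p P) : NG (NG P) = NG P := by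
  have h1 : NG P ≠ ⊥ := by
    intro h
    have h2 : P ≤ ⊥ := h ▸ le_NG P
    exact hP.ne_bot (le_bot_iff.1 h2)
  exact s15d hG hP h1 le_rfl (le_NG _)

theorem s16a (hG : Hyp G) {p : ℕ} {P : Subgroup G} (hP : IsS p P) {x g : G} (hx : x ∈ P)
    (h1 : x ≠ 1) (hgood : Good P x) (hg : g * x * g⁻¹ ∈ P) : g ∈ NG P := by
  obtain ⟨n, hn, c, hc, rfl⟩ := s13x hG hP hx h1 hg
  exact mul_mem hn (hgood hc)

theorem s16b (hG : Hyp G) {p : ℕ} {P P' : Subgroup G} (hP : IsS p P) (hP' : IsS p P') {x : G}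
    (hx : x ∈ P) (h1 : x ≠ 1) (hgood : Good P x) (hx' : x ∈ P') : P' = P := by
  obtain ⟨c, hc, h⟩ := s13s hG hP hP' hx h1 hx'
  rw [← h]
  exact cj_of_mem_NG (hgood hc)

theorem s16c (hG : Hyp G) {p : ℕ} {P J : Subgroup G} (hP : IsS p P) {x : G} (hx : x ∈ P)
    (h1 : x ≠ 1) (hgood : Good P x) (hJ : IsPGroup p J) (hxJ : x ∈ J) : J ≤ P := by
  obtain ⟨S, hS, hJS⟩ := SylIn.exists_ge (p := p) (H := ⊤) hJ le_top
  have hS' : IsS p S := ⟨hP.prime, hP.dvd, hS⟩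
  have := s16b hG hP hS' hx h1 hgood (hJS hxJ)
  exact this ▸ hJS

theorem s16d (hG : Hyp G) {p : ℕ} {P J : Subgroup G} (hP : IsS p P) {x : G} (hx : x ∈ P)
    (h1 : x ≠ 1) (hgood : Good P x) (hJ : IsPGroup p J) (hxJ : x ∈ J) : NG J ≤ NG P := by
  intro g hg
  have hJP : J ≤ P := s16c hG hP hx h1 hgood hJ hxJ
  have h2 : x ∈ cj g J := by rw [cj_of_mem_NG hg]; exact hxJ
  have h3 : x ∈ cj g P := cj_le_cj.2 hJP h2
  exact mem_NG_iff_cj.2 (s16b hG hP (hP.cj g) hx h1 hgood h3)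

theorem Good_cj {P : Subgroup G} {x : G} (g : G) : Good (cj g P) (g * x * g⁻¹) ↔ Good P x := by
  unfold Good
  rw [Cx_cj, NG_cj, cj_le_cj]

/-- `x ∈ P` normal in `N(P)` (i.e. `N(P)` normalises `⟨x⟩`) is good -/
theorem s15good (hG : Hyp G) {p : ℕ} {P : Subgroup G} (hP : IsS p P) {x : G} (hx : x ∈ P)
    (h1 : x ≠ 1) (hn : NG P ≤ NG (zpowers x)) : Good P x := by
  have h2 : zpowers x ≠ ⊥ := by
    intro h
    exact h1 (zpowers_eq_bot.1 h)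
  have h3 : zpowers x ≤ NG P := (zpowers_le.2 hx).trans (le_NG P)
  have h4 := s15d hG hP h2 h3 hn
  intro c hc
  rw [← h4]
  exact CG_le_NG _ (mem_CG_zpowers.2 hc)

end

end H84.LA
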