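import Pool.Agent.H84.LA.S15

/-! # Module S20 (2.0 and invariant subgroups)

`s20`: `R_i = C_{R_i}(A) [R_i, A]` (`cop_gen`) and `[R_i, A] ≤ R_i ⊓ [H, H]`, a `q`-group, lies in
`O = Op q H` (`Hyp.comm_le_Op`).  Put `C = H ⊓ C(A)`, let `Q1 ≥ R1 ⊓ C(A)` and
`Q2 ≥ R2 ⊓ C(A)` be Sylow `q`-subgroups of `C` and `c ∈ C` with `cj c Q2 = Q1`.  `S = O ⊔ Q1`: a
`q`-group (`Q1` normalises `O`), normalised by `A` (`A` normalises `O`, centralises `Q1`),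
contains `R1` and `cj c R2` (`cj c O = O`).
-/

namespace H84.LA

open Subgroup

section
variable {G : Type*} [Group G] [Finite G]

theorem Inv.exists_MInv {A : Subgroup G} {q : ℕ} {K : Subgroup G} (h : Inv A q K) :
    ∃ K', MInv A q K' ∧ K ≤ K' := by
  obtain ⟨b, hb, hm⟩ := Set.Finite.exists_le_maximal
    (s := {K' : Subgroup G | Inv A q K'}) (Set.toFinite _) h
  refine ⟨b, ⟨hm.1, fun K' hK' hle => ?_⟩, hb⟩
  exact le_antisymm (hm.2 hK' hle) hle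

theorem Inv_cj {A : Subgroup G} {q : ℕ} {K : Subgroup G} (g : G) :
    Inv (cj g A) q (cj g K) ↔ Inv A q K := by
  unfold Inv
  rw [isPGroup_cj, NG_cj, cj_le_cj]

theorem MInv_cj {A : Subgroup G} {q : ℕ} {K : Subgroup G} (g : G) :
    MInv (cj g A) q (cj g K) ↔ MInv A q K := by
  unfold MInv
  rw [Inv_cj]
  refine and_congr_right fun _ => ⟨fun h K' hK' hle => ?_, fun h K' hK' hle => ?_⟩
  · have := h (cj g K') ((Inv_cj g).2 hK') (cj_le_cj.2 hle)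
    exact cj_inj.1 this
  · have h1 : cj g (cj g⁻¹ K') = K' := cj_cj_inv g K'
    rw [← h1] at hK' hle ⊢
    rw [Inv_cj] at hK'
    rw [cj_le_cj] at hle
    rw [h _ hK' hle]

/-- `Op q H` is `A`-invariant for `A ≤ H` -/
theorem inv_Op {q : ℕ} (hq : q.Prime) {A H : Subgroup G} (h : A ≤ H) : Inv A q (Op q H) :=
  ⟨Op_isPGroup hq H, h.trans (Op_norm q H)⟩

private theorem s20_not_dvd {p q : ℕ} (hp : p.Prime) (hq : q.Prime) (hpq : p ≠ q)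
    {R : Subgroup G} (hR : IsPGroup q R) : ¬ p ∣ Nat.card R := by
  haveI := Fact.mk hq
  obtain ⟨n, hn⟩ := IsPGroup.iff_card.1 hR
  rw [hn]
  intro h
  exact hpq ((Nat.prime_dvd_prime_iff_eq hp hq).1 (hp.dvd_of_dvd_pow h))

theorem s20 (hG : Hyp G) {p q : ℕ} (hp : p.Prime) (hq : q.Prime) (hpq : p ≠ q)
    {H A R1 R2 : Subgroup G} (hH : H ≠ ⊤) (hA : IsPGroup p A) (hAH : A ≤ H)
    (h1 : Inv A q R1) (h1H : R1 ≤ H) (h2 : Inv A q R2) (h2H : R2 ≤ H) :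
    ∃ c ∈ H ⊓ CG A, ∃ S : Subgroup G, S ≤ H ∧ Inv A q S ∧ R1 ≤ S ∧ cj c R2 ≤ S := by
  haveI := Fact.mk hq
  have e1 : ⁅R1, A⁆ ≤ Op q H := hG.comm_le_Op hq hH h1.1 h1H hAH h1.2
  have e2 : ⁅R2, A⁆ ≤ Op q H := hG.comm_le_Op hq hH h2.1 h2H hAH h2.2
  obtain ⟨Q1, hQ1, hRQ1⟩ := SylIn.exists_ge (p := q) (H := H ⊓ CG A) (T := R1 ⊓ CG A)
    (h1.1.to_le inf_le_left) (inf_le_inf_right _ h1H)
  obtain ⟨Q2, hQ2, hRQ2⟩ := SylIn.exists_ge (p := q) (H := H ⊓ CG A) (T := R2 ⊓ CG A)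
    (h2.1.to_le inf_le_left) (inf_le_inf_right _ h2H)
  obtain ⟨c, hc, hcQ⟩ := SylIn.conj hq hQ2 hQ1
  have hQ1H : Q1 ≤ H := hQ1.1.trans inf_le_left
  have hcO : cj c (Op q H) = Op q H := cj_of_mem_NG (Op_norm q H hc.1)
  refine ⟨c, hc, Op q H ⊔ Q1, sup_le (Op_le q H) hQ1H, ⟨?_, ?_⟩, ?_, ?_⟩
  · exact IsPGroup.to_sup_of_normal_left' (Op_isPGroup hq H) hQ1.2.1
      (hQ1H.trans (Op_norm q H))
  · refine le_NG_sup (hAH.trans (Op_norm q H)) ?_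
    exact (le_CG_comm.1 (hQ1.1.trans inf_le_right)).trans (CG_le_NG Q1)
  · intro r hr
    obtain ⟨x, hx, k, hk, rfl⟩ := cop_gen hp hA (s20_not_dvd hp hq hpq h1.1) h1.2 hr
    exact mul_mem (mem_sup_right (hRQ1 hx)) (mem_sup_left (e1 hk))
  · intro r hr
    rw [mem_cj] at hr
    obtain ⟨x, hx, k, hk, hr'⟩ := cop_gen hp hA (s20_not_dvd hp hq hpq h2.1) h2.2 hr
    have e : r = (c * x * c⁻¹) * (c * k * c⁻¹) := by
      have : r = c * (c⁻¹ * r * c) * c⁻¹ := by group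
      rw [this, hr']
      group
    rw [e]
    refine mul_mem (mem_sup_right ?_) (mem_sup_left ?_)
    · rw [← hcQ]
      exact conj_mem_cj (hRQ2 hx)
    · rw [← hcO]
      exact conj_mem_cj (e2 hk)

end

end H84.LA
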