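import Pool.Agent.H84.LA.S21a

/-! # Module S21 (2.1): transitivity

Suppose not.  Among the pairs `(K1, K2)` of members of `MInv A q` that are not conjugate under
`C(A)` choose one with `|K1 ⊓ K2|` maximal; `K0 = K1 ⊓ K2`.
Case `K0 ≠ 1`: `H = N(K0) ≠ ⊤` contains `A`; `R_i = K_i ⊓ N(K0) > K0`
(`exists_normalizer_gt`; `K0 ≠ K_i` by maximality of the `K_i`).  `s20`: `c ∈ C(A)`, `S` with
`R1 ≤ S`, `cj c R2 ≤ S`; let `K3 ≥ S` be maximal `A`-invariant.  `K3 ⊓ K1 ≥ R1` and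
`K3 ⊓ cj c K2 ≥ cj c R2` are bigger than `K0`, so `K3` is conjugate to `K1` and to `cj c K2`.
Contradiction.
Case `K0 = 1`: `K1, K2 ≠ 1` (if `K1 = 1` then `K2 = K1`).  Let `V_i ≤ K_i` be minimal nontrivial
`A`-invariant; `A_i = A ⊓ C(V_i)` is normal in `A` with cyclic quotient (`cycq_irr`), so
`A1 ⊓ A2 ≠ 1` (`Thick`).  `H = N(A1 ⊓ A2) ≠ ⊤` contains `A, V1, V2`; `s20` with `R_i = V_i`;
`K3` as before meets `K1` and `cj c K2` nontrivially.  Contradiction.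
-/

namespace H84.LA

open Subgroup

section
variable {G : Type*} [Group G] [Finite G]

private theorem s21_glue {q : ℕ} {A K1 K2 : Subgroup G} (h1 : MInv A q K1) (h2 : MInv A q K2)
    (IH : ∀ L1 L2 : Subgroup G, MInv A q L1 → MInv A q L2 →
      Nat.card (K1 ⊓ K2 : Subgroup G) < Nat.card (L1 ⊓ L2 : Subgroup G) → ∃ c ∈ CG A, cj c L1 = L2)
    {R1 R2 S : Subgroup G} {c : G} (hc : c ∈ CG A) (hS : Inv A q S) (hR1 : R1 ≤ K1) (hR2 : R2 ≤ K2)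
    (hS1 : R1 ≤ S) (hS2 : cj c R2 ≤ S)
    (hc1 : Nat.card (K1 ⊓ K2 : Subgroup G) < Nat.card R1)
    (hc2 : Nat.card (K1 ⊓ K2 : Subgroup G) < Nat.card R2) : ∃ c ∈ CG A, cj c K1 = K2 := by
  obtain ⟨K3, hK3, hSK⟩ := hS.exists_MInv
  have hm2 : MInv A q (cj c K2) := by
    have h := (MInv_cj (A := A) (q := q) (K := K2) c).2 h2
    rwa [cj_of_mem_CG hc] at h
  obtain ⟨a, ha, ha'⟩ := IH K1 K3 h1 hK3 (hc1.trans_le
    (Subgroup.card_le_of_le (le_inf hR1 (hS1.trans hSK))))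
  obtain ⟨b, hb, hb'⟩ := IH K3 (cj c K2) hK3 hm2 (hc2.trans_le (by
    rw [← card_cj c R2]
    exact Subgroup.card_le_of_le (le_inf (hS2.trans hSK) (cj_le_cj.2 hR2))))
  refine ⟨c⁻¹ * (b * a), mul_mem (inv_mem hc) (mul_mem hb ha), ?_⟩
  rw [cj_mul, cj_mul, ha', hb', cj_inv_cj]

private theorem s21_card_lt {X Y : Subgroup G} (h : X ≤ Y) {x : G} (hx : x ∈ Y) (hx' : x ∉ X) :
    Nat.card X < Nat.card Y := by
  rcases lt_or_ge (Nat.card X) (Nat.card Y) with h1 | h1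
  · exact h1
  · exact absurd ((Subgroup.eq_of_le_of_card_ge h h1) ▸ hx) hx'

private theorem s21_min {A : Subgroup G} {q : ℕ} {K : Subgroup G} (hK : Inv A q K) (h0 : K ≠ ⊥) :
    ∃ V : Subgroup G, Inv A q V ∧ V ≤ K ∧ V ≠ ⊥ ∧
      ∀ W : Subgroup G, Inv A q W → W ≤ V → W ≠ ⊥ → W = V := by
  classical
  have hfin : ({W : Subgroup G | Inv A q W ∧ W ≤ K ∧ W ≠ ⊥}).Finite := Set.toFinite _
  obtain ⟨V, hV⟩ := hfin.exists_minimal ⟨K, hK, le_refl _, h0⟩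
  refine ⟨V, hV.1.1, hV.1.2.1, hV.1.2.2, fun W hW hWV hW0 => ?_⟩
  exact le_antisymm hWV (hV.2 ⟨hW, hWV.trans hV.1.2.1, hW0⟩ hWV)

private theorem s21_aux (hG : Hyp G) {p q : ℕ} (hp : p.Prime) (hq : q.Prime) (hpq : p ≠ q)
    {A : Subgroup G} (hA : IsPGroup p A) (hT : Thick A) (n : ℕ) : ∀ K1 K2 : Subgroup G,
    MInv A q K1 → MInv A q K2 → Nat.card G - Nat.card (K1 ⊓ K2 : Subgroup G) = n →
    ∃ c ∈ CG A, cj c K1 = K2 := by
  induction n using Nat.strong_induction_on with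
  | _ n ih =>
  intro K1 K2 h1 h2 hn
  have IH : ∀ L1 L2 : Subgroup G, MInv A q L1 → MInv A q L2 →
      Nat.card (K1 ⊓ K2 : Subgroup G) < Nat.card (L1 ⊓ L2 : Subgroup G) →
      ∃ c ∈ CG A, cj c L1 = L2 := by
    intro L1 L2 hL1 hL2 hlt
    have hle : Nat.card (L1 ⊓ L2 : Subgroup G) ≤ Nat.card G := Subgroup.card_le_card_group _
    exact ih _ (by omega) L1 L2 hL1 hL2 rfl
  by_cases hEq : K1 = K2
  · exact ⟨1, one_mem _, by rw [cj_one, hEq]⟩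
  have q1 : IsPGroup q K1 := h1.1.1
  have q2 : IsPGroup q K2 := h2.1.1
  by_cases hK0 : K1 ⊓ K2 = ⊥
  · -- trivial intersection
    have hb1 : K1 ≠ ⊥ := by
      intro hb
      exact hEq (h1.2 K2 h2.1 (by rw [hb]; exact bot_le)).symm
    have hb2 : K2 ≠ ⊥ := by
      intro hb
      exact hEq (h2.2 K1 h1.1 (by rw [hb]; exact bot_le))
    obtain ⟨V1, hV1, hVK1, hV10, hm1⟩ := s21_min h1.1 hb1
    obtain ⟨V2, hV2, hVK2, hV20, hm2⟩ := s21_min h2.1 hb2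
    have c1 := cycq_irr hG hp hq hpq hA hV1 hV10 hm1
    have c2 := cycq_irr hG hp hq hpq hA hV2 hV20 hm2
    have n1 : A ≤ NG (A ⊓ CG V1) := le_NG_inf (le_NG A) (le_NG_CG hV1.2)
    have n2 : A ≤ NG (A ⊓ CG V2) := le_NG_inf (le_NG A) (le_NG_CG hV2.2)
    have hB := hT (A ⊓ CG V1) (A ⊓ CG V2) inf_le_left inf_le_left n1 n2 c1 c2
    set B : Subgroup G := A ⊓ CG V1 ⊓ (A ⊓ CG V2) with hBdef
    have hBp : IsPGroup p B := hA.to_le (inf_le_left.trans inf_le_left)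
    have hH : NG B ≠ ⊤ := hG.NG_ne_top_of_p hp hB hBp
    have hAH : A ≤ NG B := le_NG_inf n1 n2
    have v1 : V1 ≤ NG B := (le_CG_comm.2 (inf_le_left.trans inf_le_right)).trans (CG_le_NG B)
    have v2 : V2 ≤ NG B := (le_CG_comm.2 (inf_le_right.trans inf_le_right)).trans (CG_le_NG B)
    obtain ⟨c, hc, S, -, hS, hS1, hS2⟩ := s20 hG hp hq hpq hH hA hAH hV1 v1 hV2 v2
    have e0 : Nat.card (K1 ⊓ K2 : Subgroup G) = 1 := by rw [hK0]; exact Subgroup.card_bot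
    refine s21_glue h1 h2 IH hc.2 hS hVK1 hVK2 hS1 hS2 ?_ ?_
    · rw [e0]; exact (Subgroup.one_lt_card_iff_ne_bot V1).2 hV10
    · rw [e0]; exact (Subgroup.one_lt_card_iff_ne_bot V2).2 hV20
  · -- nontrivial intersection
    have hq0 : IsPGroup q (K1 ⊓ K2 : Subgroup G) := q1.to_le inf_le_left
    have hH : NG (K1 ⊓ K2) ≠ ⊤ := hG.NG_ne_top_of_p hq hK0 hq0
    have hAH : A ≤ NG (K1 ⊓ K2) := le_NG_inf h1.1.2 h2.1.2
    have e1 : K1 ⊓ K2 ≠ K1 := by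
      intro he
      exact hEq (h1.2 K2 h2.1 (he ▸ inf_le_right)).symm
    have e2 : K1 ⊓ K2 ≠ K2 := by
      intro he
      exact hEq (h2.2 K1 h1.1 (he ▸ inf_le_left))
    obtain ⟨x1, hx1, hx1', hx1n⟩ := exists_normalizer_gt hq q1 inf_le_left e1
    obtain ⟨x2, hx2, hx2', hx2n⟩ := exists_normalizer_gt hq q2 inf_le_right e2
    have r1 : Inv A q (K1 ⊓ NG (K1 ⊓ K2)) :=
      ⟨q1.to_le inf_le_left, le_NG_inf h1.1.2 (le_NG_NG hAH)⟩
    have r2 : Inv A q (K2 ⊓ NG (K1 ⊓ K2)) :=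
      ⟨q2.to_le inf_le_left, le_NG_inf h2.1.2 (le_NG_NG hAH)⟩
    obtain ⟨c, hc, S, -, hS, hS1, hS2⟩ := s20 hG hp hq hpq hH hA hAH r1 inf_le_right r2 inf_le_right
    refine s21_glue h1 h2 IH hc.2 hS inf_le_left inf_le_left hS1 hS2 ?_ ?_
    · exact s21_card_lt (le_inf inf_le_left (le_NG _)) (mem_inf.2 ⟨hx1, hx1n⟩) hx1'
    · exact s21_card_lt (le_inf inf_le_right (le_NG _)) (mem_inf.2 ⟨hx2, hx2n⟩) hx2'

theorem s21 (hG : Hyp G) {p q : ℕ} (hp : p.Prime) (hq : q.Prime) (hpq : p ≠ q)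
    {A K1 K2 : Subgroup G} (hA : IsPGroup p A) (hT : Thick A) (h1 : MInv A q K1)
    (h2 : MInv A q K2) : ∃ c ∈ CG A, cj c K1 = K2 := by
  exact s21_aux hG hp hq hpq hA hT _ K1 K2 h1 h2 rfl

end

end H84.LA
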