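import Pool.Agent.H84.LA.S20

/-! # Module S21a (2.1, first part): thick groups; irreducible action is cyclic

`thick_of`: `A` not abelian: `A / A_i` cyclic gives `[A, A] ≤ A1 ⊓ A2`.  `A` abelian: take
`B ≤ A` elementary of order `p ^ 3`; `B / (B ⊓ A_i)` embeds in the cyclic group `A / A_i` and has
exponent `p`, so `|B : B ⊓ A_i| ≤ p`, hence `|B ⊓ A1 ⊓ A2| ≥ p`.

`cycq_irr`: `V` is a minimal `A`-invariant `q`-subgroup, so the kernel is `A1 = A ⊓ C(V)`.
`V A` is a proper subgroup (`V` is normal in it); `[A, A] ≤ Op p (V A)` (`Hyp.le_Op_of_le_comm`)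
centralises `V ≤ Op q (V A)`, so `A / A1` is abelian.  If `A / A1` is not cyclic it contains a
subgroup `E / A1` elementary abelian of order `p ^ 2`, acting faithfully on `V`; then some
`e ∈ E \ A1` has `C_V(e) ≠ 1` (C3 for the action of `E / A1` on `V`); `C_V(e)` is
`A`-invariant, as `[A, e] ≤ A1`, so `C_V(e) = V`, `e ∈ A1`: contradiction.
(For C3 with a kernel: choose `a, b ∈ E` generating `E` mod `A1`; the argument of C3 can be
repeated, or one uses `MulAut V`.)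
-/

namespace H84.LA

open Subgroup

section
variable {G : Type*} [Group G] [Finite G]

private theorem S21a_comm {A A1 : Subgroup G} (hn : A ≤ NG A1) (hc : CycQ A A1) {x y : G}
    (hx : x ∈ A) (hy : y ∈ A) : x * y * x⁻¹ * y⁻¹ ∈ A1 := by
  obtain ⟨a, ha, hk⟩ := hc
  obtain ⟨k, h1⟩ := hk x hx
  obtain ⟨l, h2⟩ := hk y hy
  set n1 := x * (a ^ k)⁻¹ with hn1
  set n2 := y * (a ^ l)⁻¹ with hn2
  have e1 : x = n1 * a ^ k := by rw [hn1]; group
  have e2 : y = n2 * a ^ l := by rw [hn2]; group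
  have hak : a ^ k ∈ NG A1 := hn (pow_mem ha k)
  have hal : a ^ l ∈ NG A1 := hn (pow_mem ha l)
  have m1 : a ^ k * n2 * (a ^ k)⁻¹ ∈ A1 := (mem_NG.1 hak n2).1 h2
  have m2 : a ^ l * n1⁻¹ * (a ^ l)⁻¹ ∈ A1 := (mem_NG.1 hal n1⁻¹).1 (inv_mem h1)
  have e3 : x * y * x⁻¹ * y⁻¹ =
      n1 * (a ^ k * n2 * (a ^ k)⁻¹) * (a ^ l * n1⁻¹ * (a ^ l)⁻¹) * n2⁻¹ := by
    rw [e1, e2]
    have : a ^ k * a ^ l = a ^ l * a ^ k := by rw [← pow_add, ← pow_add, add_comm]
    calc n1 * a ^ k * (n2 * a ^ l) * (n1 * a ^ k)⁻¹ * (n2 * a ^ l)⁻¹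
        = n1 * (a ^ k * n2 * (a ^ k)⁻¹) * (a ^ k * a ^ l) * (a ^ k)⁻¹ * n1⁻¹ * (a ^ l)⁻¹ * n2⁻¹ := by
          simp only [mul_inv_rev, mul_assoc, inv_mul_cancel_left]
      _ = n1 * (a ^ k * n2 * (a ^ k)⁻¹) * (a ^ l * n1⁻¹ * (a ^ l)⁻¹) * n2⁻¹ := by
          rw [this]
          simp only [mul_inv_rev, mul_assoc, mul_inv_cancel_left]
  rw [e3]
  exact mul_mem (mul_mem (mul_mem h1 m1) m2) (inv_mem h2)

private theorem S21a_card {p : ℕ} (hp : p.Prime) {A A1 B : Subgroup G} (hA1 : A1 ≤ A)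
    (hn : A ≤ NG A1) (hc : CycQ A A1) (hB : B ≤ A) (hBp : ∀ b ∈ B, b ^ p = 1) :
    Nat.card B ≤ p * Nat.card (B ⊓ A1 : Subgroup G) := by
  classical
  haveI : (A1.subgroupOf A).Normal := by
    rw [Subgroup.normal_subgroupOf_iff_le_normalizer hA1]
    exact hn
  set N := A1.subgroupOf A with hN
  obtain ⟨a, ha, hk⟩ := hc
  haveI : IsCyclic (A ⧸ N) := by
    refine ⟨⟨QuotientGroup.mk ⟨a, ha⟩, ?_⟩⟩
    intro x
    induction x using QuotientGroup.induction_on with
    | H b =>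
      obtain ⟨k, h1⟩ := hk b.1 b.2
      refine ⟨k, ?_⟩
      show (QuotientGroup.mk ⟨a, ha⟩ : A ⧸ N) ^ (k : ℤ) = QuotientGroup.mk b
      have h2 : b * (⟨a, ha⟩ ^ k : A)⁻¹ ∈ N := by
        rw [hN, Subgroup.mem_subgroupOf]
        simpa using h1
      rw [zpow_natCast, ← QuotientGroup.mk_pow]
      have h3 : (QuotientGroup.mk (b * (⟨a, ha⟩ ^ k : A)⁻¹) : A ⧸ N) = 1 := by
        rw [QuotientGroup.eq_one_iff]; exact h2
      rw [QuotientGroup.mk_mul, QuotientGroup.mk_inv, mul_inv_eq_one] at h3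
      exact h3.symm
  let f : B →* A ⧸ N := (QuotientGroup.mk' N).comp (Subgroup.inclusion hB)
  have hker : Nat.card f.ker = Nat.card (B ⊓ A1 : Subgroup G) := by
    have : f.ker = (B ⊓ A1).subgroupOf B := by
      ext x
      rw [MonoidHom.mem_ker, Subgroup.mem_subgroupOf, Subgroup.mem_inf]
      constructor
      · intro h
        refine ⟨x.2, ?_⟩
        have h2 : (QuotientGroup.mk (Subgroup.inclusion hB x) : A ⧸ N) = 1 := h
        rw [QuotientGroup.eq_one_iff, hN, Subgroup.mem_subgroupOf] at h2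
        exact h2
      · intro h
        have h2 : (QuotientGroup.mk (Subgroup.inclusion hB x) : A ⧸ N) = 1 := by
          rw [QuotientGroup.eq_one_iff, hN, Subgroup.mem_subgroupOf]
          exact h.2
        exact h2
    rw [this]
    exact Nat.card_congr (Subgroup.subgroupOfEquivOfLe inf_le_left).toEquiv
  have hrange : Nat.card f.range ≤ p := by
    haveI : Fintype (A ⧸ N) := Fintype.ofFinite _
    have h1 := IsCyclic.card_pow_eq_one_le (α := A ⧸ N) (n := p) hp.pos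
    refine le_trans ?_ h1
    rw [Nat.card_eq_fintype_card, Fintype.card_subtype]
    refine Finset.card_le_card ?_
    intro x hx
    rw [Finset.mem_filter] at hx ⊢
    refine ⟨Finset.mem_univ _, ?_⟩
    obtain ⟨b, rfl⟩ := hx.2
    rw [← map_pow]
    have : b ^ p = 1 := Subtype.ext (by simpa using hBp b.1 b.2)
    rw [this, map_one]
  have h3 : Nat.card B = Nat.card (B ⧸ f.ker) * Nat.card f.ker :=
    Subgroup.card_eq_card_quotient_mul_card_subgroup f.ker
  rw [h3, hker, Nat.card_congr (QuotientGroup.quotientKerEquivRange f).toEquiv]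
  exact Nat.mul_le_mul_right _ hrange

theorem thick_of {p : ℕ} (hp : p.Prime) {A : Subgroup G} (hA : IsPGroup p A)
    (h : ¬ Small p A) : Thick A := by
  intro A1 A2 hA1 hA2 hn1 hn2 hc1 hc2 hbot
  by_cases hab : Ab A
  · have h3 : Rk3 p A := by
      by_contra h3
      exact h ⟨hab, h3⟩
    obtain ⟨B, hBA, hB, hcB⟩ := h3
    have e1 := S21a_card hp hA1 hn1 hc1 hBA hB.1
    have e2 := S21a_card hp hA2 hn2 hc2 (B := B ⊓ A1) (inf_le_left.trans hBA)
      (fun b hb => hB.1 b hb.1)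
    have e3 : B ⊓ A1 ⊓ A2 = ⊥ := by
      rw [inf_assoc, hbot, inf_bot_eq]
    rw [e3, Subgroup.card_bot, mul_one] at e2
    rw [hcB] at e1
    have h4 : p ^ 3 ≤ p * p := e1.trans (Nat.mul_le_mul_left p e2)
    have h5 : p * p < p ^ 3 := by
      have := hp.two_le
      nlinarith [Nat.mul_pos hp.pos hp.pos]
    omega
  · rw [Ab] at hab
    push Not at hab
    obtain ⟨x, hx, y, hy, hne⟩ := hab
    have m1 := S21a_comm hn1 hc1 hx hy
    have m2 := S21a_comm hn2 hc2 hx hy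
    have m3 : x * y * x⁻¹ * y⁻¹ ∈ A1 ⊓ A2 := ⟨m1, m2⟩
    rw [hbot, Subgroup.mem_bot] at m3
    apply hne
    rw [mul_inv_eq_one, mul_inv_eq_iff_eq_mul] at m3
    exact m3

theorem cycq_irr (hG : Hyp G) {p q : ℕ} (hp : p.Prime) (hq : q.Prime) (hpq : p ≠ q)
    {A V : Subgroup G} (hA : IsPGroup p A) (hV : Inv A q V) (hV0 : V ≠ ⊥)
    (hmin : ∀ W : Subgroup G, Inv A q W → W ≤ V → W ≠ ⊥ → W = V) :
    CycQ A (A ⊓ CG V) := by
  classical
  -- `[A, A]` centralises `V`
  have hVtop : NG V ≠ ⊤ := hG.NG_ne_top_of_p hq hV0 hV.1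
  have hAN : A ≤ NG V := hV.2
  have hcomm : ∀ x ∈ A, ∀ y ∈ A, x * y * x⁻¹ * y⁻¹ ∈ CG V := by
    intro x hx y hy
    have h1 : ⁅A, A⁆ ≤ ⁅NG V, NG V⁆ := Subgroup.commutator_mono hAN hAN
    have h2 : ⁅A, A⁆ ≤ A := comm_le_left_iff.2 (le_NG A)
    have h3 : IsPGroup p (⁅A, A⁆ : Subgroup G) := hA.to_le h2
    have h4 : ⁅A, A⁆ ≤ Op p (NG V) := hG.le_Op_of_le_comm hp hVtop h1 h3
    have h5 : V ≤ Op q (NG V) := le_Op (le_NG V) hV.1 le_rfl
    exact CG_anti h5 (Op_comm hp hq hpq (NG V) (h4 (comm_mem hx hy)))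
  -- the action
  let Φ : A →* MulAut V := (V.normalizerMonoidHom).comp (Subgroup.inclusion hAN)
  have hΦ : ∀ (a : A) (v : V), ((Φ a v : V) : G) = a * v * (a : G)⁻¹ := fun a v => rfl
  have hker : ∀ a : A, Φ a = 1 → (a : G) ∈ CG V := by
    intro a ha
    rw [mem_CG]
    intro x hx
    have h1 := hΦ a ⟨x, hx⟩
    rw [ha] at h1
    have h2 : x = a * x * (a : G)⁻¹ := h1
    rw [eq_mul_inv_iff_mul_eq] at h2
    exact h2.symm
  haveI : Finite (MulAut V) :=
    Finite.of_injective (fun f : MulAut V => (f : V → V)) DFunLike.coe_injective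
  have hQp : IsPGroup p Φ.range :=
    IsPGroup.of_surjective hA Φ.rangeRestrict Φ.rangeRestrict_surjective
  by_cases hA0 : A = ⊥
  · refine ⟨1, one_mem _, fun b hb => ⟨0, ?_⟩⟩
    rw [hA0, Subgroup.mem_bot] at hb
    rw [hb]
    simp
  have hp2 : p ≠ 2 := by
    rintro rfl
    obtain ⟨x, hx, hox⟩ := exists_order_p hp hA hA0
    have h1 : 2 ∣ Nat.card G := hox ▸ orderOf_dvd_natCard x
    exact (Nat.not_even_iff_odd.2 hG.odd) (even_iff_two_dvd.2 h1)
  by_cases hR : Rk2 p Φ.range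
  · exfalso
    obtain ⟨E, hEQ, hE, hcE⟩ := hR
    -- holomorph
    let φ : MulAut V →* MulAut V := MonoidHom.id _
    let S := V ⋊[φ] (MulAut V)
    haveI : Finite S := Finite.of_equiv _ (SemidirectProduct.equivProd (φ := φ)).symm
    let E' : Subgroup S := E.map SemidirectProduct.inr
    let O : Subgroup S := (⊤ : Subgroup V).map SemidirectProduct.inl
    have hE' : ElAb p E' := by
      constructor
      · rintro _ ⟨e, he, rfl⟩
        rw [← map_pow, hE.1 e he, map_one]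
      · rintro _ ⟨e, he, rfl⟩ _ ⟨e', he', rfl⟩
        rw [← map_mul, ← map_mul, hE.2 e he e' he']
    have hcE' : Nat.card E' = p ^ 2 := by
      rw [← hcE]
      exact Nat.card_congr (E.equivMapOfInjective _ SemidirectProduct.inr_injective).symm.toEquiv
    have hO : IsPGroup q O := by
      have : IsPGroup q (⊤ : Subgroup V) := by
        intro x
        obtain ⟨k, hk⟩ := hV.1 x.1
        exact ⟨k, Subtype.ext hk⟩
      exact this.map _
    have hEO : E' ≤ NG O := by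
      rintro _ ⟨e, he, rfl⟩
      refine mem_NG_of ?_
      rintro _ ⟨v, -, rfl⟩
      refine ⟨e v, Subgroup.mem_top _, ?_⟩
      have h1 : (SemidirectProduct.inl (φ e v) : S) =
        SemidirectProduct.inr e * SemidirectProduct.inl v * SemidirectProduct.inr e⁻¹ :=
          SemidirectProduct.inl_aut e v
      rw [map_inv] at h1
      exact h1
    have key := fun X h => cop_noncyc (X := X) hp hq hpq hE' hcE' hO hEO h
    have hOne : ¬ O ≤ ⊥ := by
      intro h
      apply hV0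
      rw [eq_bot_iff]
      intro x hx
      have h1 : (SemidirectProduct.inl ⟨x, hx⟩ : S) ∈ O := ⟨⟨x, hx⟩, Subgroup.mem_top _, rfl⟩
      have h2 := h h1
      rw [Subgroup.mem_bot] at h2
      have h3 : (⟨x, hx⟩ : V) = 1 := SemidirectProduct.inl_injective (by rw [h2, map_one])
      rw [Subgroup.mem_bot]
      exact congrArg Subtype.val h3
    apply hOne
    apply key
    rintro _ ⟨e, he, rfl⟩ hne
    rintro _ ⟨⟨v, -, rfl⟩, hcx⟩
    rw [Subgroup.mem_bot]
    by_contra hv1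
    have hv1' : v ≠ 1 := fun h => hv1 (by rw [h, map_one])
    have hene : e ≠ 1 := fun h => hne (by rw [h, map_one])
    obtain ⟨a0, rfl⟩ := hEQ he
    have hfix : (Φ a0) v = v := by
      have h0 : (SemidirectProduct.inl v : S) * SemidirectProduct.inr (Φ a0) =
          SemidirectProduct.inr (Φ a0) * SemidirectProduct.inl v := mem_Cx.1 hcx
      have h1 : (SemidirectProduct.inl (φ (Φ a0) v) : S) =
        SemidirectProduct.inr (Φ a0) * SemidirectProduct.inl v * SemidirectProduct.inr (Φ a0)⁻¹ :=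
          SemidirectProduct.inl_aut (Φ a0) v
      rw [map_inv, ← h0, mul_inv_cancel_right] at h1
      exact SemidirectProduct.inl_injective h1
    have hfix' : (a0 : G) * v = v * a0 := by
      have h1 := hΦ a0 v
      rw [hfix, eq_mul_inv_iff_mul_eq] at h1
      exact h1.symm
    -- the fixed points
    set W : Subgroup G := V ⊓ Cx (a0 : G) with hW
    have hWV : W ≤ V := inf_le_left
    have hW0 : W ≠ ⊥ := by
      intro h
      have h1 : (v : G) ∈ W := ⟨v.2, mem_Cx.2 hfix'.symm⟩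
      rw [h, Subgroup.mem_bot] at h1
      exact hv1' (Subtype.ext h1)
    have hWinv : Inv A q W := by
      refine ⟨hV.1.to_le hWV, ?_⟩
      intro b hb
      refine mem_NG_of ?_
      rintro w ⟨hwV, hwC⟩
      refine ⟨(mem_NG.1 (hAN hb) w).1 hwV, ?_⟩
      replace hwC : w * a0 = a0 * w := mem_Cx.1 hwC
      show b * w * b⁻¹ ∈ Cx (a0 : G)
      rw [mem_Cx]
      -- `c = b⁻¹ a0 b a0⁻¹` centralises `V`
      have hc : b⁻¹ * a0 * b * (a0 : G)⁻¹ ∈ CG V := by
        have := hcomm b⁻¹ (inv_mem hb) a0 a0.2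
        rwa [inv_inv] at this
      have h2 := mem_CG.1 hc (a0 * w * (a0 : G)⁻¹) ((mem_NG.1 (hAN a0.2) w).1 hwV)
      have h3 : (a0 : G) * w * (a0 : G)⁻¹ = w := by
        rw [← hwC, mul_inv_cancel_right]
      rw [h3] at h2
      -- (b⁻¹ a0 b a0⁻¹) w = w (b⁻¹ a0 b a0⁻¹)
      have h4 : b⁻¹ * a0 * b * w = w * (b⁻¹ * a0 * b) := by
        calc b⁻¹ * a0 * b * w = b⁻¹ * a0 * b * (a0 : G)⁻¹ * (a0 * w) := by
              simp only [mul_assoc, inv_mul_cancel_left]
          _ = b⁻¹ * a0 * b * (a0 : G)⁻¹ * (w * a0) := by rw [hwC]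
          _ = (b⁻¹ * a0 * b * (a0 : G)⁻¹ * w) * a0 := by simp only [mul_assoc]
          _ = (w * (b⁻¹ * a0 * b * (a0 : G)⁻¹)) * a0 := by rw [h2]
          _ = w * (b⁻¹ * a0 * b) := by simp only [mul_assoc, inv_mul_cancel, mul_one]
      calc b * w * b⁻¹ * a0 = b * (w * (b⁻¹ * a0 * b)) * b⁻¹ := by
            simp only [mul_assoc, mul_inv_cancel, mul_one]
        _ = b * (b⁻¹ * a0 * b * w) * b⁻¹ := by rw [h4]
        _ = a0 * (b * w * b⁻¹) := by simp only [mul_assoc, mul_inv_cancel_left]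
    have hWeq : W = V := hmin W hWinv hWV hW0
    apply hene
    ext x
    rw [hΦ a0 x]
    have h1 : (x : G) ∈ W := by rw [hWeq]; exact x.2
    have h2 := mem_Cx.1 h1.2
    rw [← h2, mul_inv_cancel_right]
    rfl
  · obtain ⟨y, hy, hYy⟩ := isCyclic_of_not_Rk2 hp hp2 hQp hR
    obtain ⟨a, rfl⟩ := hy
    refine ⟨a, a.2, ?_⟩
    intro b hb
    have h1 : Φ ⟨b, hb⟩ ∈ zpowers (Φ a) := by
      rw [← hYy]
      exact ⟨⟨b, hb⟩, rfl⟩
    rw [← mem_powers_iff_mem_zpowers] at h1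
    obtain ⟨k, hk⟩ := h1
    refine ⟨k, Subgroup.mem_inf.2 ⟨?_, ?_⟩⟩
    · exact mul_mem hb (inv_mem (pow_mem a.2 k))
    · have h2 : Φ (⟨b, hb⟩ * (a ^ k)⁻¹) = 1 := by
        rw [map_mul, map_inv, map_pow, ← hk]
        exact mul_inv_cancel _
      have h3 := hker _ h2
      simpa using h3

end

end H84.LA
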