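import Pool.Agent.H84.LA.S21

/-! # Module S22 (2.2, 2.3): `P` not abelian of rank `≤ 2`

`s22`: `K ≤ K'` maximal `P`-invariant; we may assume `K` maximal and `K ≠ 1`.  For `m ∈ N(P)`,
`cj m K` is in `MInv P q`, so `cj m K = cj c K`, `c ∈ C(P)` (`s21`, `thick_of`), i.e.
`m = c n` with `n ∈ N(P) ⊓ N(K)`.  So `P = [P, N(P)] = [P, N(P) ⊓ N(K)]` (`s14`; `C(P)`
centralises `P`: `[x, c n]` for `x ∈ P`), which is in `[N(K), N(K)]`; `P` is a `p`-group, so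
`P ≤ Op p (N(K))` (`Hyp.le_Op_of_le_comm`) centralises `K ≤ Op q (N(K))`.
`s23`: `P` is Sylow in `H`, `H ≤ Opp p H (H ⊓ N(P))` (`s11le`) and every `Op q H` is
`P`-invariant, so in `C(P) ≤ N(P)` by `s22`.
-/

namespace H84.LA

open Subgroup

section
variable {G : Type*} [Group G] [Finite G]

theorem s22 (hG : Hyp G) {p q : ℕ} (hq : q.Prime) (hpq : p ≠ q) {P K : Subgroup G}
    (hP : IsS p P) (hS : ¬ Small p P) (hK : Inv P q K) : K ≤ CG P := by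
  have hp := hP.prime
  have hPp := hP.isPGroup
  obtain ⟨K', hK', hKK⟩ := hK.exists_MInv
  refine hKK.trans ?_
  by_cases hb : K' = ⊥
  · rw [hb]
    exact bot_le
  have hH : NG K' ≠ ⊤ := hG.NG_ne_top_of_p hq hb hK'.1.1
  have hPK : P ≤ NG K' := hK'.1.2
  have hT : Thick P := thick_of hp hPp hS
  have hPle : P ≤ ⁅NG K', NG K'⁆ := by
    rw [← s14 hG hP, Subgroup.commutator_le]
    intro x hx m hm
    have h1 : MInv P q (cj m K') := by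
      have h2 := (MInv_cj (q := q) (A := P) (K := K') m).2 hK'
      rwa [cj_of_mem_NG hm] at h2
    obtain ⟨c, hc, hce⟩ := s21 hG hp hq hpq hPp hT hK' h1
    have hn : c⁻¹ * m ∈ NG K' := by
      rw [mem_NG_iff_cj, cj_mul, ← hce, cj_inv_cj]
    have hnP : c⁻¹ * m ∈ NG P := mul_mem (inv_mem (CG_le_NG P hc)) hm
    have h3 : x * (c⁻¹ * m) * x⁻¹ * (c⁻¹ * m)⁻¹ ∈ ⁅NG K', NG K'⁆ :=
      comm_mem (hPK hx) hn
    have h4 : x * (c⁻¹ * m) * x⁻¹ * (c⁻¹ * m)⁻¹ ∈ P := by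
      have h5 : (c⁻¹ * m) * x⁻¹ * (c⁻¹ * m)⁻¹ ∈ P := (mem_NG.1 hnP _).1 (inv_mem hx)
      have h6 := mul_mem hx h5
      simpa [mul_assoc] using h6
    have hcx : c * x = x * c := mem_CG.1 hc x hx
    have hcy := mem_CG.1 hc _ h4
    have h7 : x * m * x⁻¹ * m⁻¹ = x * (c⁻¹ * m) * x⁻¹ * (c⁻¹ * m)⁻¹ := by
      have h8 : x * m * x⁻¹ * m⁻¹ = c * (x * (c⁻¹ * m) * x⁻¹ * (c⁻¹ * m)⁻¹) * c⁻¹ := by
        have h9 : c * (x * (c⁻¹ * m) * x⁻¹ * (c⁻¹ * m)⁻¹) * c⁻¹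
            = (c * x) * c⁻¹ * m * x⁻¹ * m⁻¹ := by group
        rw [h9, hcx]
        group
      rw [h8, hcy]
      group
    change x * m * x⁻¹ * m⁻¹ ∈ _
    rw [h7]
    exact h3
  have hPO : P ≤ Op p (NG K') := hG.le_Op_of_le_comm hp hH hPle hPp
  have hKO : K' ≤ Op q (NG K') := le_Op (le_NG K') hK'.1.1 le_rfl
  exact hKO.trans ((Op_comm hq hp (Ne.symm hpq) (NG K')).trans (CG_anti hPO))

/-- such a `P` is in only one maximal subgroup -/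
theorem s23 (hG : Hyp G) {p : ℕ} {P H : Subgroup G} (hP : IsS p P) (hS : ¬ Small p P)
    (hH : H ≠ ⊤) (h : P ≤ H) : H ≤ NG P := by
  refine s11le hG hP.prime hH (hP.sylIn h) ?_ inf_le_right
  rw [Opp_le_iff]
  intro q hq hqp
  exact (s22 hG hq (Ne.symm hqp) hP hS (inv_Op hq h)).trans (CG_le_NG P)

end

end H84.LA
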