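import Pool.Agent.H84.LA.S22

/-! # Module S24 (2.4): a maximal `P`-invariant `q`-subgroup not centralised by `P` is Sylow

`N = N(K) ≠ ⊤`, `Op q N = K` (it is `P`-invariant and contains `K`), `P ≤ N`,
`N = Opp p N (N ⊓ N(P))` (`s11`).  `P` is abelian (`s22`: `Small p P`).
Suppose `K` is not a Sylow `q`-subgroup of `G`; then `K` is not Sylow in `N` (normalisers grow).
`Opp p N = K × (q'-part)`; so some `q`-element `w ∈ N ⊓ N(P)` is not in `K`
[if all `q`-elements of `N ⊓ N(P)` were in `K`: a Sylow `q`-subgroup of `N` has order the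
`q`-part of `|N|`, and `N / Opp p N` is a quotient of `N ⊓ N(P)`; alternatively: let
`Q0 ≥ (Sylow q of N ⊓ N(P))`...].  Convenient: let `W` be a Sylow `q`-subgroup of `N ⊓ N(P)`; then
`K ⊔ W` is a Sylow `q`-subgroup of `N` (index: `N = Opp p N (N ⊓ N(P))`, and the Sylow
`q`-subgroup of `Opp p N` is `Op q N = K`), so `W` is not inside `K`.  `W` does not centralise `P`
(else `K ⊔ W` is a `P`-invariant `q`-group, so `= K`).  `[P, W] ≤ P ⊓ [N, N] ≤ Op p N`
(`Hyp.comm_le_Op`) centralises `K = Op q N`.  `P = C_P(W) × [P, W]` (`cop_gen`, `cop_abel`, with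
`R = P`, `A = W`), both factors are normalised by `N(P)`: for `m ∈ N(P)`: `[N(P), N(P)]`
centralises `P` (`[N(P), N(P)]` is nilpotent; its `p`-part is in `P`, abelian, its `q'`-parts are
in `Op s (N(P))`, `s ≠ p`, centralising `P = Op p (N(P))`), so `cj m` maps `C_P(W)` to itself and
`[P, W]` to itself.  `[P, W] ≠ 1` is normalised by `N(P)`, so `N([P, W]) = N(P)` (`s15d`) and
`K ≤ C([P, W]) ≤ N(P)`, so `[K, P] ≤ K ⊓ P = 1`, contradiction.
-/

namespace H84.LA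

open Subgroup

section
variable {G : Type*} [Group G] [Finite G]

/-- `P` abelian: `[N(P), N(P)]` centralises `P` -/
theorem s24ab (hG : Hyp G) {p : ℕ} {P : Subgroup G} (hP : IsS p P) (hab : Ab P) :
    ⁅NG P, NG P⁆ ≤ CG P := by
  have h1 : ⁅NG P, NG P⁆ ≤ Op p (NG P) ⊔ Opp p (NG P) := hG.comm_le hP.prime (s15ne hG hP)
  have h2 : Op p (NG P) = P := s15c hG hP
  have h3 : Opp p (NG P) ≤ CG (Op p (NG P)) := Opp_comm hP.prime (NG P)
  rw [h2] at h1 h3
  have h4 : P ≤ CG P := fun a ha => mem_CG.mpr fun b hb => hab a ha b hb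
  exact h1.trans (sup_le h4 h3)

/-- `P` abelian, `W ≤ N(P)` any subgroup: `C_P(W)` and `[P, W]` are normalised by `N(P)` -/
theorem s24inv (hG : Hyp G) {p : ℕ} {P W : Subgroup G} (hP : IsS p P) (hab : Ab P)
    (hW : W ≤ NG P) : NG P ≤ NG (P ⊓ CG W) ∧ NG P ≤ NG ⁅P, W⁆ := by
  have hN := s24ab hG hP hab
  constructor
  · intro m hm
    refine mem_NG_of fun x hx => ?_
    have hxP : x ∈ P := hx.1
    have hxW : ∀ w ∈ W, x * w = w * x := mem_CG.mp hx.2
    refine ⟨(mem_NG.mp hm x).mp hxP, ?_⟩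
    refine mem_CG.mpr fun w hw => ?_
    have hc : m⁻¹ * w * m * w⁻¹ ∈ CG P := by
      refine hN ?_
      have := comm_mem (A := NG P) (B := NG P) (inv_mem hm) (hW hw)
      simpa using this
    have hcx := mem_CG.mp hc x hxP
    have h1 := hxW w hw
    -- `w m = m c w`
    have h2 : w * m = m * (m⁻¹ * w * m * w⁻¹) * w := by group
    have h3 : w * (m * x * m⁻¹) = m * x * m⁻¹ * w := by
      have h4 : w * (m * x * m⁻¹) = (w * m) * x * m⁻¹ := by group
      rw [h4, h2]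
      have h5 : m * (m⁻¹ * w * m * w⁻¹) * w * x * m⁻¹
          = m * ((m⁻¹ * w * m * w⁻¹) * (w * x)) * m⁻¹ := by group
      rw [h5, ← h1]
      have h6 : m * ((m⁻¹ * w * m * w⁻¹) * (x * w)) * m⁻¹
          = m * (((m⁻¹ * w * m * w⁻¹) * x) * w) * m⁻¹ := by group
      rw [h6, hcx]
      group
    exact h3.symm
  · intro m hm
    refine mem_NG_of fun y hy => ?_
    have hle : ⁅P, W⁆ ≤ cj m⁻¹ ⁅P, W⁆ := by
      rw [Subgroup.commutator_le]
      intro x hx w hw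
      rw [mem_cj]
      have hx' : m * x * m⁻¹ ∈ P := (mem_NG.mp hm x).mp hx
      have hc : w⁻¹ * m * w * m⁻¹ ∈ CG P := by
        refine hN ?_
        have := comm_mem (A := NG P) (B := NG P) (inv_mem (hW hw)) hm
        simpa using this
      have hcx := mem_CG.mp hc (m * x⁻¹ * m⁻¹) ((mem_NG.mp hm x⁻¹).mp (inv_mem hx))
      have h1 : m⁻¹⁻¹ * (x * w * x⁻¹ * w⁻¹) * m⁻¹
          = (m * x * m⁻¹) * w * (m * x * m⁻¹)⁻¹ * w⁻¹ := by
        have e1 : m⁻¹⁻¹ * (x * w * x⁻¹ * w⁻¹) * m⁻¹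
            = (m * x * m⁻¹) * w * ((w⁻¹ * m * w * m⁻¹) * (m * x⁻¹ * m⁻¹)) *
              (w⁻¹ * m * w * m⁻¹)⁻¹ * w⁻¹ := by group
        rw [e1, hcx]
        group
      change m⁻¹⁻¹ * (x * w * x⁻¹ * w⁻¹) * m⁻¹ ∈ ⁅P, W⁆
      rw [h1]
      exact comm_mem hx' hw
    have := hle hy
    rw [mem_cj] at this
    simpa using this

/-- a `q`-element of the product of two commuting subgroups, the first a `q`-group, the second of
order prime to `q`, is in the first -/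
private theorem s24q {q : ℕ} (hq : q.Prime) {K F : Subgroup G} (hK : IsPGroup q K)
    (hF : ¬ q ∣ Nat.card F) (hc : F ≤ CG K) {y : G} (hy : y ∈ K ⊔ F) (hyq : El q y) : y ∈ K := by
  have hn : F ≤ NG K := hc.trans (CG_le_NG K)
  obtain ⟨a, ha, b, hb, rfl⟩ := (mem_sup_of_NG hn).mp hy
  obtain ⟨k, hk⟩ := hyq
  have hcomm : Commute a b := (mem_CG.mp (hc hb) a ha).symm
  obtain ⟨j, hj⟩ := El.of_mem hK ha
  have hb1 : b ^ q ^ (k + j) = 1 := by
    have h1 : (a * b) ^ q ^ (k + j) = 1 := by rw [pow_add, pow_mul, hk, one_pow]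
    rw [hcomm.mul_pow] at h1
    have h2 : a ^ q ^ (k + j) = 1 := by rw [add_comm, pow_add, pow_mul, hj, one_pow]
    rwa [h2, one_mul] at h1
  have hd1 : orderOf b ∣ q ^ (k + j) := orderOf_dvd_of_pow_eq_one hb1
  have hd2 : orderOf b ∣ Nat.card F := by
    have := orderOf_dvd_natCard (⟨b, hb⟩ : F)
    rwa [Subgroup.orderOf_mk] at this
  have hcop : Nat.Coprime (q ^ (k + j)) (Nat.card F) :=
    Nat.Coprime.pow_left _ ((Nat.Prime.coprime_iff_not_dvd hq).mpr hF)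
  have h1 : orderOf b = 1 := Nat.eq_one_of_dvd_coprimes hcop hd1 hd2
  have hb0 : b = 1 := orderOf_eq_one_iff.mp h1
  rw [hb0, mul_one]
  exact ha

/-- powers of `f b` modulo a subgroup normalised by `b` -/
private theorem s24pow {F : Subgroup G} {f b : G} (hf : f ∈ F) (hb : b ∈ NG F) (m : ℕ) :
    ∃ f' ∈ F, (f * b) ^ m = f' * b ^ m := by
  induction m with
  | zero => exact ⟨1, one_mem _, by simp⟩
  | succ m ih =>
    obtain ⟨f', hf', h⟩ := ih
    have hbm : b ^ m ∈ NG F := pow_mem hb m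
    refine ⟨f' * (b ^ m * f * (b ^ m)⁻¹), mul_mem hf' ((mem_NG.mp hbm f).mp hf), ?_⟩
    rw [pow_succ, h, pow_succ]
    group

/-- the key step: if all `q`-elements of `L` are in `K = Op q N`, `N = Opp p N L`, then all
`q`-elements of `N` are in `K` -/
private theorem s24el {p q : ℕ} (hq : q.Prime) (hpq : p ≠ q) {N L : Subgroup G}
    (hN : ∀ h ∈ N, ∃ f ∈ Opp p N, ∃ n ∈ L, h = f * n) (hLN : L ≤ N)
    (hL : ∀ w ∈ L, El q w → w ∈ Op q N) {x : G} (hx : x ∈ N) (hxq : El q x) : x ∈ Op q N := by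
  have hF1 : Opp p N ≤ Op q N ⊔ Opp q N := by
    rw [Opp_le_iff]
    intro r hr _
    by_cases h : r = q
    · subst h
      exact le_sup_left
    · exact (Op_le_Opp hr h N).trans le_sup_right
  have hF2 : ∀ y ∈ Opp p N, El q y → y ∈ Op q N := fun y hy hyq =>
    s24q hq (Op_isPGroup hq N) (Opp_card hq N) (Opp_comm hq N) (hF1 hy) hyq
  refine hF2 x ?_ hxq
  obtain ⟨f, hf, n, hn, rfl⟩ := hN x hx
  obtain ⟨a, b, ⟨i, hi⟩, ⟨j, hj⟩, hab, hqa, hqb⟩ := exists_parts hq n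
  have haL : a ∈ L := hi ▸ pow_mem hn i
  have hbL : b ∈ L := hj ▸ pow_mem hn j
  have haF : a ∈ Opp p N := Op_le_Opp hq (Ne.symm hpq) N (hL a haL hqa)
  have hfa : f * a ∈ Opp p N := mul_mem hf haF
  have hbN : b ∈ NG (Opp p N) := Opp_norm p N (hLN hbL)
  obtain ⟨k, hk⟩ := hxq
  obtain ⟨f', hf', h'⟩ := s24pow hfa hbN (q ^ k)
  have e : f * n = f * a * b := by rw [hab, mul_assoc]
  rw [e] at hk ⊢
  rw [hk] at h'
  have hbk : b ^ q ^ k ∈ Opp p N := by
    have : b ^ q ^ k = f'⁻¹ := by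
      rw [eq_inv_iff_mul_eq_one]
      have h2 : f' * b ^ q ^ k = 1 := h'.symm
      exact mul_eq_one_iff_eq_inv'.mp h2 ▸ by simp
    rw [this]
    exact inv_mem hf'
  have hcop : Nat.Coprime (q ^ k) (orderOf b) :=
    Nat.Coprime.pow_left _ ((Nat.Prime.coprime_iff_not_dvd hq).mpr hqb)
  have hb : b ∈ Opp p N := by
    obtain ⟨m, hm⟩ := exists_pow_eq_self_of_coprime hcop
    rw [← hm]
    exact pow_mem hbk m
  exact mul_mem hfa hb

theorem s24 (hG : Hyp G) {p q : ℕ} (hq : q.Prime) (hpq : p ≠ q) {P K : Subgroup G}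
    (hP : IsS p P) (hK : MInv P q K) (hc : ¬ K ≤ CG P) : IsS q K := by
  have hp := hP.prime
  have hKq : IsPGroup q K := hK.1.1
  have hPK : P ≤ NG K := hK.1.2
  have hK0 : K ≠ ⊥ := by
    rintro rfl
    exact hc bot_le
  have hab : Ab P := by
    by_contra h
    exact hc (s22 hG hq hpq hP (fun hs => h hs.1) hK.1)
  have hNt : NG K ≠ ⊤ := hG.NG_ne_top_of_p hq hK0 hKq
  have hO : Op q (NG K) = K :=
    hK.2 _ (inv_Op hq hPK) (le_Op (le_NG K) hKq le_rfl)
  have hdvd : q ∣ Nat.card G := by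
    obtain ⟨x, hx, hox⟩ := exists_order_p hq hKq hK0
    rw [← hox]
    exact orderOf_dvd_natCard x
  refine ⟨hq, hdvd, ?_⟩
  by_contra hns
  -- a `q`-element of `N(K)` outside `K`
  obtain ⟨S, hS, hKS⟩ := SylIn.exists_ge (p := q) (H := (⊤ : Subgroup G)) hKq le_top
  have hne : K ≠ S := by
    rintro rfl
    exact hns hS
  obtain ⟨x, hxS, hxK, hxN⟩ := exists_normalizer_gt hq hS.2.1 hKS hne
  have hxq : El q x := El.of_mem hS.2.1 hxS
  -- a `q`-element of `N(K) ⊓ N(P)` outside `K`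
  have hw : ∃ w ∈ NG K ⊓ NG P, El q w ∧ w ∉ K := by
    by_contra hcon
    push Not at hcon
    refine hxK ?_
    have hfr : ∀ h ∈ NG K, ∃ f ∈ Opp p (NG K), ∃ n ∈ NG K ⊓ NG P, h = f * n :=
      fun h hh => s11 hG hp hNt (hP.sylIn hPK) hh
    have := s24el hq hpq hfr inf_le_left
      (fun w hw hwq => by rw [hO]; exact hcon w hw hwq) hxN hxq
    rwa [hO] at this
  obtain ⟨w, hwL, hwq, hwK⟩ := hw
  have hWq : IsPGroup q (zpowers w) := hwq.isPGroup
  have hWK : zpowers w ≤ NG K := by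
    rw [zpowers_le]
    exact hwL.1
  have hWP : zpowers w ≤ NG P := by
    rw [zpowers_le]
    exact hwL.2
  -- `W` does not centralise `P`
  have hnc : ¬ zpowers w ≤ CG P := by
    intro hcW
    have hsup : IsPGroup q (K ⊔ zpowers w : Subgroup G) :=
      IsPGroup.to_sup_of_normal_left' hKq hWq hWK
    have hPW : P ≤ NG (zpowers w) := (le_CG_comm.mp hcW).trans (CG_le_NG _)
    have h1 := hK.2 (K ⊔ zpowers w) ⟨hsup, le_NG_sup hPK hPW⟩ le_sup_left
    have h2 : zpowers w ≤ K := by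
      calc zpowers w ≤ K ⊔ zpowers w := le_sup_right
        _ = K := h1
    exact hwK (h2 (mem_zpowers w))
  have hX0 : ⁅P, zpowers w⁆ ≠ ⊥ := by
    intro h0
    exact hnc (le_CG_comm.mp (comm_eq_bot_iff.mp h0))
  have hX1 : ⁅P, zpowers w⁆ ≤ Op p (NG K) :=
    hG.comm_le_Op hp hNt hP.isPGroup hPK hWK hWP
  have hX2 : K ≤ CG ⁅P, zpowers w⁆ := by
    rw [le_CG_comm]
    have := Op_comm hp hq hpq (NG K)
    rw [hO] at this
    exact hX1.trans this
  have hX3 : ⁅P, zpowers w⁆ ≤ P := comm_le_left_iff.mpr hWP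
  have hX4 : NG ⁅P, zpowers w⁆ = NG P :=
    s15d hG hP hX0 (hX3.trans (le_NG P)) (s24inv hG hP hab hWP).2
  have hKP : K ≤ NG P := by
    rw [← hX4]
    exact hX2.trans (CG_le_NG _)
  exact hc (comm_of_inf_bot hPK hKP (isPGroup_inf_bot hq hp (Ne.symm hpq) hKq hP.isPGroup))

/-- hence a `P`-invariant `q`-subgroup not centralised by `P` lies in some `Q` with `Arr P Q` -/
theorem s24arr (hG : Hyp G) {p q : ℕ} (hq : q.Prime) (hpq : p ≠ q) {P K : Subgroup G}
    (hP : IsS p P) (hK : Inv P q K) (hc : ¬ K ≤ CG P) : ∃ Q, Arr p q P Q ∧ K ≤ Q := by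
  obtain ⟨Q, hQ, hKQ⟩ := hK.exists_MInv
  have hc' : ¬ Q ≤ CG P := fun h => hc (hKQ.trans h)
  exact ⟨Q, ⟨hP, s24 hG hq hpq hP hQ hc', hpq, hQ.1.2, hc'⟩, hKQ⟩

end

end H84.LA
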