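import Pool.Agent.H84.LA.S24

/-! # Module S25 (2.5): properties of `Arr p q P Q`

`s25s`: `s22`.  `s25a`: if `X` is centralised by `Q` then `Q ≤ C(X) ≤ N(X) = N(P)` (`s15d`), and
`[P, Q] ≤ P ⊓ Q = 1`.
`s25b`: an elementary abelian `B ≤ P ⊓ C(Q)` of order `p ^ 2` is normalised by `N(P)`
(`Omega_eq`), contradiction to `s25a`.
`s25c`: if `¬ Rk2 p P` and `P ⊓ C(Q) ≠ 1` then it contains the unique subgroup of order `p` of
`P` (`zpowers_eq_of_not_Rk2`), normalised by `N(P)`.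
`s25d`: by `le_of_El` take an `s`-element `m ∈ N(P) ⊓ N(Q)`.  `s = p`: `m ∈ P` (`IsS.mem_of_El`),
`P` abelian.  `s ≠ p`: `W = ⟨m⟩`, `[P, W] ≤ Op p (N(Q))` (`Hyp.comm_le_Op`, `P, W ≤ N(Q)`)
centralises `Q` (`Op q (N(Q)) = Q`); `[P, W]` is normalised by `N(P)` (`s24inv`), so it is trivial
by `s25a`.
-/

namespace H84.LA

open Subgroup

section
variable {G : Type*} [Group G] [Finite G]

theorem s25s (hG : Hyp G) {p q : ℕ} {P Q : Subgroup G} (h : Arr p q P Q) : Small p P := by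
  by_contra hS
  exact h.nc (s22 hG h.isQ.prime h.ne h.isP hS ⟨h.isQ.isPGroup, h.le⟩)

theorem s25a (hG : Hyp G) {p q : ℕ} {P Q X : Subgroup G} (h : Arr p q P Q) (h1 : X ≠ ⊥)
    (h2 : X ≤ P) (h3 : NG P ≤ NG X) : ¬ Q ≤ CG X := by
  intro hQ
  have hX : NG X = NG P := s15d hG h.isP h1 (h2.trans (le_NG P)) h3
  have hQP : Q ≤ NG P := by rw [← hX]; exact hQ.trans (CG_le_NG X)
  exact h.nc (comm_of_coprime h.le hQP
    (isPGroup_card_coprime h.isQ.prime h.isP.prime h.ne.symm h.isQ.isPGroup h.isP.isPGroup))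

theorem s25b (hG : Hyp G) {p q : ℕ} {P Q : Subgroup G} (h : Arr p q P Q) :
    ¬ Rk2 p (P ⊓ CG Q) := by
  rintro ⟨B, hB, hE, hc⟩
  have hS := s25s hG h
  have hO := Omega_eq h.isP.prime hS.1 hS.2 (hB.trans inf_le_left) hE hc
  have hB0 : B ≠ ⊥ := by
    rintro rfl
    rw [Subgroup.card_bot] at hc
    have := Nat.one_lt_pow (n := 2) (by norm_num) h.isP.prime.one_lt
    omega
  exact s25a hG h hB0 (hB.trans inf_le_left) hO.2 (le_CG_comm.2 (hB.trans inf_le_right))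

theorem s25c (hG : Hyp G) {p q : ℕ} {P Q : Subgroup G} (h : Arr p q P Q) (h2 : ¬ Rk2 p P) :
    P ⊓ CG Q = ⊥ := by
  by_contra hne
  obtain ⟨x, hx, hox⟩ := exists_order_p h.isP.prime (h.isP.isPGroup.to_le inf_le_left) hne
  have hxP : x ∈ P := hx.1
  have hN : NG P ≤ NG (zpowers x) := by
    intro m hm
    rw [mem_NG_iff_cj, cj_zpowers]
    refine zpowers_eq_of_not_Rk2 h.isP.prime h.isP.isPGroup h2 ((mem_NG.1 hm x).1 hxP) hxP ?_ hox
    rw [← hox]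
    exact (MulAut.conj m).orderOf_eq x
  have h0 : zpowers x ≠ ⊥ := by
    intro hb
    rw [Subgroup.zpowers_eq_bot] at hb
    rw [hb, orderOf_one] at hox
    exact h.isP.prime.one_lt.ne hox
  exact s25a hG h h0 ((zpowers_le).2 hxP) hN (le_CG_comm.2 ((zpowers_le).2 hx.2))

theorem s25d (hG : Hyp G) {p q : ℕ} {P Q : Subgroup G} (h : Arr p q P Q) :
    NG P ⊓ NG Q ≤ CG P := by
  have hS := s25s hG h
  have hW : NG P ⊓ NG Q ≤ NG P := inf_le_left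
  have h1 : ⁅P, NG P ⊓ NG Q⁆ ≤ Op p (NG Q) :=
    hG.comm_le_Op h.isP.prime (s15ne hG h.isQ) h.isP.isPGroup h.le inf_le_right hW
  have h2 : ⁅P, NG P ⊓ NG Q⁆ ≤ CG Q := by
    have h3 := h1.trans (Op_comm h.isP.prime h.isQ.prime h.ne (NG Q))
    rwa [s15c hG h.isQ] at h3
  have h4 := (s24inv hG h.isP hS.1 hW).2
  have h5 : ⁅P, NG P ⊓ NG Q⁆ ≤ P := comm_le_left_iff.2 hW
  by_cases h0 : ⁅P, NG P ⊓ NG Q⁆ = ⊥
  · exact le_CG_comm.1 (comm_eq_bot_iff.1 h0)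
  · exact absurd (le_CG_comm.2 h2) (s25a hG h h0 h5 h4)

/-- `Q` is not contained in `N(P)` -/
theorem s25e (hG : Hyp G) {p q : ℕ} {P Q : Subgroup G} (h : Arr p q P Q) : ¬ Q ≤ NG P := by
  intro hQP
  exact h.nc (comm_of_coprime h.le hQP
    (isPGroup_card_coprime h.isQ.prime h.isP.prime h.ne.symm h.isQ.isPGroup h.isP.isPGroup))

end

end H84.LA
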