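import Pool.Agent.H84.LA.S25

/-! # Module S26a (2.6, preparations)

`P` Sylow with `Rk3 p P`, `A2 ≤ P` normal elementary abelian of order `p ^ 2`, `R = C_P(A2)`.
`s26R`: `R` is normal in `P`, `C_P(R) ≤ R`, `R` is not abelian of rank `≤ 2`.
[Let `B ≤ P` be elementary abelian of order `p ^ 3`.  `|B ⊓ R| ≥ p ^ 2` (`card_inf_CG`).
`(B ⊓ R) ⊔ A2` is elementary abelian (`A2` is central in `R`), contained in `R`.  If
`¬ Rk3 p R` it has order `p ^ 2`, so `B ⊓ R ≤ A2`, and `= A2`; then `B` centralises `A2`, so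
`B ≤ R`, contradiction.]
-/

namespace H84.LA

open Subgroup

/-- the situation of 2.6 -/
structure R26 {G : Type*} [Group G] (p : ℕ) (P A2 : Subgroup G) : Prop where
  isS : IsS p P
  rk : Rk3 p P
  le : A2 ≤ P
  nrm : P ≤ NG A2
  el : ElAb p A2
  card : Nat.card A2 = p ^ 2

section
variable {G : Type*} [Group G] [Finite G]

theorem R26.exists_A2 (hG : Hyp G) {p : ℕ} {P : Subgroup G} (hP : IsS p P) (h3 : Rk3 p P) :
    ∃ A2, R26 p P A2 := by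
  obtain ⟨A2, h1, h2, h4, h5⟩ :=
    exists_normal_elAb2 hP.prime (hG.odd_prime hP) hP.isPGroup (h3.rk2 hP.prime)
  exact ⟨A2, ⟨hP, h3, h1, h2, h4, h5⟩⟩

theorem R26.norm {p : ℕ} {P A2 : Subgroup G} (h : R26 p P A2) : P ≤ NG (P ⊓ CG A2) :=
  le_NG_inf (le_NG P) (le_NG_CG h.nrm)

private theorem R26.A2_le_aux {p : ℕ} {P A2 : Subgroup G} (h : R26 p P A2) :
    A2 ≤ P ⊓ CG A2 :=
  le_inf h.le (fun a ha => mem_CG.2 (fun x hx => h.el.2 a ha x hx))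

theorem R26.cent {p : ℕ} {P A2 : Subgroup G} (h : R26 p P A2) :
    P ⊓ CG (P ⊓ CG A2) ≤ P ⊓ CG A2 :=
  inf_le_inf_left _ (CG_anti h.A2_le_aux)

theorem R26.A2_le {p : ℕ} {P A2 : Subgroup G} (h : R26 p P A2) : A2 ≤ P ⊓ CG A2 :=
  h.A2_le_aux

private theorem R26.card_inf_aux {p : ℕ} {P A2 B : Subgroup G} (h : R26 p P A2)
    (hB : ElAb p B) (hc : Nat.card B = p ^ 3) (hBP : B ≤ P) :
    p ^ 2 ≤ Nat.card (B ⊓ (P ⊓ CG A2) : Subgroup G) := by
  have hp := h.isS.prime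
  have h1 := card_inf_CG hp h.el h.card hB (hBP.trans h.nrm)
  have h2 : B ⊓ (P ⊓ CG A2) = B ⊓ CG A2 := by
    rw [← inf_assoc, inf_eq_left.2 hBP]
  rw [h2]
  rw [hc, pow_succ, mul_comm] at h1
  exact Nat.le_of_mul_le_mul_left h1 hp.pos

theorem R26.not_small {p : ℕ} {P A2 : Subgroup G} (h : R26 p P A2) : ¬ Small p (P ⊓ CG A2) := by
  rintro ⟨-, h3⟩
  have hp := h.isS.prime
  obtain ⟨B, hBP, hB, hc⟩ := h.rk
  have h1 := h.card_inf_aux hB hc hBP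
  set D : Subgroup G := B ⊓ (P ⊓ CG A2) with hD
  have hDA : D ≤ CG A2 := inf_le_right.trans inf_le_right
  have hJ : ElAb p (D ⊔ A2) := (hB.mono inf_le_left).sup h.el hDA
  have hJR : D ⊔ A2 ≤ P ⊓ CG A2 := sup_le inf_le_right h.A2_le_aux
  have h4 : Nat.card (D ⊔ A2 : Subgroup G) ≤ p ^ 2 := by
    by_contra hcon
    exact h3 (Rk3.of_card hp hJR hJ (not_le.1 hcon))
  have e1 : D = D ⊔ A2 := Subgroup.eq_of_le_of_card_ge le_sup_left (h4.trans h1)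
  have e2 : A2 = D ⊔ A2 :=
    Subgroup.eq_of_le_of_card_ge le_sup_right (h4.trans (le_of_eq h.card.symm))
  have hAB : A2 ≤ B := by
    rw [e2, ← e1]
    exact inf_le_left
  have hBC : B ≤ CG A2 := fun b hb => mem_CG.2 (fun x hx => hB.2 b hb x (hAB hx))
  exact h3 ⟨B, le_inf hBP hBC, hB, hc⟩

/-- an elementary abelian `B ≤ P` of order `p ^ 3` meets `R = P ⊓ C(A2)` in at least `p ^ 2` -/
theorem R26.card_inf {p : ℕ} {P A2 B : Subgroup G} (h : R26 p P A2) (hB : ElAb p B)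
    (hc : Nat.card B = p ^ 3) (hBP : B ≤ P) : p ^ 2 ≤ Nat.card (B ⊓ (P ⊓ CG A2) : Subgroup G) :=
  h.card_inf_aux hB hc hBP

end

end H84.LA
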