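import Pool.Agent.H84.LA.S26a

/-! # Module S26b (2.6 (i), (ii), (iii))

`R = P ⊓ C(A2)`.
(i) `s26i`: `R` centralises every `R`-invariant `q`-subgroup `K`; we may assume `K` maximal, `K ≠ 1`.
`N = N(R) ≥ P`, so `N ≤ N(P)` by `s23` (`P` is not small, since `Rk3 p P`).  `C(R)` is transitive
on `MInv R q` (`s21`, `thick_of`), so `N = C(R) (N ⊓ N(K))` (as in `s22`).
`P ⊓ C(R) = Z(R) ≤ R` is Sylow in `C(R)` (`SylIn.inf_normal` in `N`), so the index of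
`N ⊓ N(K)` in `N`, equal to that of `C(R) ⊓ N(K) ≥ Z(R)` in `C(R)`, is prime to `p`: so
`N ⊓ N(K)` contains a Sylow `p`-subgroup of `N`, i.e. `cj u P` with `u ∈ N`.  Then
`cj u⁻¹ K` is `P`-invariant, so centralised by `P` (`s22`), and by `R = cj u⁻¹ R`; so `R`
centralises `K`.
(ii) `s26ii`: a Sylow subgroup `P1` containing `R` is `P`.  Otherwise choose `P1 ≠ P` with
`|P ⊓ P1|` maximal, `D = P ⊓ P1 ≥ R`, `H1 = N(D)`.  Let `S` be a Sylow `p`-subgroup of `H1`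
containing `P ⊓ N(D) > D`, and `P2 ≥ S` Sylow in `G`: `P ⊓ P2 > D`, so `P2 = P`, `S ≤ P`.
`P1 ⊓ N(D)` is contained in `cj k S` with `k ∈ Opp p H1` (`s11c`); `Op q H1` is `R`-invariant, so
in `C(R)` by (i); `C(R) ≤ N(R) ≤ N(P)`, so `k ∈ N(P)`, `P1 ⊓ N(D) ≤ P`, so
`P1 ⊓ N(D) ≤ D`, contradiction (`D ≠ P1`).
(iii) `s26iii`: `R ≤ H ≠ ⊤` implies `H ≤ N(P)`: `Opp p H ≤ C(R) ≤ N(P)` by (i); a Sylow
`p`-subgroup `S ≥ R` of `H` lies in `P` by (ii) and `N(S) ≤ N(P)` (for `g ∈ N(S)`: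
`R ≤ S = cj g S ≤ cj g P`, so `cj g P = P` by (ii)); `s11le`.
-/

namespace H84.LA

open Subgroup

section
variable {G : Type*} [Group G] [Finite G]

omit [Finite G] in
/-- `|N| |A ⊓ B| = |A| |B|` if `N = A B` -/
private lemma s26_card_prod {A B N : Subgroup G} (hA : A ≤ N) (hB : B ≤ N)
    (h : ∀ m ∈ N, ∃ a ∈ A, ∃ b ∈ B, m = a * b) :
    Nat.card N * Nat.card (A ⊓ B : Subgroup G) = Nat.card A * Nat.card B := by
  classical
  have h' : ∀ m : N, ∃ ab : A × B, (m : G) = ab.1 * ab.2 := by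
    intro m
    obtain ⟨a, ha, b, hb, e⟩ := h m m.2
    exact ⟨(⟨a, ha⟩, ⟨b, hb⟩), e⟩
  choose f hf using h'
  rw [← Nat.card_prod, ← Nat.card_prod]
  let F : N × (A ⊓ B : Subgroup G) → A × B := fun x =>
    (⟨(f x.1).1 * x.2, A.mul_mem (f x.1).1.2 (x.2.2.1)⟩,
      ⟨(x.2 : G)⁻¹ * (f x.1).2, B.mul_mem (B.inv_mem x.2.2.2) (f x.1).2.2⟩)
  apply Nat.card_congr (Equiv.ofBijective F ⟨?_, ?_⟩)
  · rintro ⟨m, z⟩ ⟨m', z'⟩ he
    simp only [F, Prod.mk.injEq, Subtype.mk.injEq] at he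
    obtain ⟨e1, e2⟩ := he
    have hm : (m : G) = m' := by
      rw [hf m, hf m']
      calc ((f m).1 : G) * (f m).2 = ((f m).1 * z) * ((z : G)⁻¹ * (f m).2) := by group
        _ = ((f m').1 * z') * ((z' : G)⁻¹ * (f m').2) := by rw [e1, e2]
        _ = _ := by group
    have hm' : m = m' := Subtype.ext hm
    subst hm'
    have : (z : G) = z' := mul_left_cancel e1
    rw [Subtype.ext this]
  · rintro ⟨⟨a, ha⟩, ⟨b, hb⟩⟩
    have hm : a * b ∈ N := N.mul_mem (hA ha) (hB hb)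
    set m : N := ⟨a * b, hm⟩ with hmd
    have e := hf m
    have e' : a * b = (f m).1 * (f m).2 := e
    have e2 : ((f m).1 : G)⁻¹ * a = (f m).2 * b⁻¹ := by
      rw [inv_mul_eq_iff_eq_mul, ← mul_assoc, ← e']
      group
    have hz : ((f m).1 : G)⁻¹ * a ∈ A ⊓ B := by
      refine ⟨A.mul_mem (A.inv_mem (f m).1.2) ha, ?_⟩
      rw [e2]
      exact B.mul_mem (f m).2.2 (B.inv_mem hb)
    refine ⟨(m, ⟨((f m).1 : G)⁻¹ * a, hz⟩), ?_⟩
    simp only [F, Prod.mk.injEq, Subtype.mk.injEq]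
    refine ⟨by group, ?_⟩
    rw [e2]
    group

/-- the Sylow part of the previous formula -/
private lemma s26_syl {p : ℕ} (hp : p.Prime) {A B N Z S : Subgroup G} (hA : A ≤ N) (hB : B ≤ N)
    (h : ∀ m ∈ N, ∃ a ∈ A, ∃ b ∈ B, m = a * b) (hZ : SylIn p A Z) (hZB : Z ≤ B)
    (hS : SylIn p B S) : SylIn p N S := by
  have hc := s26_card_prod hA hB h
  obtain ⟨m1, e1, n1⟩ := hZ.card_mul hp
  have hZ' : SylIn p (A ⊓ B) Z := hZ.mono (le_inf hZ.1 hZB) inf_le_left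
  obtain ⟨m2, e2, n2⟩ := hZ'.card_mul hp
  obtain ⟨m4, e4, n4⟩ := hS.card_mul hp
  obtain ⟨T, hT, hST⟩ := SylIn.exists_ge hS.2.1 (hS.1.trans hB)
  obtain ⟨m3, e3, n3⟩ := hT.card_mul hp
  have _ : Fact p.Prime := ⟨hp⟩
  obtain ⟨t, ht⟩ := IsPGroup.iff_card.1 hT.2.1
  obtain ⟨s, hs⟩ := IsPGroup.iff_card.1 hS.2.1
  have hZ0 : 0 < Nat.card Z := Nat.card_pos
  rw [e1, e2, e3, e4] at hc
  have hc2 : p ^ t * (m3 * m2) = p ^ s * (m1 * m4) := by
    rw [ht, hs] at hc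
    have : Nat.card Z * (p ^ t * (m3 * m2)) = Nat.card Z * (p ^ s * (m1 * m4)) := by
      calc Nat.card Z * (p ^ t * (m3 * m2)) = p ^ t * m3 * (Nat.card Z * m2) := by ring
        _ = Nat.card Z * m1 * (p ^ s * m4) := hc
        _ = _ := by ring
    exact Nat.eq_of_mul_eq_mul_left hZ0 this
  have n32 : ¬ p ∣ m3 * m2 := fun hd => (hp.dvd_mul.1 hd).elim n3 n2
  have n14 : ¬ p ∣ m1 * m4 := fun hd => (hp.dvd_mul.1 hd).elim n1 n4
  have hts : t = s := by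
    rcases lt_trichotomy t s with hlt | heq | hgt
    · exfalso
      obtain ⟨k, rfl⟩ := Nat.exists_eq_add_of_lt hlt
      have : p ^ t * (m3 * m2) = p ^ t * (p * (p ^ k * (m1 * m4))) := by
        rw [hc2]; ring
      have := Nat.eq_of_mul_eq_mul_left (pow_pos hp.pos t) this
      exact n32 (this ▸ dvd_mul_right _ _)
    · exact heq
    · exfalso
      obtain ⟨k, rfl⟩ := Nat.exists_eq_add_of_lt hgt
      have : p ^ s * (m1 * m4) = p ^ s * (p * (p ^ k * (m3 * m2))) := by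
        rw [← hc2]; ring
      have := Nat.eq_of_mul_eq_mul_left (pow_pos hp.pos s) this
      exact n14 (this ▸ dvd_mul_right _ _)
  have hcard : Nat.card S = Nat.card T := by rw [ht, hs, hts]
  apply SylIn.of_card hp (hS.1.trans hB) hS.2.1 (m := m3) _ n3
  rw [hcard]
  exact e3

private lemma s26_R_ne_bot {p : ℕ} {P A2 : Subgroup G} (h : R26 p P A2) : P ⊓ CG A2 ≠ ⊥ := by
  intro h0
  have h1 := h.A2_le
  rw [h0, le_bot_iff] at h1
  have h2 := h.card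
  rw [h1, Subgroup.card_bot] at h2
  have h3 := h.isS.prime.one_lt
  have h4 : 1 < p ^ 2 := Nat.one_lt_pow (by norm_num) h3
  omega

omit [Finite G] in
private lemma s26_R_p {p : ℕ} {P A2 : Subgroup G} (h : R26 p P A2) :
    IsPGroup p (P ⊓ CG A2 : Subgroup G) := h.isS.isPGroup.to_le inf_le_left

theorem R26.NG_le (hG : Hyp G) {p : ℕ} {P A2 : Subgroup G} (h : R26 p P A2) :
    NG (P ⊓ CG A2) ≤ NG P := by
  apply s23 hG h.isS (fun hs => hs.2 h.rk) _ h.norm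
  exact hG.NG_ne_top_of_p h.isS.prime (s26_R_ne_bot h) (s26_R_p h)

theorem s26i (hG : Hyp G) {p q : ℕ} (hq : q.Prime) (hpq : p ≠ q) {P A2 K : Subgroup G}
    (h : R26 p P A2) (hK : Inv (P ⊓ CG A2) q K) : K ≤ CG (P ⊓ CG A2) := by
  obtain ⟨K', hK', hle⟩ := hK.exists_MInv
  refine hle.trans ?_
  clear hK hle K
  set R := P ⊓ CG A2 with hR
  have hp := h.isS.prime
  have hRp : IsPGroup p R := s26_R_p h
  have hTh : Thick R := thick_of hp hRp h.not_small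
  have hNP : NG R ≤ NG P := R26.NG_le hG h
  have hPN : P ≤ NG R := h.norm
  have hCN : CG R ≤ NG R := CG_le_NG R
  have hfac : ∀ m ∈ NG R, ∃ a ∈ CG R, ∃ b ∈ NG R ⊓ NG K', m = a * b := by
    intro m hm
    have hm1 : MInv R q (cj m K') := by
      have h1 := (MInv_cj (A := R) (q := q) (K := K') m).2 hK'
      rwa [cj_of_mem_NG hm] at h1
    obtain ⟨c, hc, hcK⟩ := s21 hG hp hq hpq hRp hTh hK' hm1
    refine ⟨c, hc, c⁻¹ * m, ⟨(NG R).mul_mem ((NG R).inv_mem (hCN hc)) hm, ?_⟩, by group⟩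
    have hk : cj (c⁻¹ * m) K' = K' := by rw [cj_mul, ← hcK, cj_inv_cj]
    exact mem_NG_iff_cj.2 hk
  have hZ : SylIn p (CG R) (P ⊓ CG R) :=
    (h.isS.sylIn hPN).inf_normal hp hCN (NG_le_NG_CG R)
  have hZR : P ⊓ CG R ≤ NG R ⊓ NG K' :=
    le_inf (inf_le_left.trans hPN) (h.cent.trans hK'.1.2)
  obtain ⟨S, hS⟩ := SylIn.exists_syl p (NG R ⊓ NG K')
  have hSN : SylIn p (NG R) S := s26_syl hp hCN inf_le_left hfac hZ hZR hS
  obtain ⟨u, hu, huP⟩ := (h.isS.sylIn hPN).conj hp hSN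
  have h1 : P ≤ NG (cj u⁻¹ K') := by
    rw [NG_cj, ← cj_le_iff, huP]
    exact hS.1.trans inf_le_right
  have h2 : Inv P q (cj u⁻¹ K') := ⟨isPGroup_cj.2 hK'.1.1, h1⟩
  have h3 : cj u⁻¹ K' ≤ CG P := s22 hG hq hpq h.isS (fun hs => hs.2 h.rk) h2
  have h4 : cj u⁻¹ K' ≤ CG R := h3.trans (CG_anti inf_le_left)
  have h5 : K' ≤ cj u (CG R) := by rwa [le_cj_iff]
  rwa [← CG_cj, cj_of_mem_NG hu] at h5

private lemma s26_Opp (hG : Hyp G) {p : ℕ} {P A2 H : Subgroup G} (h : R26 p P A2)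
    (hle : P ⊓ CG A2 ≤ H) : Opp p H ≤ CG (P ⊓ CG A2) := by
  rw [Opp_le_iff]
  intro q hq hqp
  exact s26i hG hq hqp.symm h (inv_Op hq hle)

theorem s26ii (hG : Hyp G) {p : ℕ} {P A2 P1 : Subgroup G} (h : R26 p P A2) (h1 : IsS p P1)
    (hle : P ⊓ CG A2 ≤ P1) : P1 = P := by
  have hp := h.isS.prime
  have key : ∀ n : ℕ, ∀ P1 : Subgroup G, IsS p P1 → P ⊓ CG A2 ≤ P1 →
      Nat.card P - Nat.card (P ⊓ P1 : Subgroup G) = n → P1 = P := by
    intro n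
    induction n using Nat.strong_induction_on with
    | _ n ih =>
      intro P1 h1 hle hn
      by_contra hne
      set D := P ⊓ P1 with hD
      have hRD : P ⊓ CG A2 ≤ D := le_inf inf_le_left hle
      have hD0 : D ≠ ⊥ := fun h0 => s26_R_ne_bot h (le_bot_iff.1 (h0 ▸ hRD))
      have hDp : IsPGroup p D := h.isS.isPGroup.to_le inf_le_left
      have hDP : D ≠ P := by
        intro he
        exact hne (h.isS.eq_of_le h1.isPGroup (he ▸ inf_le_right))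
      have hDP1 : D ≠ P1 := by
        intro he
        have : P1 ≤ P := by rw [← he]; exact inf_le_left
        exact hne (h1.eq_of_le h.isS.isPGroup this).symm
      have hH1 : NG D ≠ ⊤ := hG.NG_ne_top_of_p hp hD0 hDp
      obtain ⟨x, hxP, hxD, hxN⟩ := exists_normalizer_gt hp h.isS.isPGroup
        (inf_le_left : D ≤ P) hDP
      obtain ⟨y, hyP, hyD, hyN⟩ := exists_normalizer_gt hp h1.isPGroup
        (inf_le_right : D ≤ P1) hDP1
      have hT0p : IsPGroup p (P ⊓ NG D : Subgroup G) := h.isS.isPGroup.to_le inf_le_left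
      obtain ⟨S, hS, hT0S⟩ := SylIn.exists_ge hT0p (inf_le_right : P ⊓ NG D ≤ NG D)
      have hDT0 : D ≤ P ⊓ NG D := le_inf inf_le_left (le_NG D)
      have hS0 : S ≠ ⊥ := fun h0 => hD0 (le_bot_iff.1 (h0 ▸ hDT0.trans hT0S))
      obtain ⟨P2, hP2, hSP2⟩ := IsS.exists_ge hp hS.2.1 hS0
      have hT0P2 : P ⊓ NG D ≤ P ⊓ P2 := le_inf inf_le_left (hT0S.trans hSP2)
      have hlt : Nat.card D < Nat.card (P ⊓ P2 : Subgroup G) := by
        apply lt_of_le_of_ne (Subgroup.card_le_of_le (hDT0.trans hT0P2))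
        intro he
        have := Subgroup.eq_of_le_of_card_ge (hDT0.trans hT0P2) he.ge
        exact hxD (this.ge (hT0P2 ⟨hxP, hxN⟩))
      have hle2 : Nat.card (P ⊓ P2 : Subgroup G) ≤ Nat.card P :=
        Subgroup.card_le_of_le inf_le_left
      have hP2P : P2 = P := by
        apply ih (Nat.card P - Nat.card (P ⊓ P2 : Subgroup G)) _ P2 hP2
          (hRD.trans (hDT0.trans (hT0S.trans hSP2))) rfl
        omega
      have hSP : S ≤ P := hP2P ▸ hSP2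
      have hT1p : IsPGroup p (P1 ⊓ NG D : Subgroup G) := h1.isPGroup.to_le inf_le_left
      obtain ⟨T, hT, hT1T⟩ := SylIn.exists_ge hT1p (inf_le_right : P1 ⊓ NG D ≤ NG D)
      obtain ⟨f, hf, hfS⟩ := s11c hG hp hH1 hS hT
      have hfC : f ∈ CG (P ⊓ CG A2) := s26_Opp hG h (hRD.trans (le_NG D)) hf
      have hfN : f ∈ NG P := R26.NG_le hG h (CG_le_NG _ hfC)
      have hTP : T ≤ P := by
        rw [← hfS, ← cj_of_mem_NG hfN]
        exact cj_le_cj.2 hSP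
      exact hyD ⟨hTP (hT1T ⟨hyP, hyN⟩), hyP⟩
  exact key _ P1 h1 hle rfl

theorem s26iii (hG : Hyp G) {p : ℕ} {P A2 H : Subgroup G} (h : R26 p P A2) (hH : H ≠ ⊤)
    (hle : P ⊓ CG A2 ≤ H) : H ≤ NG P := by
  have hp := h.isS.prime
  obtain ⟨S, hS, hRS⟩ := SylIn.exists_ge (s26_R_p h) hle
  have hS0 : S ≠ ⊥ := fun h0 => s26_R_ne_bot h (le_bot_iff.1 (h0 ▸ hRS))
  obtain ⟨P2, hP2, hSP2⟩ := IsS.exists_ge hp hS.2.1 hS0
  have hP2P : P2 = P := s26ii hG h hP2 (hRS.trans hSP2)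
  have hSP : S ≤ P := hP2P ▸ hSP2
  apply s11le hG hp hH hS
  · exact (s26_Opp hG h hle).trans ((CG_le_NG _).trans (R26.NG_le hG h))
  · rintro g ⟨-, hg⟩
    rw [mem_NG_iff_cj]
    apply s26ii hG h (h.isS.cj g)
    calc P ⊓ CG A2 ≤ S := hRS
      _ = cj g S := (cj_of_mem_NG hg).symm
      _ ≤ cj g P := cj_le_cj.2 hSP

end

end H84.LA
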