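import Pool.Agent.H84.LA.S26b

/-! # Module S27 (2.6 (iv), 2.7)

`s26iv`: `E ≤ P` elementary abelian of order `p ^ 2`, all `e ∈ E#` good, `E ≤ H ≠ ⊤`: `H ≤ N(P)`.
[`Op q H ≤ N(P)` for `q ≠ p` by `cop_noncyc`: `C(e) ≤ N(P)`.  A Sylow `p`-subgroup `S ≥ E` of `H`
is in `P` and `N(S) ≤ N(P)` by `s16c`, `s16d`.  `s11le`.]
`s27`: `B` elementary of order `p ^ 3`.  All `a ∈ A2#` are good (`s26iii` for `H = C(a)`).  For
`b ∈ B ⊓ R`, `b ≠ 1` (`R = P ⊓ C(A2)`): `A2 ≤ C(b)`, so `b` is good (`s26iv` for `A2`).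
`|B ⊓ R| ≥ p ^ 2`; take `E ≤ B ⊓ R` of order `p ^ 2`; for `b ∈ B#`: `E ≤ C(b)`, so `b` is
good.  Then `s26iv` for `E` and `H`.
`s27b`: if `B ≤ P ⊓ C(x)` is elementary of order `p ^ 3` then `C(x) ≤ N(P)` by `s27`.
-/

namespace H84.LA

open Subgroup

section
variable {G : Type*} [Group G] [Finite G]

theorem s26iv (hG : Hyp G) {p : ℕ} {P E H : Subgroup G} (hP : IsS p P) (hE : ElAb p E)
    (hc : Nat.card E = p ^ 2) (hEP : E ≤ P) (hgood : ∀ e ∈ E, e ≠ 1 → Good P e) (hH : H ≠ ⊤)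
    (hEH : E ≤ H) : H ≤ NG P := by
  have hp := hP.prime
  have hE0 : E ≠ ⊥ := by
    rintro rfl
    rw [Subgroup.card_bot] at hc
    have := Nat.one_lt_pow (n := 2) (by norm_num) hp.one_lt
    omega
  obtain ⟨⟨e, he⟩, he0⟩ := Subgroup.ne_bot_iff_exists_ne_one.1 hE0
  have he1 : e ≠ 1 := fun h => he0 (Subtype.ext h)
  obtain ⟨S, hS, hES⟩ := SylIn.exists_ge hE.isPGroup hEH
  refine s11le hG hp hH hS ?_ ?_
  · rw [Opp_le_iff]
    intro q hq hqp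
    exact cop_noncyc hp hq (Ne.symm hqp) hE hc (Op_isPGroup hq H) (hEH.trans (Op_norm q H))
      (fun e he h1 => inf_le_right.trans (hgood e he h1))
  · exact inf_le_right.trans (s16d hG hP (hEP he) he1 (hgood e he he1) hS.2.1 (hES he))

theorem s27 (hG : Hyp G) {p : ℕ} {P B H : Subgroup G} (hP : IsS p P) (hB : ElAb p B)
    (hc : Nat.card B = p ^ 3) (hBP : B ≤ P) (hH : H ≠ ⊤) (hBH : B ≤ H) : H ≤ NG P := by
  have hp := hP.prime
  obtain ⟨A2, hR⟩ := R26.exists_A2 hG hP ⟨B, hBP, hB, hc⟩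
  have hA : ∀ a ∈ A2, a ≠ 1 → Good P a := fun a ha h1 =>
    s26iii hG hR (hG.Cx_ne_top h1) (inf_le_right.trans (CG_le_Cx ha))
  have hb : ∀ b ∈ B ⊓ (P ⊓ CG A2), b ≠ 1 → Good P b := by
    intro b hb h1
    refine s26iv hG hP hR.el hR.card hR.le hA (hG.Cx_ne_top h1) ?_
    intro a ha
    rw [mem_Cx]
    exact ((mem_CG.1 hb.2.2) a ha).symm
  obtain ⟨D, -, hD, hDc⟩ := ElAb.exists_between hp (hB.mono (inf_le_left : B ⊓ (P ⊓ CG A2) ≤ B))
    (k := 2) (C := ⊥) bot_le (by rw [Subgroup.card_bot]; exact Nat.one_le_pow _ _ hp.pos)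
    (hR.card_inf hB hc hBP)
  have hDB : D ≤ B := hD.trans inf_le_left
  exact s26iv hG hP (hB.mono hDB) hDc (hDB.trans hBP) (fun e he h1 => hb e (hD he) h1) hH
    (hDB.trans hBH)

theorem s27b (hG : Hyp G) {p : ℕ} {P : Subgroup G} {x : G} (h : Bad p P x) :
    ¬ Rk3 p (P ⊓ Cx x) := by
  rintro ⟨B, hB, hE, hc⟩
  apply h.bad
  have hx1 : x ≠ 1 := by
    rintro rfl
    have h1 := h.ord
    rw [orderOf_one] at h1
    exact h.isS.prime.one_lt.ne h1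
  exact s27 hG h.isS hE hc (hB.trans inf_le_left) (hG.Cx_ne_top hx1) (hB.trans inf_le_right)

end

end H84.LA
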