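import Pool.Agent.H84.LA.S32

/-! # Module S31 (3.1): `Arr p q P Q` implies `C_Q(P) = 1`

Let `y ∈ C_Q(P)` of order `q`; it is bad by `s31a`, `Bad q Q y`.
`Q` abelian: `¬ Rk3 q Q` (`s32A`), `P ≤ N(Q)` is a `p`-group not centralising `Q`, so `y` is good by
`s24good`.  Contradiction.
`Q` not abelian: `z ∈ Q` central in `Q` of order `q` (`exists_central`), `L = C(y) ≥ P`, `z ∈ L`.
Take `s` with `PiX Q y s` (`s32pi`), `s ≠ q` (`s32ne`).  `Op s L` is not in `N(Q) ≥ C(z)`
(`s32Bz`), so `z` does not centralise `Op s L`.  `P ≤ N(Q)` normalises `⟨z⟩` (`s32Bw`).  If `P` does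
not centralise `z` then `z ∈ [L, L]` (`mem_comm_of_act`), `z ∈ Op q L`
(`Hyp.mem_Op_of_mem_comm`), which centralises `Op s L`: contradiction.  So `z ∈ C_Q(P)`, and `z`
is good for `Q`: contradiction to `s31a`.
-/

namespace H84.LA

open Subgroup

section
variable {G : Type*} [Group G] [Finite G]

theorem s31 (hG : Hyp G) {p q : ℕ} {P Q : Subgroup G} (h : Arr p q P Q) : Q ⊓ CG P = ⊥ := by
  sorry

end

end H84.LA
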