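import Pool.Agent.H84.LA.S27
import Pool.Agent.H84.LA.BasicD

/-! # Module S31a (3.1 (a)) and the lemma on centralisers in abelian Sylow subgroups of rank 2

`s24good`: `P` abelian, `¬ Rk3 p P`, `W ≤ N(P)` an `s`-group (`s ≠ p`) not centralising `P`,
`x ∈ P ⊓ C(W)` of order `p`: `x` is good.  [`P = C_P(W) × [P, W]`, `[P, W] ≠ 1`
(`cop_gen`, `cop_abel`).  If `Rk2 p (C_P(W))`, with `B`, then `B` contains all elements of order
`p` of `P` (`Omega_eq`), but `[P, W]` contains one outside.  So `¬ Rk2 p (P ⊓ C(W))` and `⟨x⟩` is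
the only subgroup of order `p` of `P ⊓ C(W)` (`zpowers_eq_of_not_Rk2`), which is normalised by
`N(P)` (`s24inv`); so `N(P) ≤ N(⟨x⟩)`, `s15good`.]

`s31a`: no `y ∈ C_Q(P)#` is good for `Q`.  `P` is abelian (`s25s`).  `C(P)` is normalised by
`N(P)`; let `T` be a Sylow `q`-subgroup of `C(P)` containing `y`.  If `y` is good then `T ≤ Q` and
`N(T) ≤ N(Q)` (`s16c`, `s16d`).  `N(P) = C(P) (N(P) ⊓ N(T))` (`frattini_arg`) `≤ C(P)` by `s25d`.
So `P = [P, N(P)] = 1` (`s14`), contradiction.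
-/

namespace H84.LA

open Subgroup

section
variable {G : Type*} [Group G] [Finite G]

theorem s24rk (hG : Hyp G) {p s : ℕ} (hs : s.Prime) (hsp : s ≠ p) {P W : Subgroup G}
    (hP : IsS p P) (hab : Ab P) (h3 : ¬ Rk3 p P) (hW : IsPGroup s W) (hWP : W ≤ NG P)
    (hc : ¬ W ≤ CG P) : ¬ Rk2 p (P ⊓ CG W) := by
  sorry

theorem s24good (hG : Hyp G) {p s : ℕ} (hs : s.Prime) (hsp : s ≠ p) {P W : Subgroup G} {x : G}
    (hP : IsS p P) (hab : Ab P) (h3 : ¬ Rk3 p P) (hW : IsPGroup s W) (hWP : W ≤ NG P)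
    (hc : ¬ W ≤ CG P) (hx : x ∈ P) (hxW : x ∈ CG W) (hox : orderOf x = p) : Good P x := by
  sorry

theorem s31a (hG : Hyp G) {p q : ℕ} {P Q : Subgroup G} (h : Arr p q P Q) {y : G} (hy : y ∈ Q)
    (h1 : y ≠ 1) (hc : y ∈ CG P) : ¬ Good Q y := by
  sorry

end

end H84.LA
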