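import Pool.Agent.H84.LA.S31a

/-! # Module S32 (3.2): the two types of bad elements

`x ∈ P` of order `p` bad.  Type A: `P` abelian.  Type B: `P` not abelian.  `R = P ⊓ C(x)`.

* `s32A`: type A: `¬ Rk3 p P` (`s27b`, `P ⊓ C(x) = P`) and `Rk2 p P` (otherwise `⟨x⟩` is the
  unique subgroup of order `p` of `P`, so `x` is good by `s15good`).
* `s32B1`: `P` not abelian: `P ≤ H ≠ ⊤` implies `H ≤ N(P)` (`s23`).
* `s32Bz`: `P` not abelian, `z ∈ P` central, `z ≠ 1`: good (`P ≤ C(z)`).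
* `s32Bx`: type B: `x` is not central in `P`.
* `s32Bn`: type B, `z` central of order `p`: `z ∉ ⟨x⟩`, `x ∉ ⟨z⟩`.
* `s32Bu`: type B: `u ∈ R` of order `p` lies in `⟨x⟩ ⊔ ⟨z⟩` (`mem_sup_of_not_Rk3`, `s27b`).
* `s32Bw`: type B: `⟨z⟩` is the unique central subgroup of order `p`; `N(P) ≤ N(⟨z⟩)`.
* `s32syl`: `R` is a Sylow `p`-subgroup of `C(x)`.  [type A: `R = P`; type B: `z ∈ R` is good,
  `s16c`.]
* `s32N`: `N(R) ≤ N(P)` [type B: `s16d`].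
* `s32F`: `C(x) = Opp p (C(x)) (C(x) ⊓ N(P))` (`s11`, `s32N`).
* `s32pi`: some `q` is in `π_x` (`s32F`, `Opp_le_iff`).
* `s32v`: `v ∈ Op q (C(x)) ⊓ N(P)`, `q ≠ p`: `[v, R] ≤ Op q (C(x)) ⊓ P = 1`.
-/

namespace H84.LA

open Subgroup

section
variable {G : Type*} [Group G] [Finite G]

theorem s32A (hG : Hyp G) {p : ℕ} {P : Subgroup G} {x : G} (h : Bad p P x) (hab : Ab P) :
    ¬ Rk3 p P ∧ Rk2 p P := by
  sorry

theorem s32B1 (hG : Hyp G) {p : ℕ} {P H : Subgroup G} (hP : IsS p P) (hab : ¬ Ab P) (hH : H ≠ ⊤)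
    (h : P ≤ H) : H ≤ NG P := by
  sorry

theorem s32Bz (hG : Hyp G) {p : ℕ} {P : Subgroup G} (hP : IsS p P) (hab : ¬ Ab P) {z : G}
    (hc : z ∈ CG P) (h1 : z ≠ 1) : Good P z := by
  sorry

theorem s32Bx (hG : Hyp G) {p : ℕ} {P : Subgroup G} {x : G} (h : Bad p P x) (hab : ¬ Ab P) :
    x ∉ CG P := by
  sorry

theorem s32Bn (hG : Hyp G) {p : ℕ} {P : Subgroup G} {x z : G} (h : Bad p P x) (hab : ¬ Ab P)
    (hz : z ∈ P) (hzc : z ∈ CG P) (hoz : orderOf z = p) : z ∉ zpowers x ∧ x ∉ zpowers z := by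
  sorry

theorem s32Bu (hG : Hyp G) {p : ℕ} {P : Subgroup G} {x z u : G} (h : Bad p P x) (hab : ¬ Ab P)
    (hz : z ∈ P) (hzc : z ∈ CG P) (hoz : orderOf z = p) (hu : u ∈ P) (hux : u ∈ Cx x)
    (hou : orderOf u = p) : u ∈ zpowers x ⊔ zpowers z := by
  sorry

theorem s32Bw (hG : Hyp G) {p : ℕ} {P : Subgroup G} {x z : G} (h : Bad p P x) (hab : ¬ Ab P)
    (hz : z ∈ P) (hzc : z ∈ CG P) (hoz : orderOf z = p) :
    (∀ w ∈ P, w ∈ CG P → orderOf w = p → w ∈ zpowers z) ∧ NG P ≤ NG (zpowers z) := by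
  sorry

theorem s32syl (hG : Hyp G) {p : ℕ} {P : Subgroup G} {x : G} (h : Bad p P x) :
    SylIn p (Cx x) (P ⊓ Cx x) := by
  sorry

theorem s32N (hG : Hyp G) {p : ℕ} {P : Subgroup G} {x : G} (h : Bad p P x) :
    NG (P ⊓ Cx x) ≤ NG P := by
  sorry

theorem s32F (hG : Hyp G) {p : ℕ} {P : Subgroup G} {x c : G} (h : Bad p P x) (hc : c ∈ Cx x) :
    ∃ f ∈ Opp p (Cx x), ∃ n ∈ NG P ⊓ Cx x, c = f * n := by
  sorry

theorem s32pi (hG : Hyp G) {p : ℕ} {P : Subgroup G} {x : G} (h : Bad p P x) :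
    ∃ q, PiX P x q := by
  sorry

theorem PiX.bad {p q : ℕ} {P : Subgroup G} {x : G} (hP : IsS p P) (hx : x ∈ P)
    (hox : orderOf x = p) (h : PiX P x q) : Bad p P x := by
  sorry

theorem s32ne (hG : Hyp G) {p q : ℕ} {P : Subgroup G} {x : G} (h : Bad p P x)
    (hq : PiX P x q) : q ≠ p := by
  sorry

theorem s32v {p q : ℕ} {P : Subgroup G} {x : G} (h : Bad p P x)
    (hq : q.Prime) (hqp : q ≠ p) : Op q (Cx x) ⊓ NG P ≤ CG (P ⊓ Cx x) := by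
  sorry

end

end H84.LA
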