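import Pool.Agent.H84.LA.S31

/-! # Module S33 (3.3): `C_{K_q}(R) = 1`

`K = Op q (C(x))`, `PiX P x q`, `R = P ⊓ C(x)`.
`s33A` (type A): `P ≤ C(x)`; `K` is `P`-invariant and not centralised by `P` (else `K ≤ N(P)`);
`s24arr`.
`s33B` (type B), `z` central of order `p`: let `1 ≠ v ∈ K ⊓ C(z)`.  `C(z) ≤ N(P)`, so `v`
centralises `R` (`s32v`), so `v` centralises `P` (`cop_axb`).  `P ≤ C(v)`, so `C(v) ≤ N(P)`
(`s32B1`).  `K ≠ 1`; let `v' ≠ 1` be central in `K`: `v' ∈ C(v) ≤ N(P)`, so as before `v'`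
centralises `R` and `P`, `C(v') ≤ N(P)` and `K ≤ C(v') ≤ N(P)`, contradiction to `PiX`.
`s33`: type A: `K ≤ Q` and `s31`; type B: `z ∈ R`, `s33B`.
`s33m`: `s32v` and `s33`.
-/

namespace H84.LA

open Subgroup

section
variable {G : Type*} [Group G] [Finite G]

theorem PiX.ne_bot {q : ℕ} {P : Subgroup G} {x : G} (h : PiX P x q) : Op q (Cx x) ≠ ⊥ := by
  intro h0
  apply h.2
  rw [h0]
  exact bot_le

private theorem s33le {P : Subgroup G} {x : G} (hab : Ab P) (hx : x ∈ P) : P ≤ Cx x :=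
  fun a ha => mem_Cx.2 (hab a ha x hx)

theorem s33A (hG : Hyp G) {p q : ℕ} {P : Subgroup G} {x : G} (h : Bad p P x) (hab : Ab P)
    (hq : PiX P x q) : ∃ Q, Arr p q P Q ∧ Op q (Cx x) ≤ Q := by
  refine s24arr hG hq.1 (s32ne hG h hq).symm h.isS (inv_Op hq.1 (s33le hab h.mem)) ?_
  intro hc
  exact hq.2 (hc.trans (CG_le_NG P))

/-- the main step: elements `v ≠ 1` of `K ⊓ N(P)` have `C(v) ≤ N(P)` -/
private theorem s33Bv (hG : Hyp G) {p q : ℕ} {P : Subgroup G} {x v : G} (h : Bad p P x)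
    (hab : ¬ Ab P) (hq : PiX P x q) (hv : v ∈ Op q (Cx x)) (hvP : v ∈ NG P) (h1 : v ≠ 1) :
    Cx v ≤ NG P := by
  have hqp : q ≠ p := s32ne hG h hq
  have h2 : v ∈ CG (P ⊓ Cx x) := s32v h hq.1 hqp ⟨hv, hvP⟩
  have h3 : v ∈ CG P := cop_axb h.isS.prime hq.1 hqp h.isS.isPGroup h.mem hvP
    (El.of_mem (Op_isPGroup hq.1 _) hv) h2
  refine s32B1 hG h.isS hab (hG.Cx_ne_top h1) ?_
  intro a ha
  exact mem_Cx.2 (mem_CG.1 h3 a ha).symm

theorem s33B (hG : Hyp G) {p q : ℕ} {P : Subgroup G} {x z : G} (h : Bad p P x) (hab : ¬ Ab P)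
    (hq : PiX P x q) (hz : z ∈ P) (hzc : z ∈ CG P) (hoz : orderOf z = p) :
    Op q (Cx x) ⊓ Cx z = ⊥ := by
  have hz1 : z ≠ 1 := by
    rintro rfl
    rw [orderOf_one] at hoz
    exact h.isS.prime.one_lt.ne hoz
  have hgood : Good P z := s32Bz hG h.isS hab hzc hz1
  rw [eq_bot_iff]
  intro v hv
  rw [mem_bot]
  by_contra hv1
  have hCv : Cx v ≤ NG P := s33Bv hG h hab hq hv.1 (hgood hv.2) hv1
  obtain ⟨v', hv'K, hv'c, hov'⟩ := exists_central hq.1 (Op_isPGroup hq.1 (Cx x)) hq.ne_bot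
  have hv'1 : v' ≠ 1 := by
    rintro rfl
    rw [orderOf_one] at hov'
    exact hq.1.one_lt.ne hov'
  have hv'P : v' ∈ NG P := hCv (mem_Cx.2 (mem_CG.1 hv'c v hv.1))
  have hCv' : Cx v' ≤ NG P := s33Bv hG h hab hq hv'K hv'P hv'1
  apply hq.2
  intro a ha
  exact hCv' (mem_Cx.2 (mem_CG.1 hv'c a ha).symm)

theorem s33 (hG : Hyp G) {p q : ℕ} {P : Subgroup G} {x : G} (h : Bad p P x) (hq : PiX P x q) :
    Op q (Cx x) ⊓ CG (P ⊓ Cx x) = ⊥ := by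
  by_cases hab : Ab P
  · have h1 : P ⊓ Cx x = P := inf_eq_left.2 (s33le hab h.mem)
    obtain ⟨Q, hQ, hle⟩ := s33A hG h hab hq
    rw [h1, eq_bot_iff, ← s31 hG hQ]
    exact inf_le_inf_right _ hle
  · obtain ⟨z, hz, hzc, hoz⟩ := exists_central h.isS.prime h.isS.isPGroup h.isS.ne_bot
    rw [eq_bot_iff, ← s33B hG h hab hq hz hzc hoz]
    refine inf_le_inf_left _ (CG_le_Cx ⟨hz, mem_Cx.2 (mem_CG.1 hzc x h.mem)⟩)

theorem s33m (hG : Hyp G) {p q : ℕ} {P : Subgroup G} {x : G} (h : Bad p P x) (hq : PiX P x q) :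
    Op q (Cx x) ⊓ NG P = ⊥ := by
  rw [eq_bot_iff, ← s33 hG h hq]
  exact le_inf inf_le_left (s32v h hq.1 (s32ne hG h hq))

end

end H84.LA
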