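import Pool.Agent.H84.LA.S33

/-! # Module S34 (3.4, 3.5)

`s34`: `x` bad, `m ∈ N(P) ⊓ C(x)` an `s`-element, `s ≠ p`: `m` centralises `P`.
Type A: otherwise `x` is good by `s24good` (`W = ⟨m⟩`).
Type B: `L = C(x)`, `R = P ⊓ L` is normalised by `m`, `[R, ⟨m⟩] ≤ Op p L` (`Hyp.comm_le_Op`).
Let `q` with `PiX P x q`, `K = Op q L`; `Op p L` centralises `K`, so `z ∉ Op p L` (`z` central of
order `p`; `s33B`, `K ≠ 1`).  `Op p L ≤ R`.  `¬ Rk2 p (Op p L)`: otherwise `B2 ⊔ ⟨z⟩` is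
elementary of order `p ^ 3` in `R` (`card_add`), contradiction to `s27b`.  `x ∈ Op p L` (`⟨x⟩` is
normal in `L`), `m` centralises `x`, so `m` centralises `Op p L` (`cop_cyc`).  So
`[R, ⟨m⟩] ≤ C(⟨m⟩)`, `R ≤ C(⟨m⟩)` (`cop_comm_triv`), `m ∈ C(P)` (`cop_axb`).

`s35`: `PiX P x q` implies `q ∤ |N(P) ⊓ C(x)|`.  Otherwise let `d ∈ N(P) ⊓ C(x)` of order `q`
(`q ≠ p`), `d ∈ C(P)` by `s34`.  `K = Op q (C(x))`, `D = K ⊔ ⟨d⟩`, a `q`-group.
Type A: `D` is `P`-invariant and not centralised by `P`, so `D ≤ Q` with `Arr p q P Q` (`s24arr`),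
`d ∈ Q ⊓ C(P) = 1` (`s31`).  Type B: `P ≤ C(d)`, `C(d) ≤ N(P)` (`s32B1`); some `1 ≠ v ∈ K`
commutes with `d` (`exists_fixed`), `v ∈ N(P)`, contradiction to `s33m`.
-/

namespace H84.LA

open Subgroup

section
variable {G : Type*} [Group G] [Finite G]

theorem s34 (hG : Hyp G) {p s : ℕ} (hs : s.Prime) (hsp : s ≠ p) {P : Subgroup G} {x m : G}
    (h : Bad p P x) (hm : m ∈ NG P) (hmx : m ∈ Cx x) (hms : El s m) : m ∈ CG P := by
  sorry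

theorem s35 (hG : Hyp G) {p q : ℕ} {P : Subgroup G} {x : G} (h : Bad p P x) (hq : PiX P x q) :
    ¬ q ∣ Nat.card (NG P ⊓ Cx x : Subgroup G) := by
  sorry

end

end H84.LA
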