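import Pool.Agent.H84.LA.S34

/-! # Module S36 (3.6, 3.9): `C(x) = H(x) : (N(P) ⊓ C(x))`

`Hx P x` is the join of the `Op q (C(x))`, `PiX P x q`.
* `s36p`: a prime dividing `|H(x)|` is in `π_x` (`card_sSup_not_dvd`).
* `s36b`: by `s32F`; `Opp p (C(x)) ≤ H(x) ⊔ (N(P) ⊓ C(x))` (`Opp_le_iff`: each `Op q (C(x))`,
  `q ≠ p`, is in `H(x)` or in `N(P)`).
* `s36cop`: `s36p`, `s35`.  `s36c` follows.
* `s36q`: for `PiX P x q` every `q`-subgroup `W` of `C(x)` lies in `Op q (C(x))`: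
  `|C(x)| = |H(x)| |N(P) ⊓ C(x)|` and `H(x) = Op q (C(x)) ⊔ H'`, `H'` the join of the other
  `Op r (C(x))`, of order prime to `q`; so `Op q (C(x))` is a normal Sylow `q`-subgroup of `C(x)`.
* `s36rr`: `q ≠ p`, `¬ PiX P x q`: `q ∤ |H(x)|`, so a Sylow `q`-subgroup of `N(P) ⊓ C(x)` is Sylow
  in `C(x)`; for a `q`-group `W ≤ C(x)` some `cj c W ≤ N(P) ⊓ C(x)`, `c ∈ C(x)`; all its
  elements centralise `P` by `s34`.
* `s36R`, `s36z`: a nontrivial subgroup of `H(x)` contains an element of prime order `q`, which is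
  in `Op q (C(x))` by `s36p`, `s36q`; `s33`, `s33B`.
* `s36S`: `S` Sylow, `N(S) = N(P)`: `s ∤ |H(x)|` (`S ≤ C(P) ≤ C(x)` if `s ≠ p`; `x ∈ P` if `s = p`;
  `s36cop`).
* `s39`: `x` a power... `y` bad, `y ∈ ⟨x⟩`, `x ∈ N(P)`: `C(x) = (H(y) ⊓ C(x)) (N(P) ⊓ C(x))`
  (`s36b` for `y`, `cent_of_compl` with `H = H(y)`, `E = N(P) ⊓ C(y) ∋ x`).
-/

namespace H84.LA

open Subgroup

section
variable {G : Type*} [Group G] [Finite G]

theorem Hx_le (P : Subgroup G) (x : G) : Hx P x ≤ Cx x := by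
  sorry

theorem Hx_norm (P : Subgroup G) (x : G) : Cx x ≤ NG (Hx P x) := by
  sorry

theorem Hx_good {P : Subgroup G} {x : G} (h : Good P x) : Hx P x = ⊥ := by
  sorry

theorem s36p {q : ℕ} (hq : q.Prime) {P : Subgroup G} {x : G} (h : q ∣ Nat.card (Hx P x)) :
    PiX P x q := by
  sorry

theorem s36b (hG : Hyp G) {p : ℕ} {P : Subgroup G} {x c : G} (h : Bad p P x) (hc : c ∈ Cx x) :
    ∃ a ∈ Hx P x, ∃ m ∈ NG P ⊓ Cx x, c = a * m := by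
  sorry

theorem s36cop (hG : Hyp G) {p : ℕ} {P : Subgroup G} {x : G} (h : Bad p P x) :
    Nat.Coprime (Nat.card (Hx P x)) (Nat.card (NG P ⊓ Cx x : Subgroup G)) := by
  sorry

theorem s36c (hG : Hyp G) {p : ℕ} {P : Subgroup G} {x : G} (h : Bad p P x) :
    Hx P x ⊓ NG P = ⊥ := by
  sorry

theorem s36card (hG : Hyp G) {p : ℕ} {P : Subgroup G} {x : G} (h : Bad p P x) :
    Nat.card (Cx x) = Nat.card (Hx P x) * Nat.card (NG P ⊓ Cx x : Subgroup G) := by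
  sorry

theorem s36q (hG : Hyp G) {p q : ℕ} {P W : Subgroup G} {x : G} (h : Bad p P x)
    (hq : PiX P x q) (hW : IsPGroup q W) (hWx : W ≤ Cx x) : W ≤ Op q (Cx x) := by
  sorry

theorem s36qx (hG : Hyp G) {p q : ℕ} {P : Subgroup G} {x y : G} (h : Bad p P x)
    (hq : PiX P x q) (hy : El q y) (hyx : y ∈ Cx x) : y ∈ Op q (Cx x) := by
  sorry

theorem s36rr (hG : Hyp G) {p q : ℕ} (hq : q.Prime) (hqp : q ≠ p) {P W : Subgroup G} {x : G}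
    (h : Bad p P x) (hn : ¬ PiX P x q) (hW : IsPGroup q W) (hWx : W ≤ Cx x) :
    ∃ c ∈ Cx x, cj c W ≤ CG P := by
  sorry

/-- element form: a `q`-element `y ∈ C(x)`, `q ≠ p` not in `π_x`, centralises a Sylow
`p`-subgroup containing `x` -/
theorem s36r (hG : Hyp G) {p q : ℕ} (hq : q.Prime) (hqp : q ≠ p) {P : Subgroup G} {x y : G}
    (h : Bad p P x) (hn : ¬ PiX P x q) (hy : El q y) (hyx : y ∈ Cx x) :
    ∃ c ∈ Cx x, x ∈ cj c P ∧ y ∈ CG (cj c P) ∧ Bad p (cj c P) x := by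
  sorry

theorem s36ne (hG : Hyp G) {p : ℕ} {P : Subgroup G} {x : G} (h : Bad p P x) : Hx P x ≠ ⊥ := by
  sorry

theorem s36R (hG : Hyp G) {p : ℕ} {P : Subgroup G} {x : G} (h : Bad p P x) :
    Hx P x ⊓ CG (P ⊓ Cx x) = ⊥ := by
  sorry

theorem s36z (hG : Hyp G) {p : ℕ} {P : Subgroup G} {x z : G} (h : Bad p P x) (hab : ¬ Ab P)
    (hz : z ∈ P) (hzc : z ∈ CG P) (hoz : orderOf z = p) : Hx P x ⊓ Cx z = ⊥ := by
  sorry

theorem s36S (hG : Hyp G) {p s : ℕ} {P S : Subgroup G} {x : G} (h : Bad p P x) (hS : IsS s S)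
    (hn : NG S = NG P) : ¬ s ∣ Nat.card (Hx P x) := by
  sorry

theorem s39 (hG : Hyp G) {p : ℕ} {P : Subgroup G} {x y c : G} (h : Bad p P y) (hx : x ∈ NG P)
    (hy : y ∈ zpowers x) (hc : c ∈ Cx x) :
    ∃ a ∈ Hx P y ⊓ Cx x, ∃ m ∈ NG P ⊓ Cx x, c = a * m := by
  sorry

end

end H84.LA
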