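import Pool.Agent.H84.LA.S36

/-! # Module S36i: invariance

Everything is invariant under conjugation, and `Good`, `Bad`, `PiX`, `Hx` do not depend on the
Sylow subgroup containing `x`: two of them are conjugate by `c ∈ C(x)` (`s13s`), and
`cj c (Op q (C(x))) = Op q (C(x))`. -/

namespace H84.LA

open Subgroup

section
variable {G : Type*} [Group G] [Finite G]

theorem PiX_cj {P : Subgroup G} {x : G} {q : ℕ} (g : G) :
    PiX (cj g P) (g * x * g⁻¹) q ↔ PiX P x q := by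
  sorry

theorem Hx_cj {P : Subgroup G} {x : G} (g : G) :
    Hx (cj g P) (g * x * g⁻¹) = cj g (Hx P x) := by
  sorry

theorem Bad_cj {p : ℕ} {P : Subgroup G} {x : G} (g : G) :
    Bad p (cj g P) (g * x * g⁻¹) ↔ Bad p P x := by
  sorry

theorem Good_indep (hG : Hyp G) {p : ℕ} {P P' : Subgroup G} {x : G} (hP : IsS p P)
    (hP' : IsS p P') (hx : x ∈ P) (hx' : x ∈ P') (h1 : x ≠ 1) : Good P x ↔ Good P' x := by
  sorry

theorem PiX_indep (hG : Hyp G) {p q : ℕ} {P P' : Subgroup G} {x : G} (hP : IsS p P)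
    (hP' : IsS p P') (hx : x ∈ P) (hx' : x ∈ P') (h1 : x ≠ 1) : PiX P x q ↔ PiX P' x q := by
  sorry

theorem Hx_indep (hG : Hyp G) {p : ℕ} {P P' : Subgroup G} {x : G} (hP : IsS p P)
    (hP' : IsS p P') (hx : x ∈ P) (hx' : x ∈ P') (h1 : x ≠ 1) : Hx P x = Hx P' x := by
  sorry

theorem Bad_indep (hG : Hyp G) {p : ℕ} {P P' : Subgroup G} {x : G} (h : Bad p P x)
    (hP' : IsS p P') (hx' : x ∈ P') : Bad p P' x := by
  sorry

/-- powers: `⟨x⟩ = ⟨x'⟩` -/
theorem Bad_zpowers {p : ℕ} {P : Subgroup G} {x x' : G} (h : Bad p P x)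
    (he : zpowers x = zpowers x') : Bad p P x' := by
  sorry

end

end H84.LA
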