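import Pool.Agent.H84.LA.S36i

/-! # Module S37 (3.7, 3.8, 3.10)

`s37A` (type A): `N(P) ⊓ N(⟨x⟩) ≤ C(P)`.  By `le_of_El` take an `s`-element `m`; `s = p`: `m ∈ P`.
`s ≠ p`: `J = N(⟨x⟩) ≠ ⊤`, `P ≤ J`, `K = Op q (C(x))` (`PiX P x q`) is normal in `J`, so
`K ≤ Op q J`.  `[P, ⟨m⟩] ≤ Op p J` (`Hyp.comm_le_Op`) centralises `K`.  If `[P, ⟨m⟩] ≠ 1` it is
normalised by `N(P)` (`s24inv`), so `K ≤ C([P, ⟨m⟩]) ≤ N(P)` (`s15d`): contradiction.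

`s37B` (type B): `N(P) ⊓ N(⟨x⟩) ≤ C(z)`.  `s = p`: `m ∈ P`.  `s ≠ p`: `m` normalises `⟨z⟩`
(`s32Bw`); if `m` does not centralise `z` then `z ∈ [J, J]` (`mem_comm_of_act`), `z ∈ Op p J`
centralises `K ≤ Op q J`, contradiction to `s33B`.

`s38`: type B: `u ∈ P ⊓ C(x)` of order `p`, not in `⟨z⟩`, is bad.  `R = P ⊓ C(x) ≠ P`
(`s32Bx`), take `t ∈ P ⊓ N(R)`, `t ∉ R` (`exists_normalizer_gt`).  `t x t⁻¹ ∈ ⟨x⟩ ⊔ ⟨z⟩`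
(`s32Bu`), `t x t⁻¹ = x ^ a z ^ b`; `t` is a `p`-element, so `a ≡ 1`, and `b ≢ 0 mod p`.
So `t ^ k x t ^ (-k) = x z ^ (k b)`, and `u = x ^ i z ^ j` (`p ∤ i`) is `t ^ k x ^ i t ^ (-k)` for
some `k`; `C(u) = cj (t ^ k) (C(x))` is not in `N(P)`.

`s310`: `x` bad, `a ∈ P ⊓ C(x)` of order `p` outside `⟨x⟩`: `H(x) ⊓ C(a) = 1`.  Type A:
`B = ⟨x⟩ ⊔ ⟨a⟩` (`card_two`), `N(P) ≤ N(B)` (`Omega_eq`), `N(B) = N(P)` (`s15d`);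
`H(x) ⊓ C(a) ≤ C(B) ≤ N(P)`, `s36c`.  Type B: `z ∈ ⟨a⟩ ⊔ ⟨x⟩` (`s32Bu`, `mem_sup_exchange`),
`s36z`.
-/

namespace H84.LA

open Subgroup

section
variable {G : Type*} [Group G] [Finite G]

theorem s37A (hG : Hyp G) {p : ℕ} {P : Subgroup G} {x : G} (h : Bad p P x) (hab : Ab P) :
    NG P ⊓ NG (zpowers x) ≤ CG P := by
  sorry

theorem s37B (hG : Hyp G) {p : ℕ} {P : Subgroup G} {x z : G} (h : Bad p P x) (hab : ¬ Ab P)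
    (hz : z ∈ P) (hzc : z ∈ CG P) (hoz : orderOf z = p) : NG P ⊓ NG (zpowers x) ≤ Cx z := by
  sorry

theorem s38 (hG : Hyp G) {p : ℕ} {P : Subgroup G} {x z u : G} (h : Bad p P x) (hab : ¬ Ab P)
    (hz : z ∈ P) (hzc : z ∈ CG P) (hoz : orderOf z = p) (hu : u ∈ P) (hux : u ∈ Cx x)
    (hou : orderOf u = p) (hn : u ∉ zpowers z) : Bad p P u := by
  sorry

theorem s310 (hG : Hyp G) {p : ℕ} {P : Subgroup G} {x a : G} (h : Bad p P x) (ha : a ∈ P)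
    (hax : a ∈ Cx x) (hoa : orderOf a = p) (hn : a ∉ zpowers x) : Hx P x ⊓ Cx a = ⊥ := by
  sorry

/-- (3.11) `L` maximal, not `N(P)`, `T ≤ P` Sylow in `L`: `T` is abelian.
[`[T, T] ≤ Op p L` (`Hyp.comm_le_Op`) is centralised by `Opp p L` and normalised by `N(T)`, so by
`L` (`s11le`).  If `[T, T] ≠ 1` then `L = N([T, T]) ≥ P ⊓ N(T)`, so `T = P` (normalisers grow),
`P` is not abelian, `P ≤ L`, `L ≤ N(P)` (`s32B1`), `L = N(P)`.] -/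
theorem s311 (hG : Hyp G) {p : ℕ} {P L T : Subgroup G} (hP : IsS p P) (hL : L ≠ ⊤)
    (hmax : ∀ M : Subgroup G, M ≠ ⊤ → L ≤ M → M = L) (hT : SylIn p L T) (hTP : T ≤ P)
    (hne : L ≠ NG P) : Ab T := by
  sorry

end

end H84.LA
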